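import Pool.Agent.Run7.h565.Nonvan

/-!
# Degrees, values at `1`, coprimality of the polynomials `θ m`, and the two key identities
-/

set_option autoImplicit false

namespace Run7.h565

open Polynomial

lemma θ_ev_one_ne {K : Type*} [Field K] [CharZero K] (m : ℕ) :
    aeval (1 : K) (θ m) ≠ 0 := by
  have key : aeval (1 : K) (θ m) ≠ 0 ∧ aeval (1 : K) (θ (m + 1)) ≠ 0 := by
    induction m with
    | zero => simp [θ_zero, θ_one]
    | succ m ih =>
      refine ⟨ih.2, ?_⟩
      rw [ev_one]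
      refine mul_ne_zero (neg_ne_zero.2 ?_) ih.2
      exact_mod_cast t_ne_zero m
  exact key.1

lemma θ_ne_zero (m : ℕ) : θ m ≠ 0 := by
  intro h
  apply θ_ev_one_ne (K := ℚ) m
  rw [h]; simp

lemma θ_natDegree (m : ℕ) : (θ m).natDegree = m / 2 := by
  have key : (θ m).natDegree = m / 2 ∧ (θ (m + 1)).natDegree = (m + 1) / 2 := by
    induction m with
    | zero => simp [θ_zero, θ_one]
    | succ m ih =>
      refine ⟨ih.2, ?_⟩
      have h := X_mul_θ m
      have h1 : (X * θ (m + 2)).natDegree = (θ (m + 2)).natDegree + 1 := by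
        rw [natDegree_X_mul (θ_ne_zero _)]
      have hX1 : ((X : ℤ[X]) - 1) ^ 2 ≠ 0 := pow_ne_zero _ (X_sub_C_ne_zero 1)
      have hd : (((X : ℤ[X]) - 1) ^ 2).natDegree = 2 := by
        rw [natDegree_pow]
        have : ((X : ℤ[X]) - 1).natDegree = 1 := natDegree_X_sub_C 1
        rw [this]
      have hC : (C (t (m + 1)) : ℤ[X]) ≠ 0 := C_ne_zero.2 (t_ne_zero _)
      have h2 : (C (t (m + 1)) * (X - 1) ^ 2 * θ m).natDegree = m / 2 + 2 := by
        rw [natDegree_mul (mul_ne_zero hC hX1) (θ_ne_zero m), natDegree_mul hC hX1, natDegree_C,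
          hd, ih.1]
        omega
      have h3 : (C (t m) * θ (m + 1)).natDegree < (C (t (m + 1)) * (X - 1) ^ 2 * θ m).natDegree := by
        rw [h2]
        refine (natDegree_C_mul_le _ _).trans_lt ?_
        rw [ih.2]; omega
      rw [h, natDegree_sub_eq_left_of_natDegree_lt h3, h2] at h1
      have : m + 1 + 1 = m + 2 := rfl
      rw [this]
      omega
  exact key.1

lemma coprime_aux {K : Type*} [Field K] [CharZero K] (m : ℕ) (z : K)
    (h1 : aeval z (θ (m + 1)) = 0) (h2 : aeval z (θ m) = 0) : False := by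
  induction m with
  | zero => simp [θ_zero] at h2
  | succ m ih =>
    refine ih h2 ?_
    have h := ev m z
    rw [h1, h2] at h
    have h3 : (t (m + 1) : K) * (z - 1) ^ 2 * aeval z (θ m) = 0 := by
      linear_combination -h
    rcases mul_eq_zero.1 h3 with h4 | h4
    · exfalso
      rcases mul_eq_zero.1 h4 with h5 | h5
      · exact t_ne_zero (m + 1) (by exact_mod_cast h5)
      · have : z = 1 := by
          have := pow_eq_zero_iff (two_ne_zero) |>.1 h5
          linear_combination this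
        rw [this] at h2
        exact θ_ev_one_ne (m + 1) h2
    · exact h4

/-- `B m (x, y)`, with the shift `m ↦ m + 1` -/
noncomputable def B (m : ℕ) (x y : ℝ) : ℝ :=
  aeval x (θ (m + 1)) * ((y - 1) ^ 2 * aeval y (θ m)) -
    aeval y (θ (m + 1)) * ((x - 1) ^ 2 * aeval x (θ m))

lemma B_rec (m : ℕ) (x y : ℝ) :
    x * B (m + 1) x y = -(t (m + 1) : ℝ) * (y - 1) ^ 2 * B m x y -
      (x - y) * (x ^ 2 + x * y + y ^ 2 - 2 * (x + y) + 1) * aeval x (θ (m + 1)) *
        aeval y (θ (m + 2)) := by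
  have hx := ev m x
  have hy := ev m y
  unfold B
  have e : m + 1 + 1 = m + 2 := rfl
  rw [e]
  generalize aeval x (θ (m + 2)) = a2 at *
  generalize aeval x (θ (m + 1)) = a1 at *
  generalize aeval x (θ m) = a0 at *
  generalize aeval y (θ (m + 2)) = b2 at *
  generalize aeval y (θ (m + 1)) = b1 at *
  generalize aeval y (θ m) = b0 at *
  linear_combination (y - 1) ^ 2 * b1 * hx - (y - 1) ^ 2 * a1 * hy

/-- First key identity. -/
lemma key1 (m : ℕ) : ∃ (c : ℝ) (G : ℝ → ℝ → ℝ), c ≠ 0 ∧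
    ContinuousAt (fun p : ℝ × ℝ => G p.1 p.2) (1, 1) ∧ (1 ≤ m → G 1 1 ≠ 0) ∧
    ∀ x y : ℝ, x ≠ 0 →
      B m x y = (x - y) * (c * (2 - x - y) ^ (m + 1) +
        (x ^ 2 + x * y + y ^ 2 - 2 * (x + y) + 1) * G x y) := by
  induction m with
  | zero =>
    refine ⟨1, fun x y => 0, one_ne_zero, continuousAt_const, fun h => by omega, ?_⟩
    intro x y _
    simp only [B, θ_zero, zero_add, θ_one, map_one]
    ring
  | succ m ih =>
    obtain ⟨c, G, hc, hG, -, hid⟩ := ih
    have ht : (t (m + 1) : ℝ) ≠ 0 := by exact_mod_cast t_ne_zero (m + 1)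
    refine ⟨-(t (m + 1) : ℝ) * c, fun x y => (-(t (m + 1) : ℝ) * c * (2 - x - y) ^ (m + 1) -
      (t (m + 1) : ℝ) * (y - 1) ^ 2 * G x y - aeval x (θ (m + 1)) * aeval y (θ (m + 2))) / x,
      mul_ne_zero (neg_ne_zero.2 ht) hc, ?_, fun _ => ?_, ?_⟩
    · have h1 : Continuous fun p : ℝ × ℝ => aeval p.1 (θ (m + 1)) :=
        (Polynomial.continuous_aeval (θ (m + 1))).comp continuous_fst
      have h2 : Continuous fun p : ℝ × ℝ => aeval p.2 (θ (m + 2)) :=
        (Polynomial.continuous_aeval (θ (m + 2))).comp continuous_snd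
      refine ContinuousAt.div ?_ continuousAt_fst (by norm_num)
      refine ContinuousAt.sub (ContinuousAt.sub ?_ ?_) ?_
      · fun_prop
      · refine ContinuousAt.mul ?_ hG
        fun_prop
      · exact (h1.mul h2).continuousAt
    · have h1 := θ_ev_one_ne (K := ℝ) (m + 1)
      have h2 := θ_ev_one_ne (K := ℝ) (m + 2)
      have h3 : (2 : ℝ) - 1 - 1 = 0 := by norm_num
      simp only [h3, sub_self, ne_eq, OfNat.ofNat_ne_zero, not_false_eq_true, zero_pow,
        mul_zero, zero_mul, div_one, zero_sub, neg_eq_zero, Nat.succ_ne_zero]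
      exact mul_ne_zero h1 h2
    · intro x y hx
      have h := B_rec m x y
      rw [hid x y hx] at h
      have hgoal : x * B (m + 1) x y = x * ((x - y) * (-(t (m + 1) : ℝ) * c *
          (2 - x - y) ^ (m + 1 + 1) + (x ^ 2 + x * y + y ^ 2 - 2 * (x + y) + 1) *
          ((-(t (m + 1) : ℝ) * c * (2 - x - y) ^ (m + 1) -
      (t (m + 1) : ℝ) * (y - 1) ^ 2 * G x y - aeval x (θ (m + 1)) * aeval y (θ (m + 2))) / x))) := by
        rw [h]
        field_simp
        ring
      exact mul_left_cancel₀ hx hgoal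

/-- second bilinear expression -/
noncomputable def B2 (m : ℕ) (x y : ℝ) : ℝ :=
  (x * aeval (x ^ 2) (θ (m + 1))) * ((y ^ 2 - 1) * aeval (y ^ 2) (θ m)) -
    (y * aeval (y ^ 2) (θ (m + 1))) * ((x ^ 2 - 1) * aeval (x ^ 2) (θ m))

lemma B2_rec (m : ℕ) (x y : ℝ) :
    (x * y) ^ 2 * B2 (m + 1) x y =
      -(t (m + 1) : ℝ) * (x * (x ^ 2 - 1) * (y * (y ^ 2 - 1))) * B2 m x y +
      (t m : ℝ) * ((x - y) * (x ^ 2 + x * y + y ^ 2 - 1)) *
        ((x * aeval (x ^ 2) (θ (m + 1))) * (y * aeval (y ^ 2) (θ (m + 1)))) := by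
  have hx := ev m (x ^ 2)
  have hy := ev m (y ^ 2)
  unfold B2
  have e : m + 1 + 1 = m + 2 := rfl
  rw [e]
  generalize aeval (x ^ 2) (θ (m + 2)) = a2 at *
  generalize aeval (x ^ 2) (θ (m + 1)) = a1 at *
  generalize aeval (x ^ 2) (θ m) = a0 at *
  generalize aeval (y ^ 2) (θ (m + 2)) = b2 at *
  generalize aeval (y ^ 2) (θ (m + 1)) = b1 at *
  generalize aeval (y ^ 2) (θ m) = b0 at *
  linear_combination (x * y ^ 2 * (y ^ 2 - 1) * b1) * hx - (y * x ^ 2 * (x ^ 2 - 1) * a1) * hy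

/-- Second key identity. -/
lemma key2 (m : ℕ) : ∃ (c : ℝ) (G : ℝ → ℝ → ℝ), c ≠ 0 ∧
    ContinuousAt (fun p : ℝ × ℝ => G p.1 p.2) (1, -1) ∧ G 1 (-1) ≠ 0 ∧
    ∀ x y : ℝ, x ≠ 0 → y ≠ 0 →
      B2 m x y = (x - y) * (c * (x + y) ^ (2 * m + 2) +
        (x ^ 2 + x * y + y ^ 2 - 1) * G x y) := by
  induction m with
  | zero =>
    refine ⟨-1, fun x y => 1, by norm_num, continuousAt_const, by norm_num, ?_⟩
    intro x y _ _
    simp only [B2, θ_zero, zero_add, θ_one, map_one]
    ring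
  | succ m ih =>
    obtain ⟨c, G, hc, hG, -, hid⟩ := ih
    have ht : (t (m + 1) : ℝ) ≠ 0 := by exact_mod_cast t_ne_zero (m + 1)
    have ht0 : (t m : ℝ) ≠ 0 := by exact_mod_cast t_ne_zero m
    refine ⟨-(t (m + 1) : ℝ) * c, fun x y => -(t (m + 1) : ℝ) * (x + y) ^ 2 * G x y -
      (t (m + 1) : ℝ) * ((x ^ 2 + x * y + y ^ 2 - 1) - (x + y) ^ 2) *
        (c * (x + y) ^ (2 * m + 2) + (x ^ 2 + x * y + y ^ 2 - 1) * G x y) / (x * y) +
      (t m : ℝ) * ((x * aeval (x ^ 2) (θ (m + 1))) * (y * aeval (y ^ 2) (θ (m + 1)))) /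
        (x * y) ^ 2,
      mul_ne_zero (neg_ne_zero.2 ht) hc, ?_, ?_, ?_⟩
    · have h1 : Continuous fun p : ℝ × ℝ => aeval (p.1 ^ 2) (θ (m + 1)) :=
        (Polynomial.continuous_aeval (θ (m + 1))).comp (continuous_fst.pow 2)
      have h2 : Continuous fun p : ℝ × ℝ => aeval (p.2 ^ 2) (θ (m + 1)) :=
        (Polynomial.continuous_aeval (θ (m + 1))).comp (continuous_snd.pow 2)
      have hxy : ContinuousAt (fun p : ℝ × ℝ => p.1 * p.2) (1, -1) := by fun_prop
      refine ContinuousAt.add (ContinuousAt.sub ?_ ?_) ?_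
      · refine ContinuousAt.mul ?_ hG
        fun_prop
      · refine ContinuousAt.div ?_ hxy (by norm_num)
        refine ContinuousAt.mul (by fun_prop) ?_
        refine ContinuousAt.add (by fun_prop) ?_
        refine ContinuousAt.mul (by fun_prop) hG
      · refine ContinuousAt.div ?_ (hxy.pow 2) (by norm_num)
        refine ContinuousAt.mul continuousAt_const ?_
        exact ((continuous_fst.mul h1).mul (continuous_snd.mul h2)).continuousAt
    · have h1 := θ_ev_one_ne (K := ℝ) (m + 1)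
      have h3 : (1 : ℝ) + -1 = 0 := by norm_num
      have h4 : (1 : ℝ) + 1 * -1 + 1 - 1 = 0 := by norm_num
      have h5 : ((-1 : ℝ)) ^ 2 = 1 := by norm_num
      simp only [h3, h5, one_pow, h4]
      have e : ∀ g : ℝ, -(t (m + 1) : ℝ) * 0 ^ 2 * g - (t (m + 1) : ℝ) * (0 - 0 ^ 2) *
        (c * 0 ^ (2 * m + 2) + 0 * g) / (1 * -1) +
        (t m : ℝ) * (1 * aeval (1 : ℝ) (θ (m + 1)) * (-1 * aeval (1 : ℝ) (θ (m + 1)))) /
          (1 * -1) ^ 2 = -((t m : ℝ) * aeval (1 : ℝ) (θ (m + 1)) ^ 2) := by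
        intro g; ring
      rw [e]
      exact neg_ne_zero.2 (mul_ne_zero ht0 (pow_ne_zero _ h1))
    · intro x y hx hy
      have h := B2_rec m x y
      rw [hid x y hx hy] at h
      have hxy : (x * y) ^ 2 ≠ 0 := pow_ne_zero _ (mul_ne_zero hx hy)
      refine mul_left_cancel₀ hxy ?_
      rw [h]
      field_simp
      ring

end Run7.h565
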