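import Mathlib

/-!
# The polynomials `nn m`, `mm m`

`nn 0 = X`, `mm 0 = 1`, and with `a m = nn m (2)`, `b m = mm m (2)`, `F = X^3 - 3 X`,
`(X^2 - 4) nn (m+1) = b m F nn m - 2 a m mm m`, `(X^2 - 4) mm (m+1) = a m F mm m - 2 b m nn m`.
The main point is that `a m` and `b m` are positive and `(3 m + 1) a m = (3 m + 2) b m`. This
follows from the Riccati equation of the branches of the inverse of `F`.
-/

set_option autoImplicit false

namespace Run7.h565

open Polynomial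

/-- `X ^ 3 - 3 X` -/
noncomputable def F3 : ℤ[X] := X ^ 3 - 3 * X

/-- right hand side of the recursion -/
noncomputable def numC (p q : ℤ[X]) : ℤ[X] :=
  C (q.eval 2) * F3 * p - C (2 * p.eval 2) * q

/-- `(nn m, mm m)` -/
noncomputable def pc : ℕ → ℤ[X] × ℤ[X]
  | 0 => (X, 1)
  | m + 1 => (numC (pc m).1 (pc m).2 /ₘ (X ^ 2 - 4), numC (pc m).2 (pc m).1 /ₘ (X ^ 2 - 4))

noncomputable def nn (m : ℕ) : ℤ[X] := (pc m).1
noncomputable def mm (m : ℕ) : ℤ[X] := (pc m).2
noncomputable def av (m : ℕ) : ℤ := (nn m).eval 2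
noncomputable def bv (m : ℕ) : ℤ := (mm m).eval 2

lemma nn_zero : nn 0 = X := rfl
lemma mm_zero : mm 0 = 1 := rfl
lemma av_zero : av 0 = 2 := by simp [av, nn_zero]
lemma bv_zero : bv 0 = 1 := by simp [bv, mm_zero]

lemma monic_X2 : ((X : ℤ[X]) ^ 2 - 4).Monic := by
  have : ((4 : ℤ[X])) = C 4 := rfl
  rw [this]
  exact monic_X_pow_sub_C 4 two_ne_zero

lemma F3_eval_two : F3.eval 2 = 2 := by simp [F3]
lemma F3_eval_neg_two : F3.eval (-2) = -2 := by simp [F3]

lemma dvd_of_roots (p : ℤ[X]) (h1 : p.eval 2 = 0) (h2 : p.eval (-2) = 0) :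
    (X ^ 2 - 4) ∣ p := by
  obtain ⟨r, hr⟩ := dvd_iff_isRoot.2 (show p.IsRoot 2 from h1)
  rw [hr] at h2
  have h3 : r.IsRoot (-2) := by
    simp only [eval_mul, eval_sub, eval_X, eval_C] at h2
    have : r.eval (-2) = 0 := by
      rcases mul_eq_zero.1 h2 with h | h
      · norm_num at h
      · exact h
    exact this
  obtain ⟨t, ht⟩ := dvd_iff_isRoot.2 h3
  refine ⟨t, ?_⟩
  rw [hr, ht]
  have e1 : (C (2 : ℤ) : ℤ[X]) = 2 := rfl
  have e2 : (C (-2 : ℤ) : ℤ[X]) = -2 := by simp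
  rw [e1, e2]
  ring

lemma ev_neg (p : ℤ[X]) (x : ℤ) : (p.comp (-X)).eval x = p.eval (-x) := by
  rw [eval_comp]; simp

lemma mul_div_aux (p : ℤ[X]) (h : (X ^ 2 - 4) ∣ p) : (X ^ 2 - 4) * (p /ₘ (X ^ 2 - 4)) = p := by
  have h1 := modByMonic_add_div p ((X : ℤ[X]) ^ 2 - 4)
  rw [(modByMonic_eq_zero_iff_dvd monic_X2).2 h, zero_add] at h1
  exact h1

lemma F3_neg : F3.comp (-X) = -F3 := by
  simp [F3]; ring

lemma rec_of_par (m : ℕ) (h1 : (nn m).comp (-X) = (-1) ^ (m + 1) * nn m)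
    (h2 : (mm m).comp (-X) = (-1) ^ m * mm m) :
    ((X ^ 2 - 4) * nn (m + 1) = C (bv m) * F3 * nn m - C (2 * av m) * mm m ∧
      (X ^ 2 - 4) * mm (m + 1) = C (av m) * F3 * mm m - C (2 * bv m) * nn m) := by
  have e1 : (nn m).eval (-2) = (-1) ^ (m + 1) * av m := by
    have := congrArg (eval 2) h1
    rw [ev_neg] at this
    rw [this]; simp [av]
  have e2 : (mm m).eval (-2) = (-1) ^ m * bv m := by
    have := congrArg (eval 2) h2
    rw [ev_neg] at this
    rw [this]; simp [bv]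
  constructor
  · change (X ^ 2 - 4) * (numC (nn m) (mm m) /ₘ (X ^ 2 - 4)) = numC (nn m) (mm m)
    apply mul_div_aux
    apply dvd_of_roots
    · simp only [numC, eval_sub, eval_mul, eval_C, F3_eval_two]
      ring
    · simp only [numC, eval_sub, eval_mul, eval_C, F3_eval_neg_two, e1, e2]
      simp only [av, bv]
      ring
  · change (X ^ 2 - 4) * (numC (mm m) (nn m) /ₘ (X ^ 2 - 4)) = numC (mm m) (nn m)
    apply mul_div_aux
    apply dvd_of_roots
    · simp only [numC, eval_sub, eval_mul, eval_C, F3_eval_two]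
      ring
    · simp only [numC, eval_sub, eval_mul, eval_C, F3_eval_neg_two, e1, e2]
      simp only [av, bv]
      ring

lemma X2_ne : ((X : ℤ[X]) ^ 2 - 4) ≠ 0 := monic_X2.ne_zero

lemma par (m : ℕ) : (nn m).comp (-X) = (-1) ^ (m + 1) * nn m ∧
    (mm m).comp (-X) = (-1) ^ m * mm m := by
  induction m with
  | zero => simp [nn_zero, mm_zero]
  | succ m ih =>
    obtain ⟨h1, h2⟩ := rec_of_par m ih.1 ih.2
    have e0 : ((X : ℤ[X]) ^ 2 - 4).comp (-X) = X ^ 2 - 4 := by simp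
    constructor
    · apply mul_left_cancel₀ X2_ne
      have := congrArg (fun p => p.comp (-X)) h1
      simp only [sub_comp, mul_comp, C_comp, F3_neg, ih.1, ih.2] at this
      have e3 : ((X : ℤ[X]) ^ 2).comp (-X) - (4 : ℤ[X]).comp (-X) = X ^ 2 - 4 := by simp
      rw [e3] at this
      linear_combination this - (-1) ^ m * h1
    · apply mul_left_cancel₀ X2_ne
      have := congrArg (fun p => p.comp (-X)) h2
      simp only [sub_comp, mul_comp, C_comp, F3_neg, ih.1, ih.2] at this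
      have e3 : ((X : ℤ[X]) ^ 2).comp (-X) - (4 : ℤ[X]).comp (-X) = X ^ 2 - 4 := by simp
      rw [e3] at this
      linear_combination this - (-1) ^ (m + 1) * h2

lemma nn_succ (m : ℕ) :
    (X ^ 2 - 4) * nn (m + 1) = C (bv m) * F3 * nn m - C (2 * av m) * mm m :=
  (rec_of_par m (par m).1 (par m).2).1

lemma mm_succ (m : ℕ) :
    (X ^ 2 - 4) * mm (m + 1) = C (av m) * F3 * mm m - C (2 * bv m) * nn m :=
  (rec_of_par m (par m).1 (par m).2).2

/-- `((S, T), (U, V))` -/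
noncomputable def st : ℕ → (ℤ[X] × ℤ[X]) × (ℤ[X] × ℤ[X])
  | 0 => ((1, 0), (0, 1))
  | m + 1 => ((C (bv m) * X * (st m).1.1 - C (2 * av m) * (st m).2.1,
      C (bv m) * X * (st m).1.2 - C (2 * av m) * (st m).2.2),
      (C (av m) * X * (st m).2.1 - C (2 * bv m) * (st m).1.1,
      C (av m) * X * (st m).2.2 - C (2 * bv m) * (st m).1.2))

noncomputable def sS (m : ℕ) : ℤ[X] := (st m).1.1
noncomputable def sT (m : ℕ) : ℤ[X] := (st m).1.2
noncomputable def sU (m : ℕ) : ℤ[X] := (st m).2.1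
noncomputable def sV (m : ℕ) : ℤ[X] := (st m).2.2

lemma sS_zero : sS 0 = 1 := rfl
lemma sT_zero : sT 0 = 0 := rfl
lemma sU_zero : sU 0 = 0 := rfl
lemma sV_zero : sV 0 = 1 := rfl
lemma sS_succ (m : ℕ) : sS (m + 1) = C (bv m) * X * sS m - C (2 * av m) * sU m := rfl
lemma sT_succ (m : ℕ) : sT (m + 1) = C (bv m) * X * sT m - C (2 * av m) * sV m := rfl
lemma sU_succ (m : ℕ) : sU (m + 1) = C (av m) * X * sU m - C (2 * bv m) * sS m := rfl
lemma sV_succ (m : ℕ) : sV (m + 1) = C (av m) * X * sV m - C (2 * bv m) * sT m := rfl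

lemma cof (m : ℕ) : (X ^ 2 - 4) ^ m * nn m = (sS m).comp F3 * X + (sT m).comp F3 ∧
    (X ^ 2 - 4) ^ m * mm m = (sU m).comp F3 * X + (sV m).comp F3 := by
  induction m with
  | zero => simp [nn_zero, mm_zero, sS_zero, sT_zero, sU_zero, sV_zero]
  | succ m ih =>
    obtain ⟨h1, h2⟩ := ih
    constructor
    · rw [sS_succ, sT_succ]
      simp only [sub_comp, mul_comp, C_comp, X_comp]
      have := nn_succ m
      linear_combination (X ^ 2 - 4) ^ m * this + (C (bv m) * F3) * h1 - (C (2 * av m)) * h2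
    · rw [sU_succ, sV_succ]
      simp only [sub_comp, mul_comp, C_comp, X_comp]
      have := mm_succ m
      linear_combination (X ^ 2 - 4) ^ m * this + (C (av m) * F3) * h2 - (C (2 * bv m)) * h1

/-- the Riccati form -/
noncomputable def Ef (s t : ℤ[X]) : ℤ[X] :=
  3 * (4 - X ^ 2) * (-derivative t * s + t * derivative s) - (2 * t ^ 2 + X * t * s - 4 * s ^ 2)

/-- its polarisation -/
noncomputable def Em (s t u v : ℤ[X]) : ℤ[X] :=
  3 * (4 - X ^ 2) * (-derivative t * u - derivative v * s + t * derivative u + v * derivative s)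
    - (4 * t * v + X * (t * u + v * s) - 8 * s * u)

lemma derivative_F3 : derivative F3 = 3 * (X ^ 2 - 1) := by
  simp [F3]; ring

lemma Ef_comp (s t : ℤ[X]) (g : ℤ[X]) (hg : g = s.comp F3 * X + t.comp F3) :
    (Ef s t).comp F3 = (X ^ 2 - 1) * (X ^ 2 - 4) * s.comp F3 * derivative g +
      g * (-3 * (X ^ 2 - 1) ^ 2 * (X ^ 2 - 4) * (derivative s).comp F3 - 2 * g + 4 * s.comp F3 * X
        - F3 * s.comp F3) := by
  have h1 : derivative g = s.comp F3 + X * ((derivative s).comp F3) * (3 * (X ^ 2 - 1)) +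
      (derivative t).comp F3 * (3 * (X ^ 2 - 1)) := by
    rw [hg]
    simp only [derivative_add, derivative_mul, derivative_comp, derivative_X, derivative_F3]
    ring
  rw [h1, hg]
  simp only [Ef, sub_comp, add_comp, mul_comp, neg_comp, pow_comp, X_comp, ofNat_comp]
  have h2 : F3 = X ^ 3 - 3 * X := rfl
  generalize s.comp F3 = s1
  generalize t.comp F3 = t1
  generalize (derivative s).comp F3 = s2
  generalize (derivative t).comp F3 = t2
  rw [h2]
  ring

/-- the determinant constant -/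
noncomputable def dl : ℕ → ℤ
  | 0 => 1
  | m + 1 => av m * bv m * dl m

lemma det_st (m : ℕ) : sS m * sV m - sT m * sU m = C (dl m) * (X ^ 2 - 4) ^ m := by
  induction m with
  | zero => simp [sS_zero, sT_zero, sU_zero, sV_zero, dl]
  | succ m ih =>
    rw [sS_succ, sT_succ, sU_succ, sV_succ]
    have : (C (dl (m + 1)) : ℤ[X]) = C (av m) * C (bv m) * C (dl m) := by simp [dl]
    rw [this]
    simp only [C_mul]
    have e2 : (C (2 : ℤ) : ℤ[X]) = 2 := rfl
    rw [e2]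
    linear_combination (C (av m) * C (bv m) * (X ^ 2 - 4)) * ih

/-- the ratio at level `m` -/
def Ratio (m : ℕ) : Prop := (3 * m + 1) * av m = (3 * m + 2) * bv m

lemma Ef_zero_S : Ef (sS 0) (sT 0) = 4 := by
  simp [Ef, sS_zero, sT_zero]

lemma Ef_zero_U : Ef (sU 0) (sV 0) = -2 := by
  simp [Ef, sU_zero, sV_zero]

lemma Em_zero : Em (sS 0) (sT 0) (sU 0) (sV 0) = -X := by
  simp [Em, sU_zero, sV_zero, sS_zero, sT_zero]

/-- the three quadratic identities -/
def Quad (m : ℕ) : Prop :=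
  Ef (sS m) (sT m) = C (2 * (3 * (m : ℤ) + 2) * dl m) * (X ^ 2 - 4) ^ m ∧
  Ef (sU m) (sV m) = C (-(2 * (3 * (m : ℤ) + 1) * dl m)) * (X ^ 2 - 4) ^ m ∧
  Em (sS m) (sT m) (sU m) (sV m) = C (-dl m) * X * (X ^ 2 - 4) ^ m

lemma quad_zero : Quad 0 := by
  refine ⟨?_, ?_, ?_⟩
  · rw [Ef_zero_S]; simp [dl]
  · rw [Ef_zero_U]; simp [dl]
  · rw [Em_zero]; simp [dl]

lemma quad_succ (m : ℕ) (hr : Ratio m) (h : Quad m) : Quad (m + 1) := by
  obtain ⟨h1, h2, h3⟩ := h
  have hd := det_st m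
  have hr' : (3 * C (m : ℤ) + 1) * C (av m) = (3 * C (m : ℤ) + 2) * (C (bv m) : ℤ[X]) := by
    have e := congrArg (C : ℤ → ℤ[X]) hr
    simpa using e
  have e2 : (C (2 : ℤ) : ℤ[X]) = 2 := rfl
  have e3 : (C (3 : ℤ) : ℤ[X]) = 3 := rfl
  have e4 : (C ((m + 1 : ℕ) : ℤ) : ℤ[X]) = C (m : ℤ) + 1 := by simp
  have e5 : (C (dl (m + 1)) : ℤ[X]) = C (av m) * C (bv m) * C (dl m) := by simp [dl]
  simp only [Ef, Em, C_mul, C_add, C_neg, C_1, e2, e3] at h1 h2 h3 hd
  refine ⟨?_, ?_, ?_⟩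
  · simp only [Ef, sS_succ, sT_succ, derivative_sub, derivative_mul, derivative_C, derivative_X,
      derivative_ofNat, C_mul, C_add, e2, e3, e4, e5, zero_mul, zero_add, mul_one, add_zero, mul_zero]
    linear_combination (C (bv m) ^ 2 * X ^ 2) * h1 + (4 * C (av m) ^ 2) * h2
      - (2 * C (av m) * C (bv m) * X) * h3 - (6 * C (av m) * C (bv m) * (4 - X ^ 2)) * hd
      - ((2 * C (bv m) * X ^ 2 + 8 * C (av m)) * C (dl m) * (X ^ 2 - 4) ^ m) * hr'
  · simp only [Ef, sU_succ, sV_succ, derivative_sub, derivative_mul, derivative_C, derivative_X,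
      derivative_ofNat, C_mul, C_add, C_neg, C_1, e2, e3, e4, e5, zero_mul, zero_add, mul_one, add_zero, mul_zero]
    linear_combination (C (av m) ^ 2 * X ^ 2) * h2 + (4 * C (bv m) ^ 2) * h1
      - (2 * C (av m) * C (bv m) * X) * h3 + (6 * C (av m) * C (bv m) * (4 - X ^ 2)) * hd
      - ((2 * C (av m) * X ^ 2 + 8 * C (bv m)) * C (dl m) * (X ^ 2 - 4) ^ m) * hr'
  · simp only [Em, sU_succ, sV_succ, sS_succ, sT_succ, derivative_sub, derivative_mul,
      derivative_C, derivative_X, C_mul, C_neg, e2, e5, zero_mul, zero_add, mul_one]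
    linear_combination (-4 * C (bv m) ^ 2 * X) * h1 - (4 * C (av m) ^ 2 * X) * h2
      + (C (av m) * C (bv m) * (X ^ 2 + 4)) * h3
      + (8 * (C (av m) + C (bv m)) * X * C (dl m) * (X ^ 2 - 4) ^ m) * hr'

lemma F3_sq : F3 ^ 2 - 4 = (X ^ 2 - 4) * (X ^ 2 - 1) ^ 2 := by
  simp only [F3]; ring

lemma ev_Ef (k : ℕ) (c : ℤ) (s t G : ℤ[X])
    (hG : (X ^ 2 - 4) ^ (k + 1) * G = s.comp F3 * X + t.comp F3)
    (hE : Ef s t = C c * (X ^ 2 - 4) ^ (k + 1)) :
    c * 9 ^ (k + 1) = 6 * (2 * (k + 1) + 1) * s.eval 2 * G.eval 2 := by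
  have h1 := Ef_comp s t _ hG
  rw [hE] at h1
  have h2 : (C c * (X ^ 2 - 4) ^ (k + 1)).comp F3 =
      (X ^ 2 - 4) ^ (k + 1) * (C c * (X ^ 2 - 1) ^ (2 * (k + 1))) := by
    simp only [mul_comp, pow_comp, sub_comp, X_comp, C_comp, ofNat_comp, Nat.cast_ofNat]
    rw [F3_sq, mul_pow, pow_mul]
    ring
  have h3 : derivative ((X ^ 2 - 4) ^ (k + 1) * G) =
      (X ^ 2 - 4) ^ k * (2 * C ((k : ℤ) + 1) * X * G + (X ^ 2 - 4) * derivative G) := by
    rw [derivative_mul, derivative_pow]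
    simp only [derivative_sub, derivative_X_pow, derivative_ofNat]
    have : (C (((k + 1 : ℕ) : ℤ)) : ℤ[X]) = C ((k : ℤ) + 1) := by simp
    simp
    ring
  rw [h2, h3] at h1
  have h4 : (X ^ 2 - 4) ^ (k + 1) * (C c * (X ^ 2 - 1) ^ (2 * (k + 1))) =
      (X ^ 2 - 4) ^ (k + 1) * ((X ^ 2 - 1) * s.comp F3 *
        (2 * C ((k : ℤ) + 1) * X * G + (X ^ 2 - 4) * derivative G) +
        G * (-3 * (X ^ 2 - 1) ^ 2 * (X ^ 2 - 4) * (derivative s).comp F3
          - 2 * ((X ^ 2 - 4) ^ (k + 1) * G) + 4 * s.comp F3 * X - F3 * s.comp F3)) := by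
    rw [h1]; ring
  have h5 := mul_left_cancel₀ (pow_ne_zero _ X2_ne) h4
  have h6 := congrArg (eval 2) h5
  simp only [eval_mul, eval_add, eval_sub, eval_pow, eval_C, eval_X, eval_comp, F3_eval_two,
    eval_ofNat, eval_one, eval_neg] at h6
  norm_num at h6
  rw [pow_mul] at h6
  norm_num at h6
  rw [h6]
  ring

lemma ratio_succ (m : ℕ) (hq : Quad (m + 1)) (hd : dl (m + 1) ≠ 0) : Ratio (m + 1) := by
  have h1 := ev_Ef m _ _ _ _ (cof (m + 1)).1 hq.1
  have h2 := ev_Ef m _ _ _ _ (cof (m + 1)).2 hq.2.1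
  have h3 : (sU (m + 1)).eval 2 = - (sS (m + 1)).eval 2 := by
    rw [sU_succ, sS_succ]
    simp only [eval_sub, eval_mul, eval_C, eval_X]
    ring
  rw [h3] at h2
  have h4 : (9 : ℤ) ^ (m + 1) * dl (m + 1) * 2 *
      ((3 * ((m + 1 : ℕ) : ℤ) + 1) * av (m + 1) - (3 * ((m + 1 : ℕ) : ℤ) + 2) * bv (m + 1)) = 0 := by
    have e1 : (nn (m + 1)).eval 2 = av (m + 1) := rfl
    have e2 : (mm (m + 1)).eval 2 = bv (m + 1) := rfl
    rw [e1] at h1
    rw [e2] at h2
    linear_combination (-bv (m + 1)) * h1 - (av (m + 1)) * h2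
  have h5 : ((9 : ℤ) ^ (m + 1) * dl (m + 1) * 2) ≠ 0 := by positivity
  have h6 := (mul_eq_zero.1 h4).resolve_left h5
  unfold Ratio
  linear_combination h6

/-- sum of the values at `2` -/
lemma sum_succ (m : ℕ) : 2 * (av (m + 1) + bv (m + 1)) = 9 * (av m * bv m) := by
  have h1 := congrArg (fun p => (derivative p).eval 2) (nn_succ m)
  have h2 := congrArg (fun p => (derivative p).eval 2) (mm_succ m)
  simp only [derivative_mul, derivative_sub, derivative_C, derivative_X_pow, derivative_ofNat,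
    derivative_F3, eval_mul, eval_add, eval_sub, eval_C, eval_X, eval_pow, eval_ofNat,
    F3_eval_two, eval_zero, eval_one] at h1 h2
  norm_num at h1 h2
  have e1 : ∀ k, (nn k).eval 2 = av k := fun k => rfl
  have e2 : ∀ k, (mm k).eval 2 = bv k := fun k => rfl
  rw [e1, e1] at h1
  rw [e2, e2] at h2
  have : 2 * (2 * (av (m + 1) + bv (m + 1))) = 2 * (9 * (av m * bv m)) := by
    linear_combination h1 + h2
  exact mul_left_cancel₀ two_ne_zero this

lemma all_ab (m : ℕ) : 0 < av m ∧ 0 < bv m ∧ 0 < dl m ∧ Ratio m ∧ Quad m := by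
  induction m with
  | zero =>
    refine ⟨by rw [av_zero]; norm_num, by rw [bv_zero]; norm_num, by simp [dl], ?_, quad_zero⟩
    unfold Ratio
    rw [av_zero, bv_zero]; norm_num
  | succ m ih =>
    obtain ⟨ha, hb, hd, hr, hq⟩ := ih
    have hq' := quad_succ m hr hq
    have hd' : 0 < dl (m + 1) := by
      change 0 < av m * bv m * dl m
      positivity
    have hr' := ratio_succ m hq' hd'.ne'
    have hs := sum_succ m
    have hs' : 0 < av (m + 1) + bv (m + 1) := by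
      have : 0 < av m * bv m := mul_pos ha hb
      linarith
    have hr2 : (3 * ((m : ℤ) + 1) + 1) * av (m + 1) = (3 * ((m : ℤ) + 1) + 2) * bv (m + 1) := by
      have := hr'
      unfold Ratio at this
      push_cast at this
      exact this
    refine ⟨?_, ?_, hd', hr', hq'⟩
    · have h1 : (3 * ((m : ℤ) + 1) + 1 + (3 * ((m : ℤ) + 1) + 2)) * av (m + 1) =
          (3 * ((m : ℤ) + 1) + 2) * (av (m + 1) + bv (m + 1)) := by
        linear_combination hr2
      have h2 : 0 < (3 * ((m : ℤ) + 1) + 2) * (av (m + 1) + bv (m + 1)) := by positivity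
      rw [← h1] at h2
      exact pos_of_mul_pos_right h2 (by positivity)
    · have h1 : (3 * ((m : ℤ) + 1) + 1 + (3 * ((m : ℤ) + 1) + 2)) * bv (m + 1) =
          (3 * ((m : ℤ) + 1) + 1) * (av (m + 1) + bv (m + 1)) := by
        linear_combination -hr2
      have h2 : 0 < (3 * ((m : ℤ) + 1) + 1) * (av (m + 1) + bv (m + 1)) := by positivity
      rw [← h1] at h2
      exact pos_of_mul_pos_right h2 (by positivity)

lemma av_pos (m : ℕ) : 0 < av m := (all_ab m).1
lemma bv_pos (m : ℕ) : 0 < bv m := (all_ab m).2.1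
lemma ratio (m : ℕ) : (3 * (m : ℤ) + 1) * av m = (3 * m + 2) * bv m := (all_ab m).2.2.2.1
lemma bv_lt_av (m : ℕ) : bv m < av m := by
  have h1 := ratio m
  have h2 := bv_pos m
  nlinarith

end Run7.h565
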