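import Pool.Agent.Run7.h565.Cheb

/-!
# Degrees, values at `1`, common zeros and the key identity for `nn m`, `mm m`
-/

set_option autoImplicit false

namespace Run7.h565

open Polynomial

lemma nn_ne (m : ℕ) : nn m ≠ 0 := by
  intro h
  have h1 := av_pos m
  rw [av, h] at h1
  simp at h1

lemma mm_ne (m : ℕ) : mm m ≠ 0 := by
  intro h
  have h1 := bv_pos m
  rw [bv, h] at h1
  simp at h1

lemma F3_natDegree : F3.natDegree = 3 := by
  unfold F3
  compute_degree!

lemma F3_ne : F3 ≠ 0 := by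
  intro h
  have := F3_natDegree
  rw [h] at this
  simp at this

lemma X2_natDegree : ((X : ℤ[X]) ^ 2 - 4).natDegree = 2 := by
  have : ((4 : ℤ[X])) = C 4 := rfl
  rw [this]
  exact natDegree_X_pow_sub_C

lemma deg_nm (m : ℕ) : (nn m).natDegree = m + 1 ∧ (mm m).natDegree = m := by
  induction m with
  | zero => simp [nn_zero, mm_zero]
  | succ m ih =>
    obtain ⟨h1, h2⟩ := ih
    have ha : av m ≠ 0 := (av_pos m).ne'
    have hb : bv m ≠ 0 := (bv_pos m).ne'
    constructor
    · have h3 := congrArg natDegree (nn_succ m)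
      have h4 : (C (bv m) * F3 * nn m).natDegree = m + 4 := by
        rw [natDegree_mul (mul_ne_zero (C_ne_zero.2 hb) F3_ne) (nn_ne m), natDegree_C_mul hb,
          F3_natDegree, h1]
        omega
      have h5 : (C (2 * av m) * mm m).natDegree < (C (bv m) * F3 * nn m).natDegree := by
        rw [h4]
        refine (natDegree_C_mul_le _ _).trans_lt ?_
        omega
      rw [natDegree_sub_eq_left_of_natDegree_lt h5, h4, natDegree_mul X2_ne (nn_ne _),
        X2_natDegree] at h3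
      omega
    · have h3 := congrArg natDegree (mm_succ m)
      have h4 : (C (av m) * F3 * mm m).natDegree = m + 3 := by
        rw [natDegree_mul (mul_ne_zero (C_ne_zero.2 ha) F3_ne) (mm_ne m), natDegree_C_mul ha,
          F3_natDegree, h2]
        omega
      have h5 : (C (2 * bv m) * nn m).natDegree < (C (av m) * F3 * mm m).natDegree := by
        rw [h4]
        refine (natDegree_C_mul_le _ _).trans_lt ?_
        omega
      rw [natDegree_sub_eq_left_of_natDegree_lt h5, h4, natDegree_mul X2_ne (mm_ne _),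
        X2_natDegree] at h3
      omega

lemma F3_eval_one : F3.eval 1 = -2 := by simp [F3]

/-- the common value at `1` -/
noncomputable def ee (m : ℕ) : ℤ := (nn m).eval 1

lemma ee_mm (m : ℕ) : (mm m).eval 1 = ee m ∧ 0 < ee m := by
  induction m with
  | zero => simp [ee, nn_zero, mm_zero]
  | succ m ih =>
    obtain ⟨h1, h2⟩ := ih
    have h3 := congrArg (eval 1) (nn_succ m)
    have h4 := congrArg (eval 1) (mm_succ m)
    simp only [eval_mul, eval_sub, eval_pow, eval_X, eval_C, eval_ofNat, F3_eval_one] at h3 h4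
    have e1 : ∀ k, (nn k).eval 1 = ee k := fun k => rfl
    rw [e1, e1, h1] at h3
    rw [e1, h1] at h4
    have ha := av_pos m
    have hb := bv_pos m
    constructor
    · linarith
    · have : 0 < (av m + bv m) * ee m := by positivity
      nlinarith

/-- the quotient of `b nn - a mm` by `X - 2` -/
lemma exists_dd (m : ℕ) : ∃ D : ℤ[X], (X - 2) * D = C (bv m) * nn m - C (av m) * mm m ∧
    nn (m + 1) - mm (m + 1) = (X - 1) ^ 2 * D ∧ 0 < D.eval 1 := by
  have h0 : (C (bv m) * nn m - C (av m) * mm m).IsRoot 2 := by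
    simp only [IsRoot.def, eval_sub, eval_mul, eval_C]
    simp only [av, bv]
    ring
  obtain ⟨D, hD⟩ := dvd_iff_isRoot.2 h0
  have e2 : (C (2 : ℤ) : ℤ[X]) = 2 := rfl
  rw [e2] at hD
  refine ⟨D, hD.symm, ?_, ?_⟩
  · apply mul_left_cancel₀ X2_ne
    rw [mul_sub, nn_succ, mm_succ]
    simp only [C_mul, e2]
    have h2 : F3 = X ^ 3 - 3 * X := rfl
    rw [h2]
    linear_combination ((X + 2) * (X - 1) ^ 2) * hD
  · have h1 := congrArg (eval 1) hD
    simp only [eval_sub, eval_mul, eval_C, eval_X, eval_ofNat, (ee_mm m).1] at h1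
    have e1 : (nn m).eval 1 = ee m := rfl
    rw [e1] at h1
    have h2 := bv_lt_av m
    have h3 := (ee_mm m).2
    nlinarith

section complex

/-- value of `nn m` -/
noncomputable def nx (m : ℕ) (x : ℂ) : ℂ := aeval x (nn m)
/-- value of `mm m` -/
noncomputable def mx (m : ℕ) (x : ℂ) : ℂ := aeval x (mm m)

lemma nx_succ (m : ℕ) (x : ℂ) : (x ^ 2 - 4) * nx (m + 1) x =
    (bv m : ℂ) * (x ^ 3 - 3 * x) * nx m x - 2 * (av m : ℂ) * mx m x := by
  have h := congrArg (aeval x) (nn_succ m)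
  simp only [F3, map_mul, map_sub, map_pow, aeval_X, map_ofNat, eq_intCast, map_intCast] at h
  exact h

lemma mx_succ (m : ℕ) (x : ℂ) : (x ^ 2 - 4) * mx (m + 1) x =
    (av m : ℂ) * (x ^ 3 - 3 * x) * mx m x - 2 * (bv m : ℂ) * nx m x := by
  have h := congrArg (aeval x) (mm_succ m)
  simp only [F3, map_mul, map_sub, map_pow, aeval_X, map_ofNat, eq_intCast, map_intCast] at h
  exact h

lemma aeval_int (P : ℤ[X]) (k : ℤ) : aeval (k : ℂ) P = ((P.eval k : ℤ) : ℂ) := by
  have h := aeval_algebraMap_apply ℂ k P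
  simpa using h

lemma nx_one (m : ℕ) : nx m 1 = (ee m : ℂ) := by
  have := aeval_int (nn m) 1
  simpa [nx, ee] using this

lemma mx_one (m : ℕ) : mx m 1 = (ee m : ℂ) := by
  have := aeval_int (mm m) 1
  rw [(ee_mm m).1] at this
  simpa [mx] using this

lemma no_common (m : ℕ) (x : ℂ) (h1 : nx m x = 0) (h2 : mx m x = 0) : False := by
  obtain ⟨c1, c2⟩ := cof m
  have c3 := det_st m
  have d1 := congrArg (aeval x) c1
  have d2 := congrArg (aeval x) c2
  have d3 := congrArg (fun P => aeval x (P.comp F3)) c3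
  simp only [map_mul, map_add, map_sub, map_pow, aeval_X, sub_comp, mul_comp, pow_comp,
    X_comp, ofNat_comp, intCast_comp, eq_intCast, map_intCast, Nat.cast_ofNat,
    map_ofNat] at d1 d2 d3
  have h1' : aeval x (nn m) = 0 := h1
  have h2' : aeval x (mm m) = 0 := h2
  rw [h1', mul_zero] at d1
  rw [h2', mul_zero] at d2
  have d4 : (aeval x F3) ^ 2 - 4 = (x ^ 2 - 4) * (x ^ 2 - 1) ^ 2 := by
    have := congrArg (aeval x) F3_sq
    simpa only [map_sub, map_pow, map_mul, aeval_X, map_one, map_ofNat] using this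
  have hdl : ((dl m : ℤ) : ℂ) ≠ 0 := by exact_mod_cast (all_ab m).2.2.1.ne'
  have d5 : ((dl m : ℤ) : ℂ) * ((x ^ 2 - 4) * (x ^ 2 - 1) ^ 2) ^ m = 0 := by
    rw [← d4, ← d3]
    linear_combination (-(aeval x ((sS m).comp F3))) * d2 + (aeval x ((sU m).comp F3)) * d1
  have d6 := (mul_eq_zero.1 d5).resolve_left hdl
  have d7 : (x ^ 2 - 4) * (x ^ 2 - 1) ^ 2 = 0 := by
    by_contra hne
    exact pow_ne_zero m hne d6
  have ha : ((av m : ℤ) : ℂ) ≠ 0 := by exact_mod_cast (av_pos m).ne'
  have he : ((ee m : ℤ) : ℂ) ≠ 0 := by exact_mod_cast (ee_mm m).2.ne'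
  have hpar : ∀ z : ℂ, nx m (-z) = (-1) ^ (m + 1) * nx m z := by
    intro z
    have := congrArg (aeval z) (par m).1
    simpa [aeval_comp, nx] using this
  have h2v : nx m 2 = av m := by
    have := aeval_int (nn m) 2
    simpa [nx, av] using this
  rcases mul_eq_zero.1 d7 with h | h
  · have : (x - 2) * (x + 2) = 0 := by linear_combination h
    rcases mul_eq_zero.1 this with h3 | h3
    · rw [sub_eq_zero.1 h3, h2v] at h1
      exact ha h1
    · have : x = -2 := by linear_combination h3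
      rw [this, hpar, h2v] at h1
      exact mul_ne_zero (pow_ne_zero _ (by norm_num)) ha h1
  · have : (x - 1) * (x + 1) = 0 := by
      linear_combination (pow_eq_zero_iff two_ne_zero).1 h
    rcases mul_eq_zero.1 this with h3 | h3
    · rw [sub_eq_zero.1 h3, nx_one] at h1
      exact he h1
    · have : x = -1 := by linear_combination h3
      rw [this, hpar, nx_one] at h1
      exact mul_ne_zero (pow_ne_zero _ (by norm_num)) he h1

/-- key identity -/
lemma key3 (m : ℕ) : ∃ G : ℂ → ℂ → ℂ,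
    ContinuousAt (fun p : ℂ × ℂ => G p.1 p.2) (1, 1) ∧
    (m ≠ 0 → G 1 1 ≠ 0) ∧ ∀ x y : ℂ, x ^ 2 ≠ 4 → y ^ 2 ≠ 4 →
      nx m x * mx m y - nx m y * mx m x = (x - y) *
        (((dl m : ℤ) : ℂ) * ((x + y) ^ 2 - 4) ^ m + (x ^ 2 + x * y + y ^ 2 - 3) * G x y) := by
  induction m with
  | zero =>
    refine ⟨fun _ _ => 0, continuousAt_const, fun h => absurd rfl h, ?_⟩
    intro x y _ _
    simp [nx, mx, nn_zero, mm_zero, dl]
  | succ m ih =>
    obtain ⟨G, hG, hG1, hid⟩ := ih
    have hdl : ((dl (m + 1) : ℤ) : ℂ) = ((av m : ℤ) : ℂ) * ((bv m : ℤ) : ℂ) * ((dl m : ℤ) : ℂ) := by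
      simp [dl]
    rw [hdl]
    set a : ℂ := ((av m : ℤ) : ℂ) with ha
    set b : ℂ := ((bv m : ℤ) : ℂ) with hb
    set c : ℂ := ((dl m : ℤ) : ℂ) with hc
    refine ⟨fun x y => a * b * ((x + y) ^ 2 - 4) * G x y +
      (a * b * (-((x * y) ^ 2 + 7 * (x * y) + 20 - 4 * (x + y) ^ 2)) *
        (c * ((x + y) ^ 2 - 4) ^ m + (x ^ 2 + x * y + y ^ 2 - 3) * G x y) +
        2 * (a ^ 2 * (mx m x * mx m y) - b ^ 2 * (nx m x * nx m y))) /
        ((x ^ 2 - 4) * (y ^ 2 - 4)), ?_, ?_, ?_⟩
    · have hn : Continuous fun x : ℂ => nx m x := Polynomial.continuous_aeval _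
      have hm : Continuous fun x : ℂ => mx m x := Polynomial.continuous_aeval _
      refine ContinuousAt.add (ContinuousAt.mul (by fun_prop) hG) (ContinuousAt.div ?_ (by fun_prop) ?_)
      · refine ContinuousAt.add (ContinuousAt.mul (by fun_prop)
          (ContinuousAt.add (by fun_prop) (ContinuousAt.mul (by fun_prop) hG))) ?_
        have h1 : Continuous fun p : ℂ × ℂ => mx m p.1 := hm.comp continuous_fst
        have h2 : Continuous fun p : ℂ × ℂ => mx m p.2 := hm.comp continuous_snd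
        have h3 : Continuous fun p : ℂ × ℂ => nx m p.1 := hn.comp continuous_fst
        have h4 : Continuous fun p : ℂ × ℂ => nx m p.2 := hn.comp continuous_snd
        fun_prop
      · norm_num
    · intro _
      simp only [mx_one, nx_one]
      have he : ((ee m : ℤ) : ℂ) ≠ 0 := by exact_mod_cast (ee_mm m).2.ne'
      rcases Nat.eq_zero_or_pos m with h0 | h0
      · have h1 : a = 2 := by rw [ha, h0, av_zero]; norm_num
        have h2 : b = 1 := by rw [hb, h0, bv_zero]; norm_num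
        have h3 : c = 1 := by rw [hc, h0]; simp [dl]
        have h4 : ((ee m : ℤ) : ℂ) = 1 := by rw [h0]; simp [ee, nn_zero]
        rw [h1, h2, h3, h4, h0]
        norm_num
      · have h1 : (((1 : ℂ) + 1) ^ 2 - 4) ^ m = 0 := by
          rw [show ((1 : ℂ) + 1) ^ 2 - 4 = 0 by norm_num]
          exact zero_pow h0.ne'
        rw [h1]
        have h2 : a ^ 2 - b ^ 2 ≠ 0 := by
          have h3 : bv m ^ 2 < av m ^ 2 := by
            have h4 := bv_lt_av m
            have h5 := bv_pos m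
            nlinarith
          have h4 : av m ^ 2 - bv m ^ 2 ≠ 0 := by linarith
          rw [ha, hb]
          exact_mod_cast h4
        have h3 : a * b * (((1 : ℂ) + 1) ^ 2 - 4) * G 1 1 +
            (a * b * (-((1 * 1) ^ 2 + 7 * (1 * 1) + 20 - 4 * (1 + 1) ^ 2)) *
            (c * 0 + (1 ^ 2 + 1 * 1 + 1 ^ 2 - 3) * G 1 1) +
            2 * (a ^ 2 * (((ee m : ℤ) : ℂ) * ((ee m : ℤ) : ℂ)) -
              b ^ 2 * (((ee m : ℤ) : ℂ) * ((ee m : ℤ) : ℂ)))) /
            ((1 ^ 2 - 4) * (1 ^ 2 - 4)) = 2 / 9 * ((a ^ 2 - b ^ 2) * ((ee m : ℤ) : ℂ) ^ 2) := by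
          ring
        rw [h3]
        exact mul_ne_zero (by norm_num) (mul_ne_zero h2 (pow_ne_zero 2 he))
    · intro x y hx hy
      have hx' : x ^ 2 - 4 ≠ 0 := sub_ne_zero.2 hx
      have hy' : y ^ 2 - 4 ≠ 0 := sub_ne_zero.2 hy
      have h := hid x y hx hy
      have hD := mul_ne_zero hx' hy'
      apply mul_left_cancel₀ hD
      have e1 := nx_succ m x
      have e2 := nx_succ m y
      have e3 := mx_succ m x
      have e4 := mx_succ m y
      rw [← ha, ← hb] at e1 e2 e3 e4
      have e5 : (x ^ 2 - 4) * (y ^ 2 - 4) * (nx (m + 1) x * mx (m + 1) y - nx (m + 1) y * mx (m + 1) x)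
          = ((x ^ 2 - 4) * nx (m + 1) x) * ((y ^ 2 - 4) * mx (m + 1) y) -
            ((y ^ 2 - 4) * nx (m + 1) y) * ((x ^ 2 - 4) * mx (m + 1) x) := by ring
      have e6 := mul_div_cancel₀ (a * b * (-((x * y) ^ 2 + 7 * (x * y) + 20 - 4 * (x + y) ^ 2)) *
        (c * ((x + y) ^ 2 - 4) ^ m + (x ^ 2 + x * y + y ^ 2 - 3) * G x y) +
        2 * (a ^ 2 * (mx m x * mx m y) - b ^ 2 * (nx m x * nx m y))) hD
      rw [e5, e1, e2, e3, e4]
      beta_reduce
      generalize (a * b * (-((x * y) ^ 2 + 7 * (x * y) + 20 - 4 * (x + y) ^ 2)) *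
        (c * ((x + y) ^ 2 - 4) ^ m + (x ^ 2 + x * y + y ^ 2 - 3) * G x y) +
        2 * (a ^ 2 * (mx m x * mx m y) - b ^ 2 * (nx m x * nx m y))) /
        ((x ^ 2 - 4) * (y ^ 2 - 4)) = Q at e6 ⊢
      linear_combination (a * b * ((x ^ 3 - 3 * x) * (y ^ 3 - 3 * y) - 4)) * h -
        ((x - y) * (x ^ 2 + x * y + y ^ 2 - 3)) * e6

end complex

end Run7.h565
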