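import Mathlib

/-!
# Definitions: the exponents of root separation
-/

set_option autoImplicit false

namespace Run7.h565

open Polynomial Filter

/-- The distances between two distinct complex roots of the separable integer polynomials of
degree exactly `n`, with all coefficients at most `H` in absolute value, that satisfy `C`. -/
def SepSet (C : ℤ[X] → Prop) (n H : ℕ) : Set ℝ :=
  {d | ∃ P : ℤ[X], P.natDegree = n ∧ (∀ i, |P.coeff i| ≤ H) ∧
    (P.map (algebraMap ℤ ℂ)).Separable ∧ C P ∧
    ∃ α β : ℂ, α ≠ β ∧ aeval α P = 0 ∧ aeval β P = 0 ∧ d = ‖α - β‖}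

/-- The exponent of root separation of the class `C` of polynomials, in degree `n`: the
upper limit, as `H` tends to infinity, of `-log L / log H`, where `L` is the least distance. -/
noncomputable def sepExponent (C : ℤ[X] → Prop) (n : ℕ) : EReal :=
  limsup (fun H : ℕ => ((-Real.log (sInf (SepSet C n H)) / Real.log H : ℝ) : EReal)) atTop

/-- `e n` -/
noncomputable def e (n : ℕ) : EReal := sepExponent (fun _ => True) n

/-- `e^* n`: polynomials irreducible over `ℚ` -/
noncomputable def eStar (n : ℕ) : EReal :=
  sepExponent (fun P => Irreducible (P.map (algebraMap ℤ ℚ))) n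

/-- `e_0 n`: monic polynomials -/
noncomputable def eZero (n : ℕ) : EReal := sepExponent (fun P => P.Monic) n

/-- `e_0^* n`: monic polynomials that are irreducible over `ℚ` -/
noncomputable def eZeroStar (n : ℕ) : EReal :=
  sepExponent (fun P => P.Monic ∧ Irreducible (P.map (algebraMap ℤ ℚ))) n

end Run7.h565
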