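import Pool.Agent.Run7.h565.Basic

/-!
# The two close roots, first family
-/

set_option autoImplicit false

namespace Run7.h565

open Polynomial

/-- the intermediate value theorem on both sides of `1` -/
lemma ivt_pair (U V : ℝ → ℝ) (hU : Continuous U) (hV : Continuous V) (hU1 : 0 < U 1)
    (hV1 : 0 < V 1) :
    ∃ K : ℝ, 0 < K ∧ ∃ A0 : ℝ, 0 < A0 ∧ ∀ A : ℝ, A0 ≤ A → ∃ x y : ℝ,
      1 < x ∧ x ≤ 1 + K / √A ∧ y < 1 ∧ 1 - K / √A ≤ y ∧
      U x = A * (x - 1) ^ 2 * V x ∧ U y = A * (y - 1) ^ 2 * V y := by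
  obtain ⟨δ, hδ, hδ1⟩ : ∃ δ : ℝ, 0 < δ ∧ ∀ x : ℝ, |x - 1| ≤ δ → U x < 2 * U 1 ∧ V 1 / 2 < V x := by
    have h1 : ∀ᶠ x in nhds (1 : ℝ), U x < 2 * U 1 :=
      hU.continuousAt.eventually_lt continuousAt_const (by linarith)
    have h2 : ∀ᶠ x in nhds (1 : ℝ), V 1 / 2 < V x :=
      continuousAt_const.eventually_lt hV.continuousAt (by linarith)
    obtain ⟨ε, hε, h⟩ := Metric.eventually_nhds_iff.1 (h1.and h2)
    refine ⟨ε / 2, by positivity, fun x hx => h ?_⟩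
    rw [Real.dist_eq]
    linarith
  set K := √(4 * U 1 / V 1) with hK
  have hKpos : 0 < K := Real.sqrt_pos.2 (by positivity)
  have hK2 : K ^ 2 = 4 * U 1 / V 1 := Real.sq_sqrt (by positivity)
  refine ⟨K, hKpos, max 1 ((K / δ) ^ 2), by positivity, fun A hA => ?_⟩
  have hA1 : 1 ≤ A := (le_max_left _ _).trans hA
  have hA2 : (K / δ) ^ 2 ≤ A := (le_max_right _ _).trans hA
  have hApos : 0 < A := by linarith
  have hsA : 0 < √A := Real.sqrt_pos.2 hApos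
  have hr : 0 < K / √A := by positivity
  have hrδ : K / √A ≤ δ := by
    rw [div_le_iff₀ hsA]
    have : K / δ ≤ √A := Real.le_sqrt_of_sq_le hA2
    rwa [div_le_iff₀ hδ, mul_comm] at this
  have hr2 : A * (K / √A) ^ 2 = 4 * U 1 / V 1 := by
    rw [div_pow, Real.sq_sqrt hApos.le, hK2]
    field_simp
  have hneg : ∀ x : ℝ, (x - 1) ^ 2 = (K / √A) ^ 2 → U x - A * (x - 1) ^ 2 * V x < 0 := by
    intro x hx
    have habs : |x - 1| ≤ δ := by
      have h1 : |x - 1| = K / √A := by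
        rw [← abs_of_pos hr]
        exact sq_eq_sq_iff_abs_eq_abs _ _ |>.1 hx
      rw [h1]; exact hrδ
    obtain ⟨h1, h2⟩ := hδ1 x habs
    rw [hx, hr2]
    have : 4 * U 1 / V 1 * (V 1 / 2) = 2 * U 1 := by field_simp; ring
    have h3 : 4 * U 1 / V 1 * (V 1 / 2) < 4 * U 1 / V 1 * V x :=
      mul_lt_mul_of_pos_left h2 (by positivity)
    linarith
  have hcont : Continuous fun x : ℝ => U x - A * (x - 1) ^ 2 * V x := by fun_prop
  have hpos : 0 < (fun x : ℝ => U x - A * (x - 1) ^ 2 * V x) 1 := by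
    simp only [sub_self, ne_eq, OfNat.ofNat_ne_zero, not_false_eq_true, zero_pow, mul_zero,
      zero_mul, sub_zero]
    exact hU1
  have h1 := intermediate_value_Ioo' (show (1 : ℝ) ≤ 1 + K / √A by linarith)
    hcont.continuousOn
  have h2 := intermediate_value_Ioo (show 1 - K / √A ≤ (1 : ℝ) by linarith)
    hcont.continuousOn
  obtain ⟨x, ⟨hx1, hx2⟩, hx3⟩ := h1 ⟨hneg _ (by ring), hpos⟩
  obtain ⟨y, ⟨hy1, hy2⟩, hy3⟩ := h2 ⟨hneg _ (by ring), hpos⟩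
  refine ⟨x, y, hx1, hx2.le, hy2, hy1.le, ?_, ?_⟩
  · simp only at hx3; linarith
  · simp only at hy3; linarith

lemma est1 (M : ℕ) (hM : 1 ≤ M) : ∃ C1 : ℝ, 0 < C1 ∧ ∃ A0 : ℝ, 0 < A0 ∧ ∃ κ : ℤ,
    (κ = 1 ∨ κ = -1) ∧ ∀ A : ℝ, A0 ≤ A → ∃ x y : ℝ,
      aeval x (θ (M + 1)) = κ * A * ((x - 1) ^ 2 * aeval x (θ M)) ∧
      aeval y (θ (M + 1)) = κ * A * ((y - 1) ^ 2 * aeval y (θ M)) ∧
      x ^ 3 - 2 * x ^ 2 + x ≠ y ^ 3 - 2 * y ^ 2 + y ∧
      |(x ^ 3 - 2 * x ^ 2 + x) - (y ^ 3 - 2 * y ^ 2 + y)| ≤ C1 * A ^ (-((M : ℝ) + 3 / 2)) := by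
  obtain ⟨c, G, hc, hG, hG1, hid⟩ := key1 M
  have hG1 := hG1 hM
  set N1 : ℝ := aeval (1 : ℝ) (θ (M + 1)) with hN1
  set T1 : ℝ := aeval (1 : ℝ) (θ M) with hT1
  have hN1' : N1 ≠ 0 := θ_ev_one_ne (K := ℝ) (M + 1)
  have hT1' : T1 ≠ 0 := θ_ev_one_ne (K := ℝ) M
  obtain ⟨κ, hκ, hκpos⟩ : ∃ κ : ℤ, (κ = 1 ∨ κ = -1) ∧ 0 < (κ : ℝ) * N1 * T1 := by
    rcases lt_or_gt_of_ne (mul_ne_zero hN1' hT1') with h | h
    · exact ⟨-1, Or.inr rfl, by push_cast; linarith⟩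
    · exact ⟨1, Or.inl rfl, by push_cast; linarith⟩
  have hcθ : ∀ j, Continuous fun x : ℝ => aeval x (θ j) := fun j => Polynomial.continuous_aeval _
  obtain ⟨K, hK, A0, hA0, hroots⟩ := ivt_pair (fun x => N1 * aeval x (θ (M + 1)))
    (fun x => (κ : ℝ) * N1 * aeval x (θ M)) (continuous_const.mul (hcθ _))
    (continuous_const.mul (hcθ _)) (mul_self_pos.2 hN1') hκpos
  -- lower bound for `G`
  obtain ⟨g, hg, δ, hδ, hGb⟩ : ∃ g : ℝ, 0 < g ∧ ∃ δ : ℝ, 0 < δ ∧ ∀ x y : ℝ, |x - 1| ≤ δ →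
      |y - 1| ≤ δ → g ≤ |G x y| := by
    have hga : 0 < |G 1 1| := abs_pos.2 hG1
    have h1 : ∀ᶠ p in nhds ((1 : ℝ), (1 : ℝ)), |G 1 1| / 2 < |G p.1 p.2| :=
      continuousAt_const.eventually_lt hG.abs (by simp only; linarith)
    obtain ⟨ε, hε, h⟩ := Metric.eventually_nhds_iff.1 h1
    refine ⟨|G 1 1| / 2, by positivity, ε / 2, by positivity, fun x y hx hy => ?_⟩
    refine (h (y := (x, y)) ?_).le
    rw [Prod.dist_eq, max_lt_iff, Real.dist_eq, Real.dist_eq]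
    constructor <;> simp only <;> linarith
  set c' : ℝ := |c| / g with hc'
  have hc'pos : 0 < c' := div_pos (abs_pos.2 hc) hg
  refine ⟨2 * K * (c' * (6 * K ^ 2) ^ (M + 1)), by positivity,
    max A0 (max ((K / δ) ^ 2) (max ((2 * K) ^ 2) ((4 * K * c') ^ 2))), by positivity, κ, hκ,
    fun A hA => ?_⟩
  have hA0' : A0 ≤ A := (le_max_left _ _).trans hA
  have hA1 : (K / δ) ^ 2 ≤ A := ((le_max_left _ _).trans (le_max_right _ _)).trans hA
  have hA2 : (2 * K) ^ 2 ≤ A :=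
    ((le_max_left _ _).trans ((le_max_right _ _).trans (le_max_right _ _))).trans hA
  have hA3 : (4 * K * c') ^ 2 ≤ A :=
    ((le_max_right _ _).trans ((le_max_right _ _).trans (le_max_right _ _))).trans hA
  have hApos : 0 < A := by linarith
  have hsA : 0 < √A := Real.sqrt_pos.2 hApos
  have hs2 : √A ^ 2 = A := Real.sq_sqrt hApos.le
  set r := K / √A with hr
  have hrpos : 0 < r := by positivity
  have hrδ : r ≤ δ := by
    rw [hr, div_le_iff₀ hsA]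
    have : K / δ ≤ √A := Real.le_sqrt_of_sq_le hA1
    rwa [div_le_iff₀ hδ, mul_comm] at this
  have hr1 : 2 * r ≤ 1 := by
    have : 2 * K ≤ √A := Real.le_sqrt_of_sq_le hA2
    rw [hr, ← mul_div_assoc, div_le_one hsA]; exact this
  have hr2 : 4 * c' * r ≤ 1 := by
    have : 4 * K * c' ≤ √A := Real.le_sqrt_of_sq_le hA3
    rw [hr, ← mul_div_assoc, div_le_one hsA]; linarith
  have hrr : r ^ 2 = K ^ 2 / A := by rw [hr, div_pow, hs2]
  obtain ⟨x, y, hx1, hx2, hy1, hy2, hxe, hye⟩ := hroots A hA0'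
  have hxe' : aeval x (θ (M + 1)) = κ * A * ((x - 1) ^ 2 * aeval x (θ M)) := by
    apply mul_left_cancel₀ hN1'
    rw [hxe]; ring
  have hye' : aeval y (θ (M + 1)) = κ * A * ((y - 1) ^ 2 * aeval y (θ M)) := by
    apply mul_left_cancel₀ hN1'
    rw [hye]; ring
  have hB : B M x y = 0 := by
    unfold B
    rw [hxe', hye']
    ring
  rw [hid x y (by linarith)] at hB
  have hxy : x - y ≠ 0 := by intro h; linarith
  have hB' := (mul_eq_zero.1 hB).resolve_left hxy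
  set z := 2 - x - y with hz
  set k := x ^ 2 + x * y + y ^ 2 - 2 * (x + y) + 1 with hk
  have hxa : |x - 1| ≤ r := by rw [abs_le]; constructor <;> linarith
  have hya : |y - 1| ≤ r := by rw [abs_le]; constructor <;> linarith
  have hGxy := hGb x y (hxa.trans hrδ) (hya.trans hrδ)
  have hkz : |k| ≤ c' * |z| ^ (M + 1) := by
    have h1 : k * G x y = -(c * z ^ (M + 1)) := by linarith
    have h2 : |k| * |G x y| = |c| * |z| ^ (M + 1) := by
      rw [← abs_mul, h1, abs_neg, abs_mul, abs_pow]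
    rw [hc', div_mul_eq_mul_div, le_div_iff₀ hg, ← h2]
    exact mul_le_mul_of_nonneg_left hGxy (abs_nonneg _)
  have hzr : |z| ≤ 2 * r := by
    rw [abs_le] at hxa hya ⊢
    constructor <;> linarith [hxa.1, hxa.2, hya.1, hya.2]
  have hquad : |(x - 1) ^ 2 + (x - 1) * (y - 1) + (y - 1) ^ 2| ≤ 3 * r ^ 2 := by
    have h1 : |(x - 1) ^ 2| ≤ r ^ 2 := by
      rw [abs_pow]; exact pow_le_pow_left₀ (abs_nonneg _) hxa 2
    have h2 : |(y - 1) ^ 2| ≤ r ^ 2 := by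
      rw [abs_pow]; exact pow_le_pow_left₀ (abs_nonneg _) hya 2
    have h3 : |(x - 1) * (y - 1)| ≤ r ^ 2 := by
      rw [abs_mul, sq]; exact mul_le_mul hxa hya (abs_nonneg _) hrpos.le
    have h4 := abs_add_le ((x - 1) ^ 2 + (x - 1) * (y - 1)) ((y - 1) ^ 2)
    have h5 := abs_add_le ((x - 1) ^ 2) ((x - 1) * (y - 1))
    linarith
  have hzk : |z| ≤ |k| + 3 * r ^ 2 := by
    have : z = -k + ((x - 1) ^ 2 + (x - 1) * (y - 1) + (y - 1) ^ 2) := by rw [hz, hk]; ring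
    rw [this]
    have h1 := abs_add_le (-k) ((x - 1) ^ 2 + (x - 1) * (y - 1) + (y - 1) ^ 2)
    rw [abs_neg] at h1
    linarith
  have hsmall : c' * |z| ^ (M + 1) ≤ |z| / 2 := by
    have h1 : |z| ^ M ≤ 2 * r := by
      calc |z| ^ M ≤ |z| ^ 1 := pow_le_pow_of_le_one (abs_nonneg _) (hzr.trans hr1) hM
        _ = |z| := pow_one _
        _ ≤ 2 * r := hzr
    have h2 : c' * |z| ^ M ≤ 1 / 2 := by
      calc c' * |z| ^ M ≤ c' * (2 * r) := mul_le_mul_of_nonneg_left h1 hc'pos.le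
        _ ≤ 1 / 2 := by linarith
    calc c' * |z| ^ (M + 1) = (c' * |z| ^ M) * |z| := by ring
      _ ≤ 1 / 2 * |z| := mul_le_mul_of_nonneg_right h2 (abs_nonneg _)
      _ = |z| / 2 := by ring
  have hz6 : |z| ≤ 6 * K ^ 2 / A := by
    have : |z| ≤ 6 * r ^ 2 := by linarith
    rw [hrr] at this
    rwa [mul_div_assoc]
  have hkfin : |k| ≤ c' * (6 * K ^ 2) ^ (M + 1) / A ^ (M + 1) := by
    calc |k| ≤ c' * |z| ^ (M + 1) := hkz
      _ ≤ c' * (6 * K ^ 2 / A) ^ (M + 1) := by gcongr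
      _ = _ := by rw [div_pow, mul_div_assoc]
  have hfact : (x ^ 3 - 2 * x ^ 2 + x) - (y ^ 3 - 2 * y ^ 2 + y) = (x - y) * k := by
    rw [hk]; ring
  have hk0 : k ≠ 0 := by
    intro hk0
    rw [hk0, zero_mul, add_zero] at hB'
    have hz0 : z = 0 := by
      have := (mul_eq_zero.1 hB').resolve_left hc
      exact pow_eq_zero_iff (Nat.succ_ne_zero M) |>.1 this
    have : (x - 1) ^ 2 + (x - 1) * (y - 1) + (y - 1) ^ 2 = 0 := by
      have h2 : z = -k + ((x - 1) ^ 2 + (x - 1) * (y - 1) + (y - 1) ^ 2) := by rw [hz, hk]; ring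
      rw [hk0, hz0] at h2
      linarith
    nlinarith [sq_nonneg ((x - 1) + 2 * (y - 1)), sq_pos_of_pos (sub_pos.2 hx1)]
  refine ⟨x, y, hxe', hye', ?_, ?_⟩
  · intro h
    have : (x - y) * k = 0 := by rw [← hfact, h, sub_self]
    exact (mul_ne_zero hxy hk0) this
  · rw [hfact, abs_mul]
    have hxyr : |x - y| ≤ 2 * r := by
      have : x - y = (x - 1) - (y - 1) := by ring
      rw [this]
      exact (abs_sub _ _).trans (by linarith)
    have e1 : A ^ (-((M : ℝ) + 3 / 2)) = 1 / A ^ (M + 1) * (1 / √A) := by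
      rw [Real.sqrt_eq_rpow, ← Real.rpow_natCast, one_div, one_div, ← Real.rpow_neg hApos.le,
        ← Real.rpow_neg hApos.le, ← Real.rpow_add hApos]
      congr 1
      push_cast
      ring
    rw [e1]
    calc |x - y| * |k| ≤ (2 * r) * (c' * (6 * K ^ 2) ^ (M + 1) / A ^ (M + 1)) :=
          mul_le_mul hxyr hkfin (abs_nonneg _) (by positivity)
      _ = 2 * K * (c' * (6 * K ^ 2) ^ (M + 1)) * (1 / A ^ (M + 1) * (1 / √A)) := by
          rw [hr]; ring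

end Run7.h565
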