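import Pool.Agent.Run7.h565.Basic

/-!
# The two close roots, second family
-/

set_option autoImplicit false

namespace Run7.h565

open Polynomial

lemma ivt_one_aux (U V : ℝ → ℝ) (x0 : ℝ) (hU : Continuous U) (hV : Continuous V)
    (hV0 : 0 < V x0) :
    ∃ K : ℝ, 0 < K ∧ ∃ A0 : ℝ, 0 < A0 ∧ ∀ A : ℝ, A0 ≤ A → ∃ x : ℝ,
      |x - x0| ≤ K / A ∧ U x = A * (x - x0) * V x := by
  obtain ⟨δ, hδ, hδ1⟩ : ∃ δ : ℝ, 0 < δ ∧ ∀ x : ℝ, |x - x0| ≤ δ →
      |U x| < |U x0| + 1 ∧ V x0 / 2 < V x := by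
    have h1 : ∀ᶠ x in nhds x0, |U x| < |U x0| + 1 :=
      hU.abs.continuousAt.eventually_lt continuousAt_const (by linarith)
    have h2 : ∀ᶠ x in nhds x0, V x0 / 2 < V x :=
      continuousAt_const.eventually_lt hV.continuousAt (by linarith)
    obtain ⟨ε, hε, h⟩ := Metric.eventually_nhds_iff.1 (h1.and h2)
    refine ⟨ε / 2, by positivity, fun x hx => h ?_⟩
    rw [Real.dist_eq]
    linarith
  set K := (|U x0| + 1) / (V x0 / 2) with hK
  have hKpos : 0 < K := by positivity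
  have hKV : K * (V x0 / 2) = |U x0| + 1 := by rw [hK]; field_simp
  refine ⟨K, hKpos, K / δ, by positivity, fun A hA => ?_⟩
  have hApos : 0 < A := lt_of_lt_of_le (by positivity) hA
  have hr : 0 < K / A := by positivity
  have hrδ : K / A ≤ δ := by
    rw [div_le_iff₀ hApos]
    rwa [div_le_iff₀ hδ, mul_comm] at hA
  have hcont : Continuous fun x : ℝ => U x - A * (x - x0) * V x := by fun_prop
  have hneg : U (x0 + K / A) - A * (x0 + K / A - x0) * V (x0 + K / A) ≤ 0 := by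
    obtain ⟨h1, h2⟩ := hδ1 (x0 + K / A) (by
      rw [add_sub_cancel_left, abs_of_pos hr]; exact hrδ)
    have h3 : A * (x0 + K / A - x0) = K := by field_simp; ring
    rw [h3]
    have h4 := (abs_lt.1 h1).2
    nlinarith
  have hpos : 0 ≤ U (x0 - K / A) - A * (x0 - K / A - x0) * V (x0 - K / A) := by
    obtain ⟨h1, h2⟩ := hδ1 (x0 - K / A) (by
      rw [sub_sub_cancel_left, abs_neg, abs_of_pos hr]; exact hrδ)
    have h3 : A * (x0 - K / A - x0) = -K := by field_simp; ring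
    rw [h3]
    have h4 := (abs_lt.1 h1).1
    nlinarith
  have h1 := intermediate_value_Icc' (show x0 - K / A ≤ x0 + K / A by linarith)
    hcont.continuousOn
  obtain ⟨x, ⟨hx1, hx2⟩, hx3⟩ := h1 ⟨hneg, hpos⟩
  refine ⟨x, ?_, ?_⟩
  · rw [abs_le]; constructor <;> linarith
  · simp only at hx3; linarith

lemma ivt_one (U V : ℝ → ℝ) (x0 : ℝ) (hU : Continuous U) (hV : Continuous V)
    (hV0 : V x0 ≠ 0) :
    ∃ K : ℝ, 0 < K ∧ ∃ A0 : ℝ, 0 < A0 ∧ ∀ A : ℝ, A0 ≤ A → ∃ x : ℝ,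
      |x - x0| ≤ K / A ∧ U x = A * (x - x0) * V x := by
  rcases lt_or_gt_of_ne hV0 with h | h
  · obtain ⟨K, hK, A0, hA0, hh⟩ := ivt_one_aux (fun x => -U x) (fun x => -V x) x0 hU.neg hV.neg
      (by simpa using h)
    refine ⟨K, hK, A0, hA0, fun A hA => ?_⟩
    obtain ⟨x, hx, hx2⟩ := hh A hA
    exact ⟨x, hx, by linarith⟩
  · exact ivt_one_aux U V x0 hU hV h

lemma est2 (M : ℕ) : ∃ C1 : ℝ, 0 < C1 ∧ ∃ A0 : ℝ, 0 < A0 ∧
    ∀ A : ℝ, A0 ≤ A → ∃ x y : ℝ,
      x * aeval (x ^ 2) (θ (M + 1)) = A * ((x ^ 2 - 1) * aeval (x ^ 2) (θ M)) ∧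
      y * aeval (y ^ 2) (θ (M + 1)) = A * ((y ^ 2 - 1) * aeval (y ^ 2) (θ M)) ∧
      x ^ 3 - x ≠ y ^ 3 - y ∧
      |(x ^ 3 - x) - (y ^ 3 - y)| ≤ C1 * A ^ (-(2 * (M : ℝ) + 2)) := by
  obtain ⟨c, G, hc, hG, hG1, hid⟩ := key2 M
  have hN1' : aeval (1 : ℝ) (θ (M + 1)) ≠ 0 := θ_ev_one_ne (K := ℝ) (M + 1)
  have hT1' : aeval (1 : ℝ) (θ M) ≠ 0 := θ_ev_one_ne (K := ℝ) M
  have hcθ : ∀ j, Continuous fun x : ℝ => aeval (x ^ 2) (θ j) := fun j =>
    (Polynomial.continuous_aeval (θ j)).comp (continuous_pow 2)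
  obtain ⟨K1, hK1, A1, hA1, hr1⟩ := ivt_one (fun x => x * aeval (x ^ 2) (θ (M + 1)))
    (fun x => (x + 1) * aeval (x ^ 2) (θ M)) 1 (continuous_id.mul (hcθ _))
    ((continuous_id.add continuous_const).mul (hcθ _)) (by
      simp only [one_pow]
      exact mul_ne_zero (by norm_num) hT1')
  obtain ⟨K2, hK2, A2, hA2, hr2⟩ := ivt_one (fun x => x * aeval (x ^ 2) (θ (M + 1)))
    (fun x => (x - 1) * aeval (x ^ 2) (θ M)) (-1) (continuous_id.mul (hcθ _))
    ((continuous_id.sub continuous_const).mul (hcθ _)) (by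
      simp only [neg_one_sq]
      exact mul_ne_zero (by norm_num) hT1')
  -- lower bound for `G`
  obtain ⟨g, hg, δ, hδ, hGb⟩ : ∃ g : ℝ, 0 < g ∧ ∃ δ : ℝ, 0 < δ ∧ ∀ x y : ℝ, |x - 1| ≤ δ →
      |y - -1| ≤ δ → g ≤ |G x y| := by
    have hga : 0 < |G 1 (-1)| := abs_pos.2 hG1
    have h1 : ∀ᶠ p in nhds ((1 : ℝ), (-1 : ℝ)), |G 1 (-1)| / 2 < |G p.1 p.2| :=
      continuousAt_const.eventually_lt hG.abs (by simp only; linarith)
    obtain ⟨ε, hε, h⟩ := Metric.eventually_nhds_iff.1 h1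
    refine ⟨|G 1 (-1)| / 2, by positivity, ε / 2, by positivity, fun x y hx hy => ?_⟩
    refine (h (y := (x, y)) ?_).le
    rw [Prod.dist_eq, max_lt_iff, Real.dist_eq, Real.dist_eq]
    constructor <;> simp only <;> linarith
  set c' : ℝ := |c| / g with hc'
  have hc'pos : 0 < c' := div_pos (abs_pos.2 hc) hg
  set K := K1 + K2 with hK
  have hKpos : 0 < K := by positivity
  refine ⟨3 * (c' * K ^ (2 * M + 2)), by positivity,
    max A1 (max A2 (max (K / δ) (2 * K))), by positivity, fun A hA => ?_⟩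
  have hA1' : A1 ≤ A := (le_max_left _ _).trans hA
  have hA2' : A2 ≤ A := ((le_max_left _ _).trans (le_max_right _ _)).trans hA
  have hA3 : K / δ ≤ A :=
    ((le_max_left _ _).trans ((le_max_right _ _).trans (le_max_right _ _))).trans hA
  have hA4 : 2 * K ≤ A :=
    ((le_max_right _ _).trans ((le_max_right _ _).trans (le_max_right _ _))).trans hA
  have hApos : 0 < A := by linarith
  have hr12 : K1 / A + K2 / A = K / A := by rw [hK]; ring
  have hp1 : 0 < K1 / A := by positivity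
  have hp2 : 0 < K2 / A := by positivity
  have hrδ : K / A ≤ δ := by
    rw [div_le_iff₀ hApos]
    rwa [div_le_iff₀ hδ, mul_comm] at hA3
  have hr1' : K / A ≤ 1 / 2 := by
    rw [div_le_iff₀ hApos]; linarith
  obtain ⟨x, hxa, hxe⟩ := hr1 A hA1'
  obtain ⟨y, hya, hye⟩ := hr2 A hA2'
  have hxe' : x * aeval (x ^ 2) (θ (M + 1)) = A * ((x ^ 2 - 1) * aeval (x ^ 2) (θ M)) := by
    rw [hxe]; ring
  have hye' : y * aeval (y ^ 2) (θ (M + 1)) = A * ((y ^ 2 - 1) * aeval (y ^ 2) (θ M)) := by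
    rw [hye]; ring
  have hx1 := abs_le.1 hxa
  have hy1 := abs_le.1 hya
  have hB : B2 M x y = 0 := by
    unfold B2
    rw [hxe', hye']
    ring
  have hx0 : x ≠ 0 := by intro h; rw [h] at hx1; linarith [hx1.1]
  have hy0 : y ≠ 0 := by intro h; rw [h] at hy1; linarith [hy1.2]
  rw [hid x y hx0 hy0] at hB
  have hxy : x - y ≠ 0 := by intro h; linarith [hx1.1, hy1.2]
  have hB' := (mul_eq_zero.1 hB).resolve_left hxy
  set k := x ^ 2 + x * y + y ^ 2 - 1 with hk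
  have hGxy := hGb x y (by linarith) (by linarith)
  have hkz : |k| ≤ c' * |x + y| ^ (2 * M + 2) := by
    have h1 : k * G x y = -(c * (x + y) ^ (2 * M + 2)) := by linarith
    have h2 : |k| * |G x y| = |c| * |x + y| ^ (2 * M + 2) := by
      rw [← abs_mul, h1, abs_neg, abs_mul, abs_pow]
    rw [hc', div_mul_eq_mul_div, le_div_iff₀ hg, ← h2]
    exact mul_le_mul_of_nonneg_left hGxy (abs_nonneg _)
  have hz : |x + y| ≤ K / A := by
    rw [abs_le]; constructor <;> linarith [hx1.1, hx1.2, hy1.1, hy1.2]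
  have hkfin : |k| ≤ c' * K ^ (2 * M + 2) / A ^ (2 * M + 2) := by
    calc |k| ≤ c' * |x + y| ^ (2 * M + 2) := hkz
      _ ≤ c' * (K / A) ^ (2 * M + 2) := by gcongr
      _ = _ := by rw [div_pow, mul_div_assoc]
  have hfact : (x ^ 3 - x) - (y ^ 3 - y) = (x - y) * k := by
    rw [hk]; ring
  have hk0 : k ≠ 0 := by
    intro hk0
    rw [hk0, zero_mul, add_zero] at hB'
    have hz0 : x + y = 0 := by
      have := (mul_eq_zero.1 hB').resolve_left hc
      exact pow_eq_zero_iff (Nat.succ_ne_zero _) |>.1 this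
    have hyx : y = -x := by linarith
    have hxx : (x - 1) * (x + 1) = 0 := by
      rw [hyx] at hk
      have : k = x ^ 2 - 1 := by rw [hk]; ring
      rw [hk0] at this
      linarith
    have hx1' : x = 1 := by
      rcases mul_eq_zero.1 hxx with h | h
      · linarith
      · exfalso; linarith [hx1.1]
    rw [hx1'] at hxe'
    apply hN1'
    simpa using hxe'
  refine ⟨x, y, hxe', hye', ?_, ?_⟩
  · intro h
    have : (x - y) * k = 0 := by rw [← hfact, h, sub_self]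
    exact (mul_ne_zero hxy hk0) this
  · rw [hfact, abs_mul]
    have hxyr : |x - y| ≤ 3 := by
      rw [abs_le]; constructor <;> linarith [hx1.1, hx1.2, hy1.1, hy1.2]
    have e1 : A ^ (-(2 * (M : ℝ) + 2)) = 1 / A ^ (2 * M + 2) := by
      rw [← Real.rpow_natCast, one_div, ← Real.rpow_neg hApos.le]
      congr 1
      push_cast
      ring
    rw [e1]
    calc |x - y| * |k| ≤ 3 * (c' * K ^ (2 * M + 2) / A ^ (2 * M + 2)) :=
          mul_le_mul hxyr hkfin (abs_nonneg _) (by norm_num)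
      _ = _ := by ring

end Run7.h565
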