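import Pool.Agent.Run7.h565.Cheb2

/-!
# The pair of close roots, second family
-/

set_option autoImplicit false

namespace Run7.h565

open Polynomial ComplexConjugate

lemma prod_norm_ge (s : Multiset ℂ) (w : ℂ) (ε : ℝ) (hε : 0 ≤ ε) (h : ∀ z ∈ s, ε ≤ ‖w - z‖) :
    ε ^ (Multiset.card s) ≤ ‖(s.map fun z => w - z).prod‖ := by
  induction s using Multiset.induction_on with
  | empty => simp
  | cons a s ih =>
    have ih' := ih (fun z hz => h z (Multiset.mem_cons_of_mem hz))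
    have ha := h a (Multiset.mem_cons_self a s)
    rw [Multiset.map_cons, Multiset.prod_cons, Multiset.card_cons, norm_mul, pow_succ, mul_comm]
    exact mul_le_mul ha ih' (by positivity) (norm_nonneg _)

lemma prod_norm_le (s : Multiset ℂ) (w : ℂ) (R : ℝ) (hR : 0 ≤ R) (h : ∀ z ∈ s, ‖w - z‖ ≤ R) :
    ‖(s.map fun z => w - z).prod‖ ≤ R ^ (Multiset.card s) := by
  induction s using Multiset.induction_on with
  | empty => simp
  | cons a s ih =>
    have ih' := ih (fun z hz => h z (Multiset.mem_cons_of_mem hz))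
    have ha := h a (Multiset.mem_cons_self a s)
    rw [Multiset.map_cons, Multiset.prod_cons, Multiset.card_cons, norm_mul, pow_succ, mul_comm]
    exact mul_le_mul ih' ha (norm_nonneg _) (by positivity)

lemma eval_eq_prod (Q : ℂ[X]) (w : ℂ) :
    Q.eval w = Q.leadingCoeff * (Q.roots.map fun z => w - z).prod := by
  have hsp : Q.Splits := IsAlgClosed.splits _
  have h := congrArg (eval w) hsp.eq_prod_roots
  rw [eval_mul, eval_C, eval_multiset_prod, Multiset.map_map] at h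
  rw [h]
  congr 2
  apply Multiset.map_congr rfl
  intro z _
  simp

lemma card_roots_eq (Q : ℂ[X]) : Multiset.card Q.roots = Q.natDegree := by
  have hsp : Q.Splits := IsAlgClosed.splits _
  exact hsp.natDegree_eq_card_roots.symm

/-- a root near a point where the value is small -/
lemma exists_root_near (Q : ℂ[X]) (hQ : Q ≠ 0) (w : ℂ) (ε : ℝ) (hε : 0 < ε)
    (h : ‖Q.eval w‖ < ‖Q.leadingCoeff‖ * ε ^ Q.natDegree) : ∃ z : ℂ, Q.eval z = 0 ∧ ‖w - z‖ < ε := by
  by_contra hcon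
  push Not at hcon
  have h1 := prod_norm_ge Q.roots w ε hε.le (fun z hz => hcon z (by
    have := (mem_roots'.1 hz).2
    exact this))
  rw [eval_eq_prod, norm_mul, ← card_roots_eq] at h
  have h2 : 0 < ‖Q.leadingCoeff‖ := norm_pos_iff.2 (leadingCoeff_ne_zero.2 hQ)
  have h3 := mul_le_mul_of_nonneg_left h1 h2.le
  linarith

lemma eval_le_of_roots (Q : ℂ[X]) (w : ℂ) (R : ℝ) (hR : 0 ≤ R)
    (h : ∀ z : ℂ, Q.IsRoot z → ‖w - z‖ ≤ R) : ‖Q.eval w‖ ≤ ‖Q.leadingCoeff‖ * R ^ Q.natDegree := by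
  rw [eval_eq_prod, norm_mul, ← card_roots_eq]
  refine mul_le_mul_of_nonneg_left (prod_norm_le _ _ _ hR (fun z hz => ?_)) (norm_nonneg _)
  exact h z (mem_roots'.1 hz).2

lemma aeval_conj_int (P : ℤ[X]) (x : ℂ) : aeval (conj x) P = conj (aeval x P) := by
  have h := Polynomial.aeval_algHom_apply ((starRingEnd ℂ : ℂ →+* ℂ).toIntAlgHom) x P
  exact h

lemma nx_conj (m : ℕ) (x : ℂ) : nx m (conj x) = conj (nx m x) := aeval_conj_int _ x
lemma mx_conj (m : ℕ) (x : ℂ) : mx m (conj x) = conj (mx m x) := aeval_conj_int _ x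

/-- leading coefficient of `nn (m + 1)` as a complex polynomial family -/
lemma Qfam (m : ℕ) (A b : ℝ) (hA : A ≠ 0) :
    (C ((√2 * A : ℝ) : ℂ) * (nn (m + 1)).map (algebraMap ℤ ℂ) -
      C (b : ℂ) * (mm (m + 1)).map (algebraMap ℤ ℂ)).natDegree = m + 2 ∧
    (C ((√2 * A : ℝ) : ℂ) * (nn (m + 1)).map (algebraMap ℤ ℂ) -
      C (b : ℂ) * (mm (m + 1)).map (algebraMap ℤ ℂ)).leadingCoeff =
      ((√2 * A : ℝ) : ℂ) * ((nn (m + 1)).leadingCoeff : ℂ) := by
  have hinj := RingHom.injective_int (algebraMap ℤ ℂ)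
  have hc : ((√2 * A : ℝ) : ℂ) ≠ 0 := by
    have : √2 * A ≠ 0 := mul_ne_zero (by positivity) hA
    exact_mod_cast this
  have h1 : (C ((√2 * A : ℝ) : ℂ) * (nn (m + 1)).map (algebraMap ℤ ℂ)).natDegree = m + 2 := by
    rw [natDegree_C_mul hc, natDegree_map_eq_of_injective hinj, (deg_nm (m + 1)).1]
  have h2 : (C (b : ℂ) * (mm (m + 1)).map (algebraMap ℤ ℂ)).natDegree <
      (C ((√2 * A : ℝ) : ℂ) * (nn (m + 1)).map (algebraMap ℤ ℂ)).natDegree := by
    rw [h1]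
    refine (natDegree_C_mul_le _ _).trans_lt ?_
    rw [natDegree_map_eq_of_injective hinj, (deg_nm (m + 1)).2]
    omega
  constructor
  · rw [natDegree_sub_eq_left_of_natDegree_lt h2, h1]
  · rw [leadingCoeff_sub_of_degree_lt (degree_lt_degree h2), leadingCoeff_mul, leadingCoeff_C,
      leadingCoeff_map_of_injective hinj]
    rfl

lemma est3 (m : ℕ) (hm : 1 ≤ m) : ∃ K : ℝ, 0 < K ∧ ∃ A0 : ℝ, 0 < A0 ∧ ∀ A b : ℝ, A0 ≤ A →
    0 < b → b ^ 2 + 1 = 2 * A ^ 2 → ∃ x : ℂ, x.im ≠ 0 ∧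
      ((√2 * A : ℝ) : ℂ) * nx (m + 1) x = (b : ℂ) * mx (m + 1) x ∧ ‖x - 1‖ ≤ K / A ∧
      x ^ 3 - 3 * x ≠ (conj x) ^ 3 - 3 * conj x ∧
      ‖(x ^ 3 - 3 * x) - ((conj x) ^ 3 - 3 * conj x)‖ ≤ K / A ^ (2 * m + 3) := by
  obtain ⟨D, hD1, hD2, hD3⟩ := exists_dd m
  obtain ⟨G, hG, hG1, hid⟩ := key3 (m + 1)
  have hG1 := hG1 (Nat.succ_ne_zero m)
  set dx : ℂ → ℂ := fun x => aeval x D with hdx
  have hdx1 : dx 1 = ((D.eval 1 : ℤ) : ℂ) := by
    have := aeval_int D 1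
    simpa [hdx] using this
  set e : ℝ := ((ee (m + 1) : ℤ) : ℝ) with he
  have hepos : 0 < e := by rw [he]; exact_mod_cast (ee_mm (m + 1)).2
  set d : ℝ := ((D.eval 1 : ℤ) : ℝ) with hd
  have hdpos : 0 < d := by rw [hd]; exact_mod_cast hD3
  have hnxe : nx (m + 1) 1 = (e : ℂ) := by rw [nx_one, he]; push_cast; rfl
  have hmxe : mx (m + 1) 1 = (e : ℂ) := by rw [mx_one, he]; push_cast; rfl
  have hdxd : dx 1 = (d : ℂ) := by rw [hdx1, hd]; push_cast; rfl
  have hsplit : ∀ x : ℂ, nx (m + 1) x - mx (m + 1) x = (x - 1) ^ 2 * dx x := by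
    intro x
    have := congrArg (aeval x) hD2
    simpa [nx, mx, hdx] using this
  have hcn : Continuous (nx (m + 1)) := Polynomial.continuous_aeval _
  have hcd : Continuous dx := Polynomial.continuous_aeval _
  -- the neighbourhood
  obtain ⟨ε, hε, hε1, hnear⟩ : ∃ ε : ℝ, 0 < ε ∧ ε ≤ 1 / 2 ∧ ∀ x : ℂ, ‖x - 1‖ < ε →
      ‖nx (m + 1) x‖ ≤ 2 * e ∧ d / 2 ≤ ‖dx x‖ ∧ 0 < (nx (m + 1) x * conj (dx x)).re := by
    have h1 : ∀ᶠ x in nhds (1 : ℂ), ‖nx (m + 1) x‖ < 2 * e := by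
      refine hcn.norm.continuousAt.eventually_lt continuousAt_const ?_
      rw [hnxe, Complex.norm_real, Real.norm_of_nonneg hepos.le]
      linarith
    have h2 : ∀ᶠ x in nhds (1 : ℂ), d / 2 < ‖dx x‖ := by
      refine continuousAt_const.eventually_lt hcd.norm.continuousAt ?_
      rw [hdxd, Complex.norm_real, Real.norm_of_nonneg hdpos.le]
      linarith
    have h3 : ∀ᶠ x in nhds (1 : ℂ), 0 < (nx (m + 1) x * conj (dx x)).re := by
      have hc : Continuous fun x : ℂ => (nx (m + 1) x * conj (dx x)).re :=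
        Complex.continuous_re.comp (hcn.mul (Complex.continuous_conj.comp hcd))
      refine continuousAt_const.eventually_lt hc.continuousAt ?_
      rw [hnxe, hdxd, Complex.conj_ofReal, ← Complex.ofReal_mul, Complex.ofReal_re]
      positivity
    obtain ⟨ε, hε, h⟩ := Metric.eventually_nhds_iff.1 (h1.and (h2.and h3))
    refine ⟨min ε (1 / 2), by positivity, min_le_right _ _, fun x hx => ?_⟩
    have := h (y := x) (by rw [dist_eq_norm]; exact hx.trans_le (min_le_left _ _))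
    exact ⟨this.1.le, this.2.1.le, this.2.2⟩
  obtain ⟨g, hg, δ, hδ, hGb⟩ : ∃ g : ℝ, 0 < g ∧ ∃ δ : ℝ, 0 < δ ∧ ∀ x y : ℂ, ‖x - 1‖ < δ →
      ‖y - 1‖ < δ → g ≤ ‖G x y‖ := by
    have hga : 0 < ‖G 1 1‖ := norm_pos_iff.2 hG1
    have h1 : ∀ᶠ p in nhds ((1 : ℂ), (1 : ℂ)), ‖G 1 1‖ / 2 < ‖G p.1 p.2‖ :=
      continuousAt_const.eventually_lt hG.norm (by simp only; linarith)
    obtain ⟨ε, hε, h⟩ := Metric.eventually_nhds_iff.1 h1
    refine ⟨‖G 1 1‖ / 2, by positivity, ε, hε, fun x y hx hy => ?_⟩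
    refine (h (y := (x, y)) ?_).le
    rw [Prod.dist_eq, max_lt_iff, dist_eq_norm, dist_eq_norm]
    exact ⟨hx, hy⟩
  set ℓ : ℝ := |(((nn (m + 1)).leadingCoeff : ℤ) : ℝ)| with hℓ
  have hℓ1 : 1 ≤ ℓ := by
    have := Int.one_le_abs (leadingCoeff_ne_zero.2 (nn_ne (m + 1)))
    rw [hℓ]
    exact_mod_cast this
  set ε' := min ε δ with hε'
  have hε'pos : 0 < ε' := lt_min hε hδ
  set K0 : ℝ := √(4 * e / d) with hK0
  have hK0pos : 0 < K0 := Real.sqrt_pos.2 (by positivity)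
  have hK0sq : K0 ^ 2 = 4 * e / d := Real.sq_sqrt (by positivity)
  set dL : ℝ := ((dl (m + 1) : ℤ) : ℝ) with hdL
  have hdLpos : 0 < dL := by rw [hdL]; exact_mod_cast (all_ab (m + 1)).2.2.1
  set c' : ℝ := dL * 5 ^ (m + 1) / g with hc'
  have hc'pos : 0 < c' := by positivity
  set K1 : ℝ := c' * 2 ^ (m + 2) * K0 ^ (2 * m + 3) with hK1
  have hK1pos : 0 < K1 := by positivity
  refine ⟨max K0 K1, by positivity, max 1 (max (e / ε' ^ (m + 2) + 1) (max (2 * K0)
    (2 * c' * K0))), by positivity, fun A b hA hb hAb => ?_⟩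
  have hA1 : 1 ≤ A := (le_max_left _ _).trans hA
  have hA2 : e / ε' ^ (m + 2) + 1 ≤ A := ((le_max_left _ _).trans (le_max_right _ _)).trans hA
  have hA3 : 2 * K0 ≤ A :=
    ((le_max_left _ _).trans ((le_max_right _ _).trans (le_max_right _ _))).trans hA
  have hA4 : 2 * c' * K0 ≤ A :=
    ((le_max_right _ _).trans ((le_max_right _ _).trans (le_max_right _ _))).trans hA
  have hApos : 0 < A := by linarith
  have hs2 : √2 ^ 2 = 2 := Real.sq_sqrt (by norm_num)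
  have hs1 : 1 ≤ √2 := by
    rw [Real.one_le_sqrt]; norm_num
  have hbA : A ≤ b := by
    have : A ^ 2 ≤ b ^ 2 := by nlinarith
    exact (pow_le_pow_iff_left₀ hApos.le hb.le two_ne_zero).1 this
  have hprod : (√2 * A - b) * (√2 * A + b) = 1 := by
    have : (√2 * A - b) * (√2 * A + b) = √2 ^ 2 * A ^ 2 - b ^ 2 := by ring
    rw [this, hs2]; linarith
  have hsum : A ≤ √2 * A + b := by nlinarith
  have hdiff0 : 0 < √2 * A - b := by
    have h1 : 0 < √2 * A + b := by positivity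
    exact pos_of_mul_pos_left (by rw [hprod]; norm_num) h1.le
  have hdiff : √2 * A - b ≤ 1 / A := by
    rw [le_div_iff₀ hApos, ← hprod]
    exact mul_le_mul_of_nonneg_left hsum hdiff0.le
  obtain ⟨hQd, hQl⟩ := Qfam m A b hApos.ne'
  set Q : ℂ[X] := C ((√2 * A : ℝ) : ℂ) * (nn (m + 1)).map (algebraMap ℤ ℂ) -
      C (b : ℂ) * (mm (m + 1)).map (algebraMap ℤ ℂ) with hQ
  have hQev : ∀ z : ℂ, Q.eval z = ((√2 * A : ℝ) : ℂ) * nx (m + 1) z - (b : ℂ) * mx (m + 1) z := by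
    intro z
    rw [hQ, eval_sub, eval_mul, eval_mul, eval_C, eval_C, eval_map_algebraMap, eval_map_algebraMap]
    rfl
  have hQ0 : Q ≠ 0 := by
    intro h0
    rw [h0] at hQd
    simp at hQd
  have hlcn : ‖Q.leadingCoeff‖ = √2 * A * ℓ := by
    rw [hQl, norm_mul, Complex.norm_real, Complex.norm_intCast, Real.norm_of_nonneg (by positivity)]
  have hQ1 : ‖Q.eval 1‖ ≤ e / A := by
    rw [hQev, hnxe, hmxe, ← sub_mul, ← Complex.ofReal_sub, ← Complex.ofReal_mul, Complex.norm_real,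
      Real.norm_of_nonneg (by positivity)]
    calc (√2 * A - b) * e ≤ 1 / A * e := mul_le_mul_of_nonneg_right hdiff hepos.le
      _ = e / A := by ring
  obtain ⟨x, hxQ, hx1⟩ := exists_root_near Q hQ0 1 ε' hε'pos (by
    rw [hlcn, hQd]
    refine hQ1.trans_lt ?_
    have hp : 0 < ε' ^ (m + 2) := by positivity
    have h1 : e < A * ε' ^ (m + 2) := by
      have : e / ε' ^ (m + 2) < A := by linarith
      rwa [div_lt_iff₀ hp] at this
    calc e / A ≤ e := div_le_self hepos.le hA1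
      _ < A * ε' ^ (m + 2) := h1
      _ ≤ √2 * A * ℓ * ε' ^ (m + 2) := by
        refine mul_le_mul_of_nonneg_right ?_ hp.le
        have : A * 1 ≤ A * (√2 * ℓ) := mul_le_mul_of_nonneg_left (by nlinarith) hApos.le
        linarith)
  rw [hQev] at hxQ
  rw [norm_sub_rev] at hx1
  have hxε : ‖x - 1‖ < ε := hx1.trans_le (min_le_left _ _)
  have hxδ : ‖x - 1‖ < δ := hx1.trans_le (min_le_right _ _)
  obtain ⟨hn1, hn2, hn3⟩ := hnear x hxε
  have heq : (x - 1) ^ 2 * ((b : ℂ) * dx x) = -(((√2 * A - b : ℝ) : ℂ) * nx (m + 1) x) := by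
    have := hsplit x
    push_cast at hxQ ⊢
    linear_combination (-(b : ℂ)) * this + hxQ
  have hb' : (b : ℂ) ≠ 0 := by exact_mod_cast hb.ne'
  have hdx0 : dx x ≠ 0 := by
    intro h0
    rw [h0, norm_zero] at hn2
    linarith
  -- bound of `x - 1`
  have hxK : ‖x - 1‖ ≤ K0 / A := by
    have h1 : ‖x - 1‖ ^ 2 * (b * ‖dx x‖) = (√2 * A - b) * ‖nx (m + 1) x‖ := by
      have := congrArg norm heq
      rw [norm_mul, norm_mul, norm_pow, norm_neg, norm_mul, Complex.norm_real, Complex.norm_real,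
        Real.norm_of_nonneg hb.le, Real.norm_of_nonneg hdiff0.le] at this
      exact this
    have h2 : ‖x - 1‖ ^ 2 * (A * (d / 2)) ≤ 1 / A * (2 * e) := by
      calc ‖x - 1‖ ^ 2 * (A * (d / 2)) ≤ ‖x - 1‖ ^ 2 * (b * ‖dx x‖) := by
            refine mul_le_mul_of_nonneg_left ?_ (by positivity)
            exact mul_le_mul hbA hn2 (by positivity) hb.le
        _ = (√2 * A - b) * ‖nx (m + 1) x‖ := h1
        _ ≤ 1 / A * (2 * e) := mul_le_mul hdiff hn1 (norm_nonneg _) (by positivity)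
    have h3 : ‖x - 1‖ ^ 2 ≤ (K0 / A) ^ 2 := by
      rw [div_pow, hK0sq]
      have h4 : 0 < A * (d / 2) := by positivity
      rw [← le_div_iff₀ h4] at h2
      refine h2.trans (le_of_eq ?_)
      field_simp
      ring
    exact (pow_le_pow_iff_left₀ (norm_nonneg _) (by positivity) two_ne_zero).1 h3
  -- `x` is not real
  have him : x.im ≠ 0 := by
    intro h0
    have hxr : x = ((x.re : ℝ) : ℂ) := by
      apply Complex.ext
      · simp
      · simp [h0]
    have h1 : ((x - 1) ^ 2 * ((b : ℂ) * dx x) * conj (dx x)).re =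
        (-(((√2 * A - b : ℝ) : ℂ) * nx (m + 1) x) * conj (dx x)).re := by rw [heq]
    have h2 : (x - 1) ^ 2 * ((b : ℂ) * dx x) * conj (dx x) =
        (((x.re - 1) ^ 2 * b * Complex.normSq (dx x) : ℝ) : ℂ) := by
      have h3 := Complex.mul_conj (dx x)
      rw [show (x - 1) ^ 2 * ((b : ℂ) * dx x) * conj (dx x) =
        (x - 1) ^ 2 * (b : ℂ) * (dx x * conj (dx x)) by ring, h3]
      push_cast
      rw [← hxr]
    have h4 : -(((√2 * A - b : ℝ) : ℂ) * nx (m + 1) x) * conj (dx x) =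
        ((-(√2 * A - b) : ℝ) : ℂ) * (nx (m + 1) x * conj (dx x)) := by
      push_cast; ring
    rw [h2, h4, Complex.ofReal_re, Complex.re_ofReal_mul] at h1
    have h5 : 0 ≤ (x.re - 1) ^ 2 * b * Complex.normSq (dx x) :=
      mul_nonneg (mul_nonneg (sq_nonneg _) hb.le) (Complex.normSq_nonneg _)
    have h6 := mul_pos hdiff0 hn3
    linarith
  have hxQ' : ((√2 * A : ℝ) : ℂ) * nx (m + 1) x = (b : ℂ) * mx (m + 1) x := sub_eq_zero.1 hxQ
  set y : ℂ := conj x with hy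
  have hyQ' : ((√2 * A : ℝ) : ℂ) * nx (m + 1) y = (b : ℂ) * mx (m + 1) y := by
    rw [hy, nx_conj, mx_conj, ← Complex.conj_ofReal, ← map_mul, hxQ', map_mul, Complex.conj_ofReal]
  have hxy : x ≠ y := by
    intro h0
    apply him
    have := congrArg Complex.im h0
    rw [hy, Complex.conj_im] at this
    linarith
  have hyn : ‖y - 1‖ = ‖x - 1‖ := by
    have : y - 1 = conj (x - 1) := by rw [map_sub, map_one]
    rw [this, Complex.norm_conj]
  have hB : nx (m + 1) x * mx (m + 1) y - nx (m + 1) y * mx (m + 1) x = 0 := by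
    have : (b : ℂ) * (nx (m + 1) x * mx (m + 1) y - nx (m + 1) y * mx (m + 1) x) = 0 := by
      linear_combination nx (m + 1) y * hxQ' - nx (m + 1) x * hyQ'
    exact (mul_eq_zero.1 this).resolve_left hb'
  have hx4 : ∀ z : ℂ, ‖z - 1‖ < ε → z ^ 2 ≠ 4 := by
    intro z hz h0
    have h1 : (z - 2) * (z + 2) = 0 := by linear_combination h0
    rcases mul_eq_zero.1 h1 with h | h
    · have : z - 1 = 1 := by linear_combination h
      rw [this, norm_one] at hz
      linarith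
    · have : z - 1 = -3 := by linear_combination h
      rw [this, norm_neg] at hz
      have h3 : ‖(3 : ℂ)‖ = 3 := by norm_num
      rw [h3] at hz
      linarith
  rw [hid x y (hx4 x hxε) (hx4 y (by rw [hyn]; exact hxε))] at hB
  have hB' := (mul_eq_zero.1 hB).resolve_left (sub_ne_zero.2 hxy)
  set k : ℂ := x ^ 2 + x * y + y ^ 2 - 3 with hk
  set u : ℂ := x - 1 with hu
  set v : ℂ := y - 1 with hv
  set r : ℝ := K0 / A with hr
  have hrpos : 0 < r := by positivity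
  have hur : ‖u‖ ≤ r := hxK
  have hvr : ‖v‖ ≤ r := by rw [hyn]; exact hxK
  have hr1 : 2 * r ≤ 1 := by
    rw [hr, ← mul_div_assoc, div_le_one hApos]; exact hA3
  have hr2 : 2 * c' * r ≤ 1 := by
    rw [hr, ← mul_div_assoc, div_le_one hApos]; exact hA4
  have hGxy := hGb x y hxδ (by rw [hyn]; exact hxδ)
  have huv4 : ‖(x + y) ^ 2 - 4‖ ≤ 5 * ‖u + v‖ := by
    have h1 : (x + y) ^ 2 - 4 = (u + v + 4) * (u + v) := by rw [hu, hv]; ring
    rw [h1, norm_mul]
    refine mul_le_mul_of_nonneg_right ?_ (norm_nonneg _)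
    have h2 := norm_add₃_le (a := u) (b := v) (c := (4 : ℂ))
    have h3 : ‖(4 : ℂ)‖ = 4 := by norm_num
    rw [h3] at h2
    linarith
  have hkuv : ‖k‖ ≤ c' * ‖u + v‖ ^ (m + 1) := by
    have h1 : k * G x y = -(((dl (m + 1) : ℤ) : ℂ) * ((x + y) ^ 2 - 4) ^ (m + 1)) := by
      linear_combination hB'
    have h2 : ‖k‖ * ‖G x y‖ = dL * ‖(x + y) ^ 2 - 4‖ ^ (m + 1) := by
      have := congrArg norm h1
      rw [norm_mul, norm_neg, norm_mul, norm_pow, Complex.norm_intCast] at this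
      rw [this, ← hdL, abs_of_pos hdLpos]
    rw [hc', div_mul_eq_mul_div, le_div_iff₀ hg]
    calc ‖k‖ * g ≤ ‖k‖ * ‖G x y‖ := mul_le_mul_of_nonneg_left hGxy (norm_nonneg _)
      _ = dL * ‖(x + y) ^ 2 - 4‖ ^ (m + 1) := h2
      _ ≤ dL * (5 * ‖u + v‖) ^ (m + 1) := by gcongr
      _ = dL * 5 ^ (m + 1) * ‖u + v‖ ^ (m + 1) := by rw [mul_pow]; ring
  have huvr : ‖u + v‖ ≤ 2 * r := (norm_add_le _ _).trans (by linarith)
  have hk1 : ‖k‖ ≤ ‖u + v‖ := by
    refine hkuv.trans ?_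
    have h1 : ‖u + v‖ ^ m ≤ 2 * r := by
      calc ‖u + v‖ ^ m ≤ ‖u + v‖ ^ 1 :=
            pow_le_pow_of_le_one (norm_nonneg _) (huvr.trans hr1) hm
        _ = ‖u + v‖ := pow_one _
        _ ≤ 2 * r := huvr
    calc c' * ‖u + v‖ ^ (m + 1) = (c' * ‖u + v‖ ^ m) * ‖u + v‖ := by ring
      _ ≤ (c' * (2 * r)) * ‖u + v‖ := by gcongr
      _ ≤ 1 * ‖u + v‖ := by
        refine mul_le_mul_of_nonneg_right ?_ (norm_nonneg _)
        linarith
      _ = ‖u + v‖ := one_mul _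
  have hksum : 3 * (u + v) = k - (u ^ 2 + u * v + v ^ 2) := by rw [hk, hu, hv]; ring
  have hquad : ‖u ^ 2 + u * v + v ^ 2‖ ≤ 3 * r ^ 2 := by
    have h1 : ‖u ^ 2‖ ≤ r ^ 2 := by
      rw [norm_pow]; exact pow_le_pow_left₀ (norm_nonneg _) hur 2
    have h2 : ‖v ^ 2‖ ≤ r ^ 2 := by
      rw [norm_pow]; exact pow_le_pow_left₀ (norm_nonneg _) hvr 2
    have h3 : ‖u * v‖ ≤ r ^ 2 := by
      rw [norm_mul, sq]; exact mul_le_mul hur hvr (norm_nonneg _) hrpos.le
    have h4 := norm_add₃_le (a := u ^ 2) (b := u * v) (c := v ^ 2)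
    linarith
  have huv2 : ‖u + v‖ ≤ 2 * r ^ 2 := by
    have h1 : 3 * ‖u + v‖ ≤ ‖k‖ + 3 * r ^ 2 := by
      have h2 : ‖3 * (u + v)‖ = 3 * ‖u + v‖ := by
        rw [norm_mul]; norm_num
      rw [← h2, hksum]
      exact (norm_sub_le _ _).trans (by linarith)
    have h2 : 0 ≤ r ^ 2 := by positivity
    linarith
  have hkfin : ‖k‖ ≤ c' * (2 * r ^ 2) ^ (m + 1) := hkuv.trans (by gcongr)
  have hfact : (x ^ 3 - 3 * x) - (y ^ 3 - 3 * y) = (x - y) * k := by
    rw [hk]; ring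
  have hk0 : k ≠ 0 := by
    intro hk0
    rw [hk0, zero_mul, add_zero] at hB'
    have hdl0 : ((dl (m + 1) : ℤ) : ℂ) ≠ 0 := by exact_mod_cast (all_ab (m + 1)).2.2.1.ne'
    have h1 := (mul_eq_zero.1 hB').resolve_left hdl0
    have h2 : (x + y) ^ 2 - 4 = 0 := pow_eq_zero_iff (Nat.succ_ne_zero m) |>.1 h1
    have h3 : (x - y) ^ 2 = 0 := by
      rw [hk] at hk0
      linear_combination (-3) * h2 + 4 * hk0
    exact hxy (sub_eq_zero.1 (pow_eq_zero_iff two_ne_zero |>.1 h3))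
  refine ⟨x, him, hxQ', hxK.trans ?_, ?_, ?_⟩
  · exact div_le_div_of_nonneg_right (le_max_left _ _) hApos.le
  · intro h
    have : (x - y) * k = 0 := by rw [← hfact, h, sub_self]
    exact (mul_ne_zero (sub_ne_zero.2 hxy) hk0) this
  · rw [hfact, norm_mul]
    have hxyr : ‖x - y‖ ≤ 2 * r := by
      have : x - y = u - v := by rw [hu, hv]; ring
      rw [this]
      exact (norm_sub_le _ _).trans (by linarith)
    calc ‖x - y‖ * ‖k‖ ≤ (2 * r) * (c' * (2 * r ^ 2) ^ (m + 1)) := by gcongr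
      _ = c' * 2 ^ (m + 2) * r ^ (2 * m + 3) := by ring
      _ = K1 / A ^ (2 * m + 3) := by rw [hK1, hr, div_pow]; ring
      _ ≤ max K0 K1 / A ^ (2 * m + 3) := by
        gcongr
        exact le_max_right _ _

end Run7.h565
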