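import Pool.Agent.Run7.h565.Defs

/-!
# How to bound the exponents of root separation from below
-/

set_option autoImplicit false

namespace Run7.h565

open Polynomial Filter

lemma SepSet_finite (C : ℤ[X] → Prop) (n H : ℕ) : (SepSet C n H).Finite := by
  classical
  have hfin := bUnion_roots_finite (algebraMap ℤ ℂ) n (Set.finite_Icc (-(H : ℤ)) H)
  refine ((hfin.prod hfin).image (fun p : ℂ × ℂ => ‖p.1 - p.2‖)).subset ?_
  rintro d ⟨P, h1, h2, h3, -, α, β, hne, hα, hβ, rfl⟩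
  have hP0 : P.map (algebraMap ℤ ℂ) ≠ 0 := h3.ne_zero
  have key : ∀ z : ℂ, aeval z P = 0 → z ∈ ⋃ (f : ℤ[X]) (_ : f.natDegree ≤ n ∧
      ∀ i, f.coeff i ∈ Set.Icc (-(H : ℤ)) H), ((f.map (algebraMap ℤ ℂ)).roots.toFinset : Set ℂ) := by
    intro z hz
    refine Set.mem_iUnion₂.2 ⟨P, ⟨h1.le, fun i => abs_le.1 (h2 i)⟩, ?_⟩
    simp only [Finset.mem_coe, Multiset.mem_toFinset]
    rw [mem_roots']
    exact ⟨hP0, by rw [IsRoot.def, eval_map_algebraMap, hz]⟩
  exact ⟨(α, β), ⟨key α hα, key β hβ⟩, rfl⟩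

lemma sInf_SepSet_pos (C : ℤ[X] → Prop) (n H : ℕ) (h : (SepSet C n H).Nonempty) :
    0 < sInf (SepSet C n H) := by
  obtain ⟨P, -, -, -, -, α, β, hne, -, -, hd⟩ := h.csInf_mem (SepSet_finite C n H)
  rw [hd]
  exact norm_pos_iff.2 (sub_ne_zero.2 hne)

/-- lower bound for the exponent from a sequence of close roots -/
lemma le_sepExponent (C : ℤ[X] → Prop) (n : ℕ) (τ C1 : ℝ) (hC1 : 0 < C1)
    (h : ∃ᶠ H : ℕ in atTop, ∃ d ∈ SepSet C n H, d ≤ C1 * (H : ℝ) ^ (-τ)) :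
    ((τ : ℝ) : EReal) ≤ sepExponent C n := by
  apply le_of_forall_lt
  intro c hc
  obtain ⟨c', hc1, hc2⟩ := EReal.lt_iff_exists_real_btwn.1 hc
  refine lt_of_lt_of_le hc1 ?_
  unfold sepExponent
  refine le_limsup_of_frequently_le ?_
  have hτ : c' < τ := by exact_mod_cast hc2
  have hlog : Tendsto (fun H : ℕ => Real.log (H : ℝ)) atTop atTop :=
    Real.tendsto_log_atTop.comp tendsto_natCast_atTop_atTop
  have hev : ∀ᶠ H : ℕ in atTop, 0 < Real.log (H : ℝ) ∧
      Real.log C1 ≤ (τ - c') * Real.log (H : ℝ) := by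
    have h1 := hlog.eventually_gt_atTop 0
    have h2 := (hlog.const_mul_atTop (sub_pos.2 hτ)).eventually_ge_atTop (Real.log C1)
    exact h1.and h2
  refine (h.and_eventually hev).mono ?_
  rintro H ⟨⟨d, hd, hdle⟩, hpos, hle⟩
  have hb : BddBelow (SepSet C n H) := (SepSet_finite C n H).bddBelow
  have hs := csInf_le hb hd
  have hp := sInf_SepSet_pos C n H ⟨d, hd⟩
  have hH : (0 : ℝ) < H := by
    rcases Nat.eq_zero_or_pos H with h0 | h0
    · rw [h0] at hpos; simp at hpos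
    · exact_mod_cast h0
  have hlogle : Real.log (sInf (SepSet C n H)) ≤ Real.log C1 - τ * Real.log H := by
    have := Real.log_le_log hp (hs.trans hdle)
    rw [Real.log_mul hC1.ne' (Real.rpow_pos_of_pos hH _).ne', Real.log_rpow hH] at this
    linarith
  have hfin : c' ≤ -Real.log (sInf (SepSet C n H)) / Real.log H := by
    rw [le_div_iff₀ hpos]
    nlinarith
  exact_mod_cast hfin

/-- variant: heights `K A ^ r` -/
lemma le_sepExponent' (C : ℤ[X] → Prop) (n : ℕ) (r K : ℕ) (hr : 0 < r) (hK : 0 < K)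
    (τ C1 : ℝ) (hC1 : 0 < C1)
    (h : ∃ᶠ A : ℕ in atTop, ∃ d ∈ SepSet C n (K * A ^ r), d ≤ C1 * (A : ℝ) ^ (-(r * τ))) :
    ((τ : ℝ) : EReal) ≤ sepExponent C n := by
  have hK' : (0 : ℝ) < K := by exact_mod_cast hK
  refine le_sepExponent C n τ (C1 * (K : ℝ) ^ τ) (mul_pos hC1 (Real.rpow_pos_of_pos hK' _)) ?_
  have ht : Tendsto (fun A : ℕ => K * A ^ r) atTop atTop := by
    refine tendsto_atTop_mono (f := fun A : ℕ => A) (fun A => ?_) tendsto_id
    calc A ≤ A ^ r := Nat.le_self_pow hr.ne' A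
      _ ≤ K * A ^ r := Nat.le_mul_of_pos_left _ hK
  refine ht.frequently (((h.and_eventually (eventually_gt_atTop 0))).mono ?_)
  rintro A ⟨⟨d, hd, hdle⟩, hA⟩
  refine ⟨d, hd, hdle.trans (le_of_eq ?_)⟩
  have hA' : (0 : ℝ) < A := by exact_mod_cast hA
  rw [mul_assoc]
  congr 1
  push_cast
  rw [Real.mul_rpow hK'.le (by positivity), ← mul_assoc, ← Real.rpow_add hK', add_neg_cancel,
    Real.rpow_zero, one_mul, ← Real.rpow_natCast, ← Real.rpow_mul hA'.le]
  congr 1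
  ring

lemma separable_of_irreducible (P : ℤ[X]) (h : Irreducible (P.map (algebraMap ℤ ℚ))) :
    (P.map (algebraMap ℤ ℂ)).Separable := by
  have h3 := (h.separable).map (f := algebraMap ℚ ℂ)
  rw [Polynomial.map_map] at h3
  have h4 : (algebraMap ℚ ℂ).comp (algebraMap ℤ ℚ) = algebraMap ℤ ℂ := RingHom.ext_int _ _
  rwa [h4] at h3

lemma aeval_complex (P : ℤ[X]) (x : ℝ) (h : aeval x P = 0) : aeval (x : ℂ) P = 0 := by
  have h1 := aeval_algebraMap_apply ℂ x P
  rw [h, map_zero] at h1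
  exact h1

end Run7.h565
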