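import Pool.Agent.Run7.h565.Norm

/-!
# Irreducibility of all but finitely many members of a one parameter family
-/

set_option autoImplicit false

namespace Run7.h565

open Polynomial

/-- Cauchy's bound in a convenient form -/
lemma root_bound (Q : ℂ[X]) (hQ : Q ≠ 0) (z : ℂ) (hz : Q.IsRoot z) (B : ℝ) (hB0 : 0 ≤ B)
    (hB : ∀ i < Q.natDegree, ‖Q.coeff i‖ ≤ B * ‖Q.leadingCoeff‖) : ‖z‖ ≤ 1 + B := by
  have h := IsRoot.norm_lt_cauchyBound hQ hz
  have hl : 0 < ‖Q.leadingCoeff‖ := norm_pos_iff.2 (leadingCoeff_ne_zero.2 hQ)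
  have h2 : (cauchyBound Q : ℝ) ≤ B + 1 := by
    have : cauchyBound Q ≤ Real.toNNReal B + 1 := by
      unfold cauchyBound
      gcongr
      rw [div_le_iff₀ (by exact_mod_cast hl)]
      apply Finset.sup_le
      intro i hi
      rw [Finset.mem_range] at hi
      have := hB i hi
      rw [← NNReal.coe_le_coe]
      simpa [hB0] using this
    calc (cauchyBound Q : ℝ) ≤ ((Real.toNNReal B + 1 : NNReal) : ℝ) := by exact_mod_cast this
      _ = B + 1 := by simp [hB0]
  have h3 : (‖z‖₊ : ℝ) < (cauchyBound Q : ℝ) := by exact_mod_cast h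
  rw [coe_nnnorm] at h3
  linarith

lemma coeff_le_of_roots (s : Multiset ℂ) (R : ℝ) (hR : 0 ≤ R) (h : ∀ z ∈ s, ‖z‖ ≤ R) :
    ∀ i, ‖((s.map fun z => X - C z).prod).coeff i‖ ≤ (1 + R) ^ (Multiset.card s) := by
  induction s using Multiset.induction_on with
  | empty =>
    intro i
    simp only [Multiset.map_zero, Multiset.prod_zero, Multiset.card_zero, pow_zero, coeff_one]
    split_ifs <;> simp
  | cons a s ih =>
    have ih' := ih (fun z hz => h z (Multiset.mem_cons_of_mem hz))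
    have ha := h a (Multiset.mem_cons_self a s)
    intro i
    rw [Multiset.map_cons, Multiset.prod_cons, Multiset.card_cons, sub_mul, coeff_sub, coeff_C_mul,
      pow_succ]
    have h1 : ‖(X * (s.map fun z => X - C z).prod).coeff i‖ ≤ (1 + R) ^ (Multiset.card s) := by
      cases i with
      | zero => simp only [mul_coeff_zero, coeff_X_zero, zero_mul, norm_zero]; positivity
      | succ i => rw [coeff_X_mul]; exact ih' i
    have h2 : ‖a * ((s.map fun z => X - C z).prod).coeff i‖ ≤ R * (1 + R) ^ (Multiset.card s) := by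
      rw [norm_mul]
      exact mul_le_mul ha (ih' i) (norm_nonneg _) hR
    calc _ ≤ _ := norm_sub_le _ _
      _ ≤ (1 + R) ^ (Multiset.card s) + R * (1 + R) ^ (Multiset.card s) := add_le_add h1 h2
      _ = _ := by ring

lemma coeff_le (h : ℤ[X]) (R : ℝ) (hR : 0 ≤ R) (hr : ∀ z : ℂ, aeval z h = 0 → ‖z‖ ≤ R)
    (L n : ℕ) (hL : |h.leadingCoeff| ≤ L) (hn : h.natDegree ≤ n) :
    ∃ M : ℕ, M = ⌈(L : ℝ) * (1 + R) ^ n⌉₊ ∧ ∀ i, |h.coeff i| ≤ M := by
  refine ⟨_, rfl, fun i => ?_⟩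
  have key : (|h.coeff i| : ℝ) ≤ L * (1 + R) ^ n := by
    by_cases h0 : h = 0
    · rw [h0]; simp only [coeff_zero, Int.cast_zero, abs_zero]; positivity
    have hmap : (h.map (algebraMap ℤ ℂ)).coeff i = (h.coeff i : ℂ) := by simp
    have hsp : (h.map (algebraMap ℤ ℂ)).Splits := IsAlgClosed.splits _
    have hprod := hsp.eq_prod_roots
    have hlc : (h.map (algebraMap ℤ ℂ)).leadingCoeff = ((h.leadingCoeff : ℤ) : ℂ) := by
      rw [leadingCoeff_map_of_injective (RingHom.injective_int (algebraMap ℤ ℂ))]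
      rfl
    have hcard : Multiset.card (h.map (algebraMap ℤ ℂ)).roots ≤ n := by
      refine (card_roots' _).trans ((natDegree_map_le).trans hn)
    have hb := coeff_le_of_roots (h.map (algebraMap ℤ ℂ)).roots R hR (fun z hz => by
      apply hr
      have := (mem_roots'.1 hz).2
      rwa [IsRoot.def, eval_map_algebraMap] at this) i
    have e : ‖(h.coeff i : ℂ)‖ = |(h.coeff i : ℝ)| := by
      rw [Complex.norm_intCast]
    have e2 : ‖(h.leadingCoeff : ℂ)‖ = |(h.leadingCoeff : ℝ)| := by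
      rw [Complex.norm_intCast]
    rw [← e, ← hmap, hprod, coeff_C_mul, norm_mul, hlc, e2]
    have hL' : |(h.leadingCoeff : ℝ)| ≤ L := by exact_mod_cast hL
    refine mul_le_mul hL' (hb.trans ?_) (norm_nonneg _) (by positivity)
    exact pow_le_pow_right₀ (by linarith) hcard
  have h1 : (|h.coeff i| : ℝ) ≤ (⌈(L : ℝ) * (1 + R) ^ n⌉₊ : ℝ) := key.trans (Nat.le_ceil _)
  exact_mod_cast h1

/-- Gauss -/
lemma exists_factor (P : ℤ[X]) (hP : 1 ≤ P.natDegree)
    (h : ¬ Irreducible (P.map (algebraMap ℤ ℚ))) :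
    ∃ g h : ℤ[X], P = g * h ∧ 1 ≤ g.natDegree ∧ 1 ≤ h.natDegree := by
  have hP0 : P ≠ 0 := by rintro rfl; simp at hP
  have hc : P.content ≠ 0 := by rwa [Ne, content_eq_zero_iff]
  have hprim := P.isPrimitive_primPart
  have heq := P.eq_C_content_mul_primPart
  have hnd : P.primPart.natDegree = P.natDegree := P.natDegree_primPart
  have hmap : P.map (algebraMap ℤ ℚ) = C (P.content : ℚ) * P.primPart.map (algebraMap ℤ ℚ) := by
    conv_lhs => rw [heq]
    rw [Polynomial.map_mul, map_C]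
    rfl
  have hu : IsUnit (C (P.content : ℚ)) := by
    rw [isUnit_C]
    exact isUnit_iff_ne_zero.2 (by exact_mod_cast hc)
  have h2 : ¬ Irreducible (P.primPart.map (algebraMap ℤ ℚ)) := by
    intro h3
    apply h
    rw [hmap]
    exact (irreducible_isUnit_mul hu).2 h3
  have h3 : ¬ Irreducible P.primPart := by
    intro h4
    apply h2
    exact (IsPrimitive.Int.irreducible_iff_irreducible_map_cast hprim).1 h4
  have hnu : ¬ IsUnit P.primPart := by
    intro hu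
    have := natDegree_eq_zero_of_isUnit hu
    omega
  rw [irreducible_iff] at h3
  push Not at h3
  obtain ⟨g, k, hgk, hg, hk⟩ := h3 hnu
  have aux : ∀ g : ℤ[X], g ∣ P.primPart → ¬ IsUnit g → 1 ≤ g.natDegree := by
    intro g hgd hgu
    by_contra hcon
    have h0 : g.natDegree = 0 := by omega
    have hgp := isPrimitive_of_dvd hprim hgd
    rw [eq_C_of_natDegree_eq_zero h0] at hgp hgu
    have := hgp (g.coeff 0) dvd_rfl
    exact hgu (this.map C)
  have hg1 := aux g ⟨k, hgk⟩ hg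
  have hk1 := aux k ⟨g, by rw [hgk, mul_comm]⟩ hk
  refine ⟨C P.content * g, k, ?_, ?_, hk1⟩
  · conv_lhs => rw [heq, hgk]
    ring
  · rwa [natDegree_C_mul hc]

/-- all but finitely many members of the family are irreducible -/
lemma irr_cofinite (F : ℤ → ℤ[X]) (s : Set ℤ) (n : ℕ) (hn : 1 ≤ n)
    (hdeg : ∀ a ∈ s, (F a).natDegree = n) (M : ℕ)
    (H1 : ∀ a ∈ s, ∀ g h : ℤ[X], F a = g * h → 1 ≤ g.natDegree → 1 ≤ h.natDegree →
      (∀ i, |g.coeff i| ≤ M) ∨ (∀ i, |h.coeff i| ≤ M))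
    (H2 : ∀ ξ : ℂ, {a : ℤ | a ∈ s ∧ aeval ξ (F a) = 0}.Finite) :
    {a ∈ s | ¬ Irreducible ((F a).map (algebraMap ℤ ℚ))}.Finite := by
  classical
  have hfin := bUnion_roots_finite (algebraMap ℤ ℂ) n (Set.finite_Icc (-(M : ℤ)) M)
  refine (hfin.biUnion (fun ξ _ => H2 ξ)).subset ?_
  rintro a ⟨ha, hirr⟩
  have key : ∀ g : ℤ[X], g ∣ F a → 1 ≤ g.natDegree → (∀ i, |g.coeff i| ≤ M) →
      a ∈ ⋃ i ∈ ⋃ f, ⋃ (_ : f.natDegree ≤ n ∧ ∀ (i : ℕ), f.coeff i ∈ Set.Icc (-(M : ℤ)) M),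
        ((map (algebraMap ℤ ℂ) f).roots.toFinset : Set ℂ), {a : ℤ | a ∈ s ∧ aeval i (F a) = 0} := by
    intro g hg hg1 hgM
    have hFa : F a ≠ 0 := by
      intro h0
      have := hdeg a ha
      rw [h0] at this
      simp at this
      omega
    have hg0 : g ≠ 0 := by rintro rfl; simp at hg1
    have hdg : (g.map (algebraMap ℤ ℂ)).degree ≠ 0 := by
      rw [degree_map_eq_of_injective (RingHom.injective_int (algebraMap ℤ ℂ)),
        degree_eq_natDegree hg0]
      exact_mod_cast (by omega : g.natDegree ≠ 0)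
    obtain ⟨ξ, hξ⟩ := IsAlgClosed.exists_root _ hdg
    rw [IsRoot.def, eval_map_algebraMap] at hξ
    refine Set.mem_biUnion (x := ξ) ?_ ?_
    · refine Set.mem_iUnion₂.2 ⟨g, ⟨?_, fun i => ?_⟩, ?_⟩
      · rw [← hdeg a ha]
        exact natDegree_le_of_dvd hg hFa
      · exact abs_le.1 (hgM i)
      · simp only [Finset.mem_coe, Multiset.mem_toFinset]
        rw [mem_roots']
        refine ⟨(Polynomial.map_ne_zero_iff (RingHom.injective_int (algebraMap ℤ ℂ))).2 hg0, ?_⟩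
        rw [IsRoot.def, eval_map_algebraMap, hξ]
    · refine ⟨ha, ?_⟩
      obtain ⟨k, hk⟩ := hg
      rw [hk, map_mul, hξ, zero_mul]
  obtain ⟨g, h, hgh, hg1, hh1⟩ := exists_factor (F a) (by rw [hdeg a ha]; exact hn) hirr
  rcases H1 a ha g h hgh hg1 hh1 with hM | hM
  · exact key g ⟨h, hgh⟩ hg1 hM
  · exact key h ⟨g, by rw [hgh, mul_comm]⟩ hh1 hM

section roots

variable {p q : ℤ} {N D : ℤ[X]} {F : ℤ → ℤ[X]}

lemma fam_root (h1 : ∀ (a : ℤ) (x s1 s2 s3 : ℂ), s1 + s2 + s3 = -p →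
      s1 * s2 + s1 * s3 + s2 * s3 = q → s1 * s2 * s3 = x →
      aeval x (F a) = aeval s1 (N - C a * D) * aeval s2 (N - C a * D) *
        aeval s3 (N - C a * D)) (a : ℤ) (ξ : ℂ) :
    aeval ξ (F a) = 0 ↔ ∃ σ : ℂ, aeval σ (N - C a * D) = 0 ∧ ξ = σ ^ 3 + p * σ ^ 2 + q * σ := by
  constructor
  · intro h
    obtain ⟨s1, s2, s3, e1, e2, e3⟩ := exists_cubic p q ξ
    have hp : (p : ℂ) = -(s1 + s2 + s3) := by rw [e1]; ring
    rw [h1 a ξ s1 s2 s3 e1 e2 e3] at h
    rcases mul_eq_zero.1 h with h | h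
    · rcases mul_eq_zero.1 h with h | h
      · exact ⟨s1, h, by rw [hp, ← e2, ← e3]; ring⟩
      · exact ⟨s2, h, by rw [hp, ← e2, ← e3]; ring⟩
    · exact ⟨s3, h, by rw [hp, ← e2, ← e3]; ring⟩
  · rintro ⟨σ, hσ, rfl⟩
    obtain ⟨s1, s2, s3, e1, e2, e3⟩ := exists_cubic p q (σ ^ 3 + p * σ ^ 2 + q * σ)
    rw [h1 a _ s1 s2 s3 e1 e2 e3]
    have hp : (p : ℂ) = -(s1 + s2 + s3) := by rw [e1]; ring
    have h3 : (σ - s1) * (σ - s2) * (σ - s3) = 0 := by
      rw [hp, ← e2] at e3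
      linear_combination -e3
    rcases mul_eq_zero.1 h3 with h | h
    · rcases mul_eq_zero.1 h with h | h
      · rw [← sub_eq_zero.1 h, hσ]; ring
      · rw [← sub_eq_zero.1 h, hσ]; ring
    · rw [← sub_eq_zero.1 h, hσ]; ring

lemma fam_root_finite (h1 : ∀ (a : ℤ) (x s1 s2 s3 : ℂ), s1 + s2 + s3 = -p →
      s1 * s2 + s1 * s3 + s2 * s3 = q → s1 * s2 * s3 = x →
      aeval x (F a) = aeval s1 (N - C a * D) * aeval s2 (N - C a * D) *
        aeval s3 (N - C a * D))
    (hcop : ∀ z : ℂ, aeval z N = 0 → aeval z D = 0 → False) (ξ : ℂ) :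
    {a : ℤ | aeval ξ (F a) = 0}.Finite := by
  obtain ⟨s1, s2, s3, e1, e2, e3⟩ := exists_cubic p q ξ
  have hs : ∀ s : ℂ, {a : ℤ | aeval s (N - C a * D) = 0}.Finite := by
    intro s
    apply Set.Subsingleton.finite
    intro a ha b hb
    simp only [Set.mem_ofPred_eq, map_sub, map_mul, eq_intCast, map_intCast] at ha hb
    by_cases hD : aeval s D = 0
    · exfalso
      rw [hD] at ha
      exact hcop s (by simpa using ha) hD
    · have : ((a : ℂ) - b) * aeval s D = 0 := by linear_combination hb - ha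
      rcases mul_eq_zero.1 this with h | h
      · exact_mod_cast sub_eq_zero.1 h
      · exact absurd h hD
  refine (((hs s1).union (hs s2)).union (hs s3)).subset ?_
  intro a ha
  simp only [Set.mem_ofPred_eq] at ha
  rw [h1 a ξ s1 s2 s3 e1 e2 e3] at ha
  rcases mul_eq_zero.1 ha with h | h
  · rcases mul_eq_zero.1 h with h | h
    · exact Or.inl (Or.inl h)
    · exact Or.inl (Or.inr h)
  · exact Or.inr h

end roots

/-- if exactly one degree is lost modulo `l` then one factor keeps its degree -/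
lemma lead_not_dvd (P g h : ℤ[X]) (l : ℤ) (n : ℕ) (hn : P.natDegree = n + 1)
    (hc : ¬ l ∣ P.coeff n) (hP : P = g * h) :
    ¬ l ∣ g.leadingCoeff ∨ ¬ l ∣ h.leadingCoeff := by
  by_contra hcon
  push Not at hcon
  obtain ⟨hg, hh⟩ := hcon
  apply hc
  have hP0 : P ≠ 0 := by rintro rfl; simp at hn
  have hg0 : g ≠ 0 := by rintro rfl; simp [hP] at hP0
  have hh0 : h ≠ 0 := by rintro rfl; simp [hP] at hP0
  have hd : g.natDegree + h.natDegree = n + 1 := by
    rw [← hn, hP, natDegree_mul hg0 hh0]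
  rw [hP, coeff_mul]
  apply Finset.dvd_sum
  rintro ⟨i, j⟩ hij
  rw [Finset.HasAntidiagonal.mem_antidiagonal] at hij
  simp only at hij ⊢
  rcases lt_trichotomy i g.natDegree with hi | hi | hi
  · rcases lt_or_eq_of_le (show h.natDegree ≤ j by omega) with hj | hj
    · rw [coeff_eq_zero_of_natDegree_lt hj, mul_zero]
      exact dvd_zero _
    · rw [← hj]
      exact Dvd.dvd.mul_left hh _
  · rw [hi]
    exact Dvd.dvd.mul_right hg _
  · rw [coeff_eq_zero_of_natDegree_lt hi, zero_mul]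
    exact dvd_zero _

/-- if only one root is large then one factor has bounded roots -/
lemma one_factor_bounded (P g h : ℤ[X]) (ρ : ℂ) (W : ℂ[X])
    (hW : P.map (algebraMap ℤ ℂ) = (X - C ρ) * W) (R : ℝ) (hR : ∀ z, W.IsRoot z → ‖z‖ ≤ R)
    (hP : P = g * h) :
    (∀ z : ℂ, aeval z g = 0 → ‖z‖ ≤ R) ∨ (∀ z : ℂ, aeval z h = 0 → ‖z‖ ≤ R) := by
  by_contra hcon
  push Not at hcon
  obtain ⟨⟨ξ, hξ, hξR⟩, η, hη, hηR⟩ := hcon
  have hev : ∀ z : ℂ, aeval z P = (z - ρ) * W.eval z := by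
    intro z
    rw [← eval_map_algebraMap, hW]
    simp
  have hρ : ∀ z : ℂ, aeval z P = 0 → R < ‖z‖ → z = ρ := by
    intro z hz hzR
    rw [hev] at hz
    rcases mul_eq_zero.1 hz with h | h
    · exact sub_eq_zero.1 h
    · exact absurd (hR z h) (not_le.2 hzR)
  have e1 : ξ = ρ := hρ ξ (by rw [hP, map_mul, hξ, zero_mul]) hξR
  have e2 : η = ρ := hρ η (by rw [hP, map_mul, hη, mul_zero]) hηR
  rw [e1] at hξ hξR
  rw [e2] at hη
  have d1 : (X - C ρ) ∣ g.map (algebraMap ℤ ℂ) := by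
    rw [dvd_iff_isRoot, IsRoot.def, eval_map_algebraMap, hξ]
  have d2 : (X - C ρ) ∣ h.map (algebraMap ℤ ℂ) := by
    rw [dvd_iff_isRoot, IsRoot.def, eval_map_algebraMap, hη]
  have d3 : (X - C ρ) * (X - C ρ) ∣ (X - C ρ) * W := by
    rw [← hW, hP, Polynomial.map_mul]
    exact mul_dvd_mul d1 d2
  have d4 : (X - C ρ) ∣ W := by
    rwa [mul_dvd_mul_iff_left (X_sub_C_ne_zero ρ)] at d3
  rw [dvd_iff_isRoot] at d4
  exact absurd (hR ρ d4) (not_le.2 hξR)

end Run7.h565
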