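import Pool.Agent.Run7.h565.Est1
import Pool.Agent.Run7.h565.Irr
import Pool.Agent.Run7.h565.Expo

/-!
# Irreducible polynomials with close roots
-/

set_option autoImplicit false

namespace Run7.h565

open Polynomial Filter

section

variable {p q : ℤ} {N D : ℤ[X]} {F : ℤ → ℤ[X]}

lemma fam_deg (h1 : ∀ (a : ℤ) (x s1 s2 s3 : ℂ), s1 + s2 + s3 = -p →
      s1 * s2 + s1 * s3 + s2 * s3 = q → s1 * s2 * s3 = x →
      aeval x (F a) = aeval s1 (N - C a * D) * aeval s2 (N - C a * D) *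
        aeval s3 (N - C a * D)) (a : ℤ) (hQ : N - C a * D ≠ 0) :
    (F a).natDegree = (N - C a * D).natDegree ∧
      (F a).leadingCoeff = (N - C a * D).leadingCoeff ^ 3 := by
  have h := fam_map p q N D F h1 a
  set Q := N - C a * D with hQd
  have hlc : ((Q.leadingCoeff : ℤ) : ℂ) ^ 3 ≠ 0 := by
    refine pow_ne_zero _ ?_
    exact_mod_cast leadingCoeff_ne_zero.2 hQ
  have hmon : ((Q.aroots ℂ).map fun σ : ℂ => X - C (σ ^ 3 + p * σ ^ 2 + q * σ)).prod.Monic :=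
    monic_multiset_prod_of_monic _ _ (fun σ _ => monic_X_sub_C _)
  have hcard : Multiset.card (Q.aroots ℂ) = Q.natDegree := by
    rw [aroots_def]
    have hsp : (Q.map (algebraMap ℤ ℂ)).Splits := IsAlgClosed.splits _
    rw [← hsp.natDegree_eq_card_roots]
    exact natDegree_map_eq_of_injective (RingHom.injective_int (algebraMap ℤ ℂ)) _
  have hnd : ((Q.aroots ℂ).map fun σ : ℂ => X - C (σ ^ 3 + p * σ ^ 2 + q * σ)).prod.natDegree =
      Q.natDegree := by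
    have := natDegree_multiset_prod_X_sub_C_eq_card
      ((Q.aroots ℂ).map fun σ : ℂ => σ ^ 3 + p * σ ^ 2 + q * σ)
    rw [Multiset.map_map, Multiset.card_map, hcard] at this
    exact this
  constructor
  · rw [← natDegree_map_eq_of_injective (RingHom.injective_int (algebraMap ℤ ℂ)) (F a), h,
      natDegree_C_mul hlc, hnd]
  · have h2 : ((F a).map (algebraMap ℤ ℂ)).leadingCoeff = ((Q.leadingCoeff : ℤ) : ℂ) ^ 3 := by
      rw [h, leadingCoeff_mul, leadingCoeff_C, hmon.leadingCoeff, mul_one]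
    rw [leadingCoeff_map_of_injective (RingHom.injective_int (algebraMap ℤ ℂ))] at h2
    have h3 : (((F a).leadingCoeff : ℤ) : ℂ) = ((Q.leadingCoeff ^ 3 : ℤ) : ℂ) := by
      rw [Int.cast_pow]; exact h2
    exact_mod_cast h3

end

lemma natDegree_X_sub_one_sq : (((X : ℤ[X]) - 1) ^ 2).natDegree = 2 := by
  rw [natDegree_pow]
  have : ((X : ℤ[X]) - 1).natDegree = 1 := natDegree_X_sub_C 1
  rw [this]

lemma monic_X_sub_one_sq : (((X : ℤ[X]) - 1) ^ 2).Monic := (monic_X_sub_C (1 : ℤ)).pow 2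

/-- the first numerator -/
noncomputable def N1 (m : ℕ) : ℤ[X] := θ (2 * m + 2)

/-- the first denominator -/
noncomputable def D1 (m : ℕ) : ℤ[X] := (X - 1) ^ 2 * θ (2 * m + 1)

lemma N1_natDegree (m : ℕ) : (N1 m).natDegree = m + 1 := by
  unfold N1; rw [θ_natDegree]; omega

lemma D1_natDegree (m : ℕ) : (D1 m).natDegree = m + 2 := by
  unfold D1
  rw [natDegree_mul (monic_X_sub_one_sq.ne_zero) (θ_ne_zero _), natDegree_X_sub_one_sq,
    θ_natDegree]
  omega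

lemma D1_leadingCoeff (m : ℕ) : (D1 m).leadingCoeff = (θ (2 * m + 1)).leadingCoeff := by
  unfold D1
  rw [leadingCoeff_mul, monic_X_sub_one_sq.leadingCoeff, one_mul]

lemma N1_ne_zero (m : ℕ) : N1 m ≠ 0 := θ_ne_zero _

lemma D1_ne_zero (m : ℕ) : D1 m ≠ 0 := mul_ne_zero monic_X_sub_one_sq.ne_zero (θ_ne_zero _)

lemma coprime1 (m : ℕ) (z : ℂ) (h1 : aeval z (N1 m) = 0) (h2 : aeval z (D1 m) = 0) : False := by
  unfold N1 at h1
  unfold D1 at h2
  rw [map_mul] at h2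
  rcases mul_eq_zero.1 h2 with h | h
  · have hz : z = 1 := by
      simp only [map_pow, map_sub, aeval_X, map_one] at h
      exact sub_eq_zero.1 (pow_eq_zero_iff two_ne_zero |>.1 h)
    rw [hz] at h1
    exact θ_ev_one_ne _ h1
  · exact coprime_aux (2 * m + 1) z h1 h

lemma Q1_natDegree (m : ℕ) (a : ℤ) (ha : a ≠ 0) :
    (N1 m - C a * D1 m).natDegree = m + 2 ∧
      (N1 m - C a * D1 m).leadingCoeff = -(a * (D1 m).leadingCoeff) := by
  have hd : (C a * D1 m).natDegree = m + 2 := by rw [natDegree_C_mul ha, D1_natDegree]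
  have hlt : (N1 m).natDegree < (C a * D1 m).natDegree := by rw [hd, N1_natDegree]; omega
  have hlt' : (N1 m).degree < (C a * D1 m).degree := degree_lt_degree hlt
  constructor
  · rw [natDegree_sub_eq_right_of_natDegree_lt hlt, hd]
  · rw [leadingCoeff_sub_of_degree_lt' hlt', leadingCoeff_mul, leadingCoeff_C]

/-- uniform bound for the roots of `N - a D` -/
lemma Q1_root_bound (m : ℕ) : ∃ B : ℝ, 0 ≤ B ∧ ∀ a : ℤ, a ≠ 0 → ∀ z : ℂ,
    aeval z (N1 m - C a * D1 m) = 0 → ‖z‖ ≤ 1 + B := by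
  obtain ⟨M1, h1⟩ := exists_coeff_bound (N1 m)
  obtain ⟨M2, h2⟩ := exists_coeff_bound (D1 m)
  refine ⟨M1 + M2, by positivity, fun a ha z hz => ?_⟩
  have hQ : (N1 m - C a * D1 m) ≠ 0 := by
    intro h
    have := (Q1_natDegree m a ha).1
    rw [h] at this
    simp at this
  have hinj := RingHom.injective_int (algebraMap ℤ ℂ)
  refine root_bound ((N1 m - C a * D1 m).map (algebraMap ℤ ℂ))
    ((Polynomial.map_ne_zero_iff hinj).2 hQ) z
    (by rw [IsRoot.def, eval_map_algebraMap, hz]) _ (by positivity) (fun i _ => ?_)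
  have hlc : ((N1 m - C a * D1 m).map (algebraMap ℤ ℂ)).leadingCoeff =
      ((-(a * (D1 m).leadingCoeff) : ℤ) : ℂ) := by
    rw [leadingCoeff_map_of_injective hinj, (Q1_natDegree m a ha).2]
    rfl
  rw [hlc, coeff_map, coeff_sub, coeff_C_mul, algebraMap_int_eq, eq_intCast, Complex.norm_intCast,
    Complex.norm_intCast]
  have hA : 1 ≤ |a| := Int.one_le_abs ha
  have hδ : 1 ≤ |(D1 m).leadingCoeff| := Int.one_le_abs (leadingCoeff_ne_zero.2 (D1_ne_zero m))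
  have e1 : |((N1 m).coeff i - a * (D1 m).coeff i)| ≤ (M1 + M2) * |-(a * (D1 m).leadingCoeff)| := by
    rw [abs_neg, abs_mul]
    have t1 := abs_sub ((N1 m).coeff i) (a * (D1 m).coeff i)
    rw [abs_mul] at t1
    have t2 := h1 i
    have t3 := h2 i
    have t4 : |a| * |(D1 m).coeff i| ≤ |a| * M2 := mul_le_mul_of_nonneg_left t3 (abs_nonneg _)
    have t5 : (M1 : ℤ) ≤ |a| * M1 := le_mul_of_one_le_left (by positivity) hA
    have t6 : |a| * (M1 + M2 : ℤ) ≤ |a| * (M1 + M2) * |(D1 m).leadingCoeff| :=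
      le_mul_of_one_le_right (by positivity) hδ
    nlinarith
  exact_mod_cast e1

theorem main1' (m : ℕ) : (((4 * ((m + 2 : ℕ) : ℝ) - 3) / 6 : ℝ) : EReal) ≤ eStar (m + 2) ∨ m = 0 := by
  by_cases hm : m = 0
  · exact Or.inr hm
  left
  obtain ⟨F, h1, h2⟩ := exists_fam (-2) 1 (N1 m) (D1 m)
  obtain ⟨C1, hC1, A0, hA0, κ, hκ, hest⟩ := est1 (2 * m + 1) (by omega)
  obtain ⟨Mc, hMc, hbound⟩ := fam_bound F h2
  have hδ : (D1 m).leadingCoeff ≠ 0 := leadingCoeff_ne_zero.2 (D1_ne_zero m)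
  have hν : (N1 m).leadingCoeff ≠ 0 := leadingCoeff_ne_zero.2 (N1_ne_zero m)
  -- degrees
  have hdegF : ∀ a : ℤ, a ≠ 0 → (F a).natDegree = m + 2 ∧
      (F a).leadingCoeff = (-(a * (D1 m).leadingCoeff)) ^ 3 := by
    intro a ha
    obtain ⟨e1, e2⟩ := Q1_natDegree m a ha
    have hQ : (N1 m - C a * D1 m) ≠ 0 := by
      intro h
      rw [h] at e1
      simp at e1
    obtain ⟨e3, e4⟩ := fam_deg h1 a hQ
    exact ⟨e3.trans e1, by rw [e4, e2]⟩
  have hF0 : (F 0).coeff (m + 1) = (N1 m).leadingCoeff ^ 3 := by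
    have hQ : N1 m - C (0 : ℤ) * D1 m = N1 m := by simp
    obtain ⟨e3, e4⟩ := fam_deg h1 0 (by rw [hQ]; exact N1_ne_zero m)
    rw [hQ, N1_natDegree] at e3
    rw [hQ] at e4
    rw [← e4, leadingCoeff, e3]
  -- the prime
  obtain ⟨l, hl, hlp⟩ := Nat.exists_infinite_primes ((N1 m).leadingCoeff.natAbs + 1)
  have hlprime : Prime (l : ℤ) := Nat.prime_iff_prime_int.1 hlp
  have hlν : ¬ (l : ℤ) ∣ (N1 m).leadingCoeff ^ 3 := by
    intro h
    have h3 := hlprime.dvd_of_dvd_pow h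
    have := Int.natAbs_dvd_natAbs.2 h3
    rw [Int.natAbs_natCast] at this
    have := Nat.le_of_dvd (Int.natAbs_pos.2 hν) this
    omega
  set s : Set ℤ := {a | ∃ k : ℕ, 1 ≤ k ∧ a = κ * (l : ℤ) ^ k} with hs
  have hκ0 : κ ≠ 0 := by rcases hκ with h | h <;> rw [h] <;> norm_num
  have hs0 : ∀ a ∈ s, a ≠ 0 := by
    rintro a ⟨k, hk, rfl⟩
    exact mul_ne_zero hκ0 (pow_ne_zero _ hlprime.ne_zero)
  obtain ⟨B, hB0, hB⟩ := Q1_root_bound m
  set R : ℝ := (1 + B) ^ 3 + 2 * (1 + B) ^ 2 + (1 + B) with hR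
  have hR0 : 0 ≤ R := by positivity
  -- the roots of `F a` are bounded
  have hFroot : ∀ a : ℤ, a ≠ 0 → ∀ ξ : ℂ, aeval ξ (F a) = 0 → ‖ξ‖ ≤ R := by
    intro a ha ξ hξ
    obtain ⟨σ, hσ, hξσ⟩ := (fam_root h1 a ξ).1 hξ
    have hσB := hB a ha σ hσ
    rw [hξσ]
    have t1 : ‖σ ^ 3 + ((-2 : ℤ) : ℂ) * σ ^ 2 + ((1 : ℤ) : ℂ) * σ‖ ≤
        ‖σ ^ 3‖ + ‖((-2 : ℤ) : ℂ) * σ ^ 2‖ + ‖((1 : ℤ) : ℂ) * σ‖ := norm_add₃_le
    refine t1.trans ?_
    have t2 : ‖((-2 : ℤ) : ℂ)‖ = 2 := by rw [Complex.norm_intCast]; norm_num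
    have t3 : ‖((1 : ℤ) : ℂ)‖ = 1 := by rw [Complex.norm_intCast]; norm_num
    rw [norm_mul, norm_mul, norm_pow, norm_pow, t2, t3, one_mul, hR]
    gcongr
  obtain ⟨M, hMdef⟩ : ∃ M : ℕ, M = ⌈(((D1 m).leadingCoeff ^ 3).natAbs : ℝ) * (1 + R) ^ (m + 2)⌉₊ :=
    ⟨_, rfl⟩
  have H1 : ∀ a ∈ s, ∀ g h : ℤ[X], F a = g * h → 1 ≤ g.natDegree → 1 ≤ h.natDegree →
      (∀ i, |g.coeff i| ≤ M) ∨ (∀ i, |h.coeff i| ≤ M) := by
    intro a ha g h hgh hg1 hh1
    have ha0 := hs0 a ha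
    obtain ⟨e1, e2⟩ := hdegF a ha0
    have hFa0 : F a ≠ 0 := by intro h0; rw [h0] at e1; simp at e1
    obtain ⟨k, hk, hak⟩ := ha
    have hla : (l : ℤ) ∣ a := by
      rw [hak]
      exact Dvd.dvd.mul_left (dvd_pow_self _ (by omega)) _
    have hc : ¬ (l : ℤ) ∣ (F a).coeff (m + 1) := by
      intro hd
      apply hlν
      rw [← hF0]
      have := hla.trans (fam_congr F h2 a (m + 1))
      have h3 := dvd_sub hd this
      rwa [sub_sub_cancel] at h3
    -- bound for a factor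
    have key : ∀ g h : ℤ[X], F a = g * h → ¬ (l : ℤ) ∣ g.leadingCoeff → ∀ i, |g.coeff i| ≤ M := by
      intro g h hgh hgl
      have hlead : g.leadingCoeff * h.leadingCoeff = (-(a * (D1 m).leadingCoeff)) ^ 3 := by
        rw [← leadingCoeff_mul, ← hgh, e2]
      have hdvd : g.leadingCoeff ∣ (l : ℤ) ^ (3 * k) * (D1 m).leadingCoeff ^ 3 := by
        refine ⟨-(κ ^ 3) * h.leadingCoeff, ?_⟩
        have hκ6 : κ ^ 3 * κ ^ 3 = 1 := by rcases hκ with h | h <;> rw [h] <;> norm_num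
        calc (l : ℤ) ^ (3 * k) * (D1 m).leadingCoeff ^ 3 =
              κ ^ 3 * κ ^ 3 * ((l : ℤ) ^ (3 * k) * (D1 m).leadingCoeff ^ 3) := by
                rw [hκ6, one_mul]
          _ = -(κ ^ 3) * (-(a * (D1 m).leadingCoeff)) ^ 3 := by rw [hak]; ring
          _ = g.leadingCoeff * (-(κ ^ 3) * h.leadingCoeff) := by rw [← hlead]; ring
      have hcop : IsCoprime g.leadingCoeff ((l : ℤ) ^ (3 * k)) := by
        refine IsCoprime.pow_right ?_
        exact ((Prime.coprime_iff_not_dvd hlprime).2 hgl).symm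
      have hdvd2 : g.leadingCoeff ∣ (D1 m).leadingCoeff ^ 3 := hcop.dvd_of_dvd_mul_left hdvd
      have hle : |g.leadingCoeff| ≤ (((D1 m).leadingCoeff ^ 3).natAbs : ℤ) := by
        rw [Int.natCast_natAbs]
        have := Int.le_of_dvd (abs_pos.2 (pow_ne_zero 3 hδ)) ((abs_dvd_abs _ _).2 hdvd2)
        exact this
      have hgroot : ∀ z : ℂ, aeval z g = 0 → ‖z‖ ≤ R := by
        intro z hz
        apply hFroot a ha0
        rw [hgh, map_mul, hz, zero_mul]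
      have hgdeg : g.natDegree ≤ m + 2 := by
        rw [← e1]
        exact natDegree_le_of_dvd ⟨h, hgh⟩ hFa0
      obtain ⟨M', hM', hfin⟩ := coeff_le g R hR0 hgroot _ (m + 2) hle hgdeg
      rw [hMdef, ← hM']
      exact hfin
    rcases lead_not_dvd (F a) g h l (m + 1) e1 hc hgh with h3 | h3
    · exact Or.inl (key g h hgh h3)
    · exact Or.inr (key h g (by rw [hgh, mul_comm]) h3)
  have H2 : ∀ ξ : ℂ, {a : ℤ | a ∈ s ∧ aeval ξ (F a) = 0}.Finite := fun ξ =>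
    (fam_root_finite h1 (coprime1 m) ξ).subset (fun a ha => ha.2)
  have hbad := irr_cofinite F s (m + 2) (by omega) (fun a ha => (hdegF a (hs0 a ha)).1) M H1 H2
  -- eventually irreducible
  have hl2 : 1 < l := hlp.one_lt
  have hinjk : Function.Injective fun k : ℕ => κ * (l : ℤ) ^ k := by
    intro k k' hkk
    have := mul_left_cancel₀ hκ0 hkk
    exact Nat.pow_right_injective hlp.two_le (by exact_mod_cast this)
  have hev : ∀ᶠ k : ℕ in atTop, 1 ≤ k ∧
      Irreducible ((F (κ * (l : ℤ) ^ k)).map (algebraMap ℤ ℚ)) := by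
    have hfin : {k : ℕ | κ * (l : ℤ) ^ k ∈ {a ∈ s | ¬ Irreducible ((F a).map (algebraMap ℤ ℚ))}}.Finite :=
      hbad.preimage hinjk.injOn
    have h3 : ∀ᶠ k : ℕ in atTop, k ∉ {k : ℕ | κ * (l : ℤ) ^ k ∈
        {a ∈ s | ¬ Irreducible ((F a).map (algebraMap ℤ ℚ))}} := by
      rw [← Nat.cofinite_eq_atTop]
      exact hfin.eventually_cofinite_notMem
    filter_upwards [h3, eventually_ge_atTop 1] with k hk hk1
    refine ⟨hk1, ?_⟩
    by_contra hcon
    exact hk ⟨⟨k, hk1, rfl⟩, hcon⟩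
  have htend : Tendsto (fun k : ℕ => l ^ k) atTop atTop := tendsto_pow_atTop_atTop_of_one_lt hl2
  have hAev : ∀ᶠ k : ℕ in atTop, A0 ≤ ((l ^ k : ℕ) : ℝ) := by
    exact (tendsto_natCast_atTop_atTop.comp htend).eventually_ge_atTop A0
  refine le_sepExponent' _ (m + 2) 3 Mc (by norm_num) hMc ((4 * ((m + 2 : ℕ) : ℝ) - 3) / 6) C1 hC1 ?_
  refine htend.frequently (Eventually.frequently ?_)
  filter_upwards [hev, hAev] with k ⟨hk1, hirr⟩ hkA
  set a : ℤ := κ * (l : ℤ) ^ k with ha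
  have has : a ∈ s := ⟨k, hk1, rfl⟩
  have ha0 := hs0 a has
  obtain ⟨x, y, hx, hy, hne, hle⟩ := hest _ hkA
  have hroot : ∀ x : ℝ, aeval x (θ (2 * m + 1 + 1)) = κ * ((l ^ k : ℕ) : ℝ) *
      ((x - 1) ^ 2 * aeval x (θ (2 * m + 1))) →
      aeval ((x ^ 3 - 2 * x ^ 2 + x : ℝ) : ℂ) (F a) = 0 := by
    intro x hx
    rw [fam_root h1]
    refine ⟨(x : ℂ), ?_, ?_⟩
    · apply aeval_complex
      have hCa : aeval x (C a : ℤ[X]) = (κ : ℝ) * ((l ^ k : ℕ) : ℝ) := by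
        rw [aeval_C, ha]
        simp
      have hN : aeval x (N1 m) = κ * ((l ^ k : ℕ) : ℝ) * ((x - 1) ^ 2 * aeval x (θ (2 * m + 1))) :=
        hx
      have hD : aeval x (D1 m) = (x - 1) ^ 2 * aeval x (θ (2 * m + 1)) := by
        unfold D1
        simp
      rw [map_sub, map_mul, hCa, hN, hD, sub_self]
    · push_cast
      ring
  refine ⟨‖((x ^ 3 - 2 * x ^ 2 + x : ℝ) : ℂ) - ((y ^ 3 - 2 * y ^ 2 + y : ℝ) : ℂ)‖, ?_, ?_⟩
  · refine ⟨F a, (hdegF a ha0).1, fun i => ?_, separable_of_irreducible _ hirr, hirr, _, _, ?_,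
      hroot x hx, hroot y hy, rfl⟩
    · have h3 := hbound a ha0 i
      have h4 : |a| = ((l ^ k : ℕ) : ℤ) := by
        rw [ha, abs_mul]
        have : |κ| = 1 := by rcases hκ with h | h <;> rw [h] <;> norm_num
        rw [this, one_mul]
        push_cast
        exact abs_of_nonneg (by positivity)
      rw [h4] at h3
      exact_mod_cast h3
    · intro h
      exact hne (by exact_mod_cast h)
  · rw [← Complex.ofReal_sub, Complex.norm_real, Real.norm_eq_abs]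
    refine hle.trans (le_of_eq ?_)
    congr 2
    push_cast
    ring

theorem main1 (n : ℕ) (hn : 3 ≤ n) : (((4 * (n : ℝ) - 3) / 6 : ℝ) : EReal) ≤ eStar n := by
  obtain ⟨m, rfl⟩ : ∃ m, n = m + 2 := ⟨n - 2, by omega⟩
  exact (main1' m).resolve_right (by omega)

end Run7.h565
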