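import Pool.Agent.Run7.h565.Est2
import Pool.Agent.Run7.h565.Main1

/-!
# Monic irreducible polynomials of odd degree with close roots
-/

set_option autoImplicit false

namespace Run7.h565

open Polynomial Filter

/-- one large root, all the others bounded -/
lemma large_root (Q : ℂ[X]) (n : ℕ) (hn : Q.natDegree = n + 1) (A B c0 : ℝ) (hA : 0 < A)
    (hB : 0 ≤ B) (hc0 : 0 < c0) (hcoef : ∀ i, ‖Q.coeff i‖ ≤ B * A)
    (hnext : c0 * A * (n + 1) * ‖Q.leadingCoeff‖ ≤ ‖Q.coeff n‖) (hA2 : 2 ≤ c0 * A) :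
    ∃ σ : ℂ, ∃ h : ℂ[X], Q = (X - C σ) * h ∧
      ∀ z, h.IsRoot z → ‖z‖ ≤ 1 + 2 * (B / c0) / ‖Q.leadingCoeff‖ := by
  have hQ0 : Q ≠ 0 := by rintro rfl; simp at hn
  have hlc : 0 < ‖Q.leadingCoeff‖ := norm_pos_iff.2 (leadingCoeff_ne_zero.2 hQ0)
  have hsp : Q.Splits := IsAlgClosed.splits _
  have hcard : Multiset.card Q.roots = n + 1 := by rw [← hsp.natDegree_eq_card_roots, hn]
  have hnc := hsp.nextCoeff_eq_neg_sum_roots_mul_leadingCoeff
  have hnc2 : Q.nextCoeff = Q.coeff n := by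
    rw [nextCoeff_of_natDegree_pos (by omega), hn]
    rfl
  -- a large root exists
  obtain ⟨σ, hσ, hσA⟩ : ∃ σ ∈ Q.roots, c0 * A ≤ ‖σ‖ := by
    by_contra hcon
    push Not at hcon
    have hsum : ‖Q.roots.sum‖ < (n + 1) * (c0 * A) := by
      have h1 := norm_multiset_sum_le Q.roots
      have h2 : (Q.roots.map fun z => ‖z‖).sum < (Q.roots.map fun _ => c0 * A).sum := by
        apply Multiset.sum_lt_sum_of_nonempty
        · intro h0
          rw [h0] at hcard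
          simp at hcard
        · exact hcon
      rw [Multiset.map_const', Multiset.sum_replicate, hcard, nsmul_eq_mul] at h2
      push_cast at h2
      exact lt_of_le_of_lt h1 h2
    rw [hnc2] at hnc
    rw [hnc, norm_mul, norm_neg] at hnext
    have h3 := mul_lt_mul_of_pos_right hsum hlc
    have h4 : ‖Q.leadingCoeff‖ * ‖Q.roots.sum‖ = ‖Q.roots.sum‖ * ‖Q.leadingCoeff‖ := mul_comm _ _
    nlinarith
  have hdvd : (X - C σ) ∣ Q := dvd_iff_isRoot.2 (mem_roots'.1 hσ).2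
  obtain ⟨h, hQh⟩ := hdvd
  have hh0 : h ≠ 0 := by rintro rfl; rw [mul_zero] at hQh; exact hQ0 hQh
  have hlch : h.leadingCoeff = Q.leadingCoeff := by
    rw [hQh, leadingCoeff_mul, (monic_X_sub_C σ).leadingCoeff, one_mul]
  refine ⟨σ, h, hQh, fun z hz => root_bound h hh0 z hz _ (by positivity) (fun i hi => ?_)⟩
  clear hi
  rw [hlch, div_mul_cancel₀ _ hlc.ne']
  have hσpos : 0 < ‖σ‖ := lt_of_lt_of_le (by positivity) hσA
  have hrec0 : Q.coeff 0 = -(σ * h.coeff 0) := by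
    rw [hQh, sub_mul, coeff_sub, coeff_C_mul]
    simp
  have hrec : ∀ j, Q.coeff (j + 1) = h.coeff j - σ * h.coeff (j + 1) := by
    intro j
    conv_lhs => rw [hQh]
    rw [sub_mul, coeff_sub, coeff_C_mul, coeff_X_mul]
  induction i with
  | zero =>
    have h1 : ‖σ‖ * ‖h.coeff 0‖ ≤ B * A := by
      rw [← norm_mul, ← norm_neg, ← hrec0]; exact hcoef 0
    have h2 : c0 * A * ‖h.coeff 0‖ ≤ B * A :=
      (mul_le_mul_of_nonneg_right hσA (norm_nonneg _)).trans h1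
    have h3 : c0 * ‖h.coeff 0‖ ≤ B := by
      have : (c0 * ‖h.coeff 0‖) * A ≤ B * A := by linarith
      exact le_of_mul_le_mul_right this hA
    rw [mul_div_assoc', le_div_iff₀ hc0]
    nlinarith [norm_nonneg (h.coeff 0)]
  | succ j ih =>
    have e1 : σ * h.coeff (j + 1) = h.coeff j - Q.coeff (j + 1) := by rw [hrec]; ring
    have h1 : ‖σ‖ * ‖h.coeff (j + 1)‖ ≤ 2 * (B / c0) + B * A := by
      rw [← norm_mul, e1]
      exact (norm_sub_le _ _).trans (add_le_add ih (hcoef _))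
    have h2 : c0 * A * ‖h.coeff (j + 1)‖ ≤ 2 * (B / c0) + B * A :=
      (mul_le_mul_of_nonneg_right hσA (norm_nonneg _)).trans h1
    have h3 : B * A = (B / c0) * (c0 * A) := by field_simp
    rw [h3] at h2
    have h4 : 2 * (B / c0) ≤ (B / c0) * (c0 * A) := by
      have : 0 ≤ B / c0 := by positivity
      nlinarith
    have h5 : c0 * A * ‖h.coeff (j + 1)‖ ≤ c0 * A * (2 * (B / c0)) := by linarith
    exact le_of_mul_le_mul_left h5 (by positivity)

/-- the second numerator -/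
noncomputable def N2 (m : ℕ) : ℤ[X] := X * expand ℤ 2 (θ (2 * m + 2))

/-- the second denominator -/
noncomputable def D2 (m : ℕ) : ℤ[X] := (X ^ 2 - 1) * expand ℤ 2 (θ (2 * m + 1))

lemma X_sq_sub_one_monic : ((X : ℤ[X]) ^ 2 - 1).Monic := monic_X_pow_sub_C 1 two_ne_zero

lemma N2_natDegree (m : ℕ) : (N2 m).natDegree = 2 * m + 3 := by
  unfold N2
  have h0 : expand ℤ 2 (θ (2 * m + 2)) ≠ 0 := (expand_ne_zero two_pos).2 (θ_ne_zero _)
  rw [natDegree_X_mul h0, natDegree_expand, θ_natDegree]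
  omega

lemma D2_natDegree (m : ℕ) : (D2 m).natDegree = 2 * m + 2 := by
  unfold D2
  have h0 : expand ℤ 2 (θ (2 * m + 1)) ≠ 0 := (expand_ne_zero two_pos).2 (θ_ne_zero _)
  have h1 : ((X : ℤ[X]) ^ 2 - 1).natDegree = 2 := natDegree_X_pow_sub_C
  rw [natDegree_mul X_sq_sub_one_monic.ne_zero h0, natDegree_expand, θ_natDegree, h1]
  omega

lemma N2_ne_zero (m : ℕ) : N2 m ≠ 0 := by
  intro h
  have := N2_natDegree m
  rw [h] at this
  simp at this

lemma D2_ne_zero (m : ℕ) : D2 m ≠ 0 := by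
  intro h
  have := D2_natDegree m
  rw [h] at this
  simp at this

lemma aeval_N2 {K : Type*} [Field K] (m : ℕ) (z : K) :
    aeval z (N2 m) = z * aeval (z ^ 2) (θ (2 * m + 2)) := by
  unfold N2
  rw [map_mul, aeval_X, expand_aeval]

lemma aeval_D2 {K : Type*} [Field K] (m : ℕ) (z : K) :
    aeval z (D2 m) = (z ^ 2 - 1) * aeval (z ^ 2) (θ (2 * m + 1)) := by
  unfold D2
  rw [map_mul, expand_aeval]
  simp

lemma coprime2 (m : ℕ) (z : ℂ) (h1 : aeval z (N2 m) = 0) (h2 : aeval z (D2 m) = 0) : False := by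
  rw [aeval_N2] at h1
  rw [aeval_D2] at h2
  rcases mul_eq_zero.1 h1 with h | h
  · rw [h] at h2
    have h3 : aeval (0 : ℂ) (θ (2 * m + 1)) = 0 := by simpa using h2
    rw [t_eq] at h3
    exact t_ne_zero _ (by exact_mod_cast h3)
  · rcases mul_eq_zero.1 h2 with h' | h'
    · rw [sub_eq_zero.1 h'] at h
      exact θ_ev_one_ne _ h
    · exact coprime_aux (2 * m + 1) _ h h'

lemma Q2_natDegree (m : ℕ) (a : ℤ) :
    (N2 m - C a * D2 m).natDegree = 2 * m + 3 ∧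
      (N2 m - C a * D2 m).leadingCoeff = (N2 m).leadingCoeff := by
  have hlt : (C a * D2 m).natDegree < (N2 m).natDegree := by
    refine (natDegree_C_mul_le _ _).trans_lt ?_
    rw [D2_natDegree, N2_natDegree]
    omega
  constructor
  · rw [natDegree_sub_eq_left_of_natDegree_lt hlt, N2_natDegree]
  · exact leadingCoeff_sub_of_degree_lt (degree_lt_degree hlt)

lemma Q2_large_root (m : ℕ) : ∃ B : ℝ, 0 ≤ B ∧ ∃ a0 : ℤ, 0 < a0 ∧ ∀ a : ℤ, a0 ≤ a →
    ∃ σ : ℂ, ∃ h : ℂ[X], (N2 m - C a * D2 m).map (algebraMap ℤ ℂ) = (X - C σ) * h ∧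
      ∀ z, h.IsRoot z → ‖z‖ ≤ 1 + B := by
  obtain ⟨M1, h1⟩ := exists_coeff_bound (N2 m)
  obtain ⟨M2, h2⟩ := exists_coeff_bound (D2 m)
  have hinj := RingHom.injective_int (algebraMap ℤ ℂ)
  set L : ℝ := |((N2 m).leadingCoeff : ℝ)| with hL
  have hLpos : 1 ≤ L := by
    have := Int.one_le_abs (leadingCoeff_ne_zero.2 (N2_ne_zero m))
    rw [hL]
    exact_mod_cast this
  have hδ : 1 ≤ |(D2 m).leadingCoeff| := Int.one_le_abs (leadingCoeff_ne_zero.2 (D2_ne_zero m))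
  set c0 : ℝ := 1 / (2 * (2 * m + 3) * L) with hc0
  have hc0pos : 0 < c0 := by positivity
  refine ⟨2 * ((M1 + M2) / c0) / L, by positivity, max (2 * M1 + 1) (⌈2 / c0⌉ + 1), by positivity,
    fun a ha => ?_⟩
  have ha1 : 2 * (M1 : ℤ) + 1 ≤ a := (le_max_left _ _).trans ha
  have ha2 : ⌈2 / c0⌉ + 1 ≤ a := (le_max_right _ _).trans ha
  have ha0 : 1 ≤ a := by linarith [Int.natCast_nonneg M1]
  have ha0' : (1 : ℝ) ≤ a := by exact_mod_cast ha0
  have hmapdeg : ((N2 m - C a * D2 m).map (algebraMap ℤ ℂ)).natDegree = (2 * m + 2) + 1 := by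
    rw [natDegree_map_eq_of_injective hinj, (Q2_natDegree m a).1]
  have hlc : ((N2 m - C a * D2 m).map (algebraMap ℤ ℂ)).leadingCoeff =
      (((N2 m).leadingCoeff : ℤ) : ℂ) := by
    rw [leadingCoeff_map_of_injective hinj, (Q2_natDegree m a).2]
    rfl
  have hcoefi : ∀ i, ‖((N2 m - C a * D2 m).map (algebraMap ℤ ℂ)).coeff i‖ =
      |((N2 m).coeff i : ℝ) - a * ((D2 m).coeff i : ℝ)| := by
    intro i
    rw [coeff_map, coeff_sub, coeff_C_mul, algebraMap_int_eq, eq_intCast, Complex.norm_intCast]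
    push_cast
    rfl
  have hlcn : ‖((N2 m - C a * D2 m).map (algebraMap ℤ ℂ)).leadingCoeff‖ = L := by
    rw [hlc, Complex.norm_intCast]
  have h1' : ∀ i, |((N2 m).coeff i : ℝ)| ≤ M1 := fun i => by exact_mod_cast h1 i
  have h2' : ∀ i, |((D2 m).coeff i : ℝ)| ≤ M2 := fun i => by exact_mod_cast h2 i
  have := large_root ((N2 m - C a * D2 m).map (algebraMap ℤ ℂ)) (2 * m + 2) hmapdeg a (M1 + M2) c0
    (by linarith) (by positivity) hc0pos (fun i => ?_) ?_ ?_
  · rw [hlcn] at this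
    exact this
  · rw [hcoefi]
    have t1 := abs_sub ((N2 m).coeff i : ℝ) (a * ((D2 m).coeff i : ℝ))
    rw [abs_mul, abs_of_pos (by linarith : (0 : ℝ) < a)] at t1
    have t2 := h1' i
    have t3 := mul_le_mul_of_nonneg_left (h2' i) (by linarith : (0 : ℝ) ≤ a)
    have t4 : (M1 : ℝ) ≤ M1 * a := le_mul_of_one_le_right (by positivity) ha0'
    linarith
  · rw [hcoefi, hlcn]
    have hD : (D2 m).coeff (2 * m + 2) = (D2 m).leadingCoeff := by
      rw [leadingCoeff, D2_natDegree]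
    have hδ' : (1 : ℝ) ≤ |((D2 m).coeff (2 * m + 2) : ℝ)| := by rw [hD]; exact_mod_cast hδ
    have e1 : c0 * a * ((2 * m + 2 : ℕ) + 1) * L = a / 2 := by
      rw [hc0]; push_cast; field_simp; ring
    rw [e1]
    have t1 := abs_sub_abs_le_abs_sub (a * ((D2 m).coeff (2 * m + 2) : ℝ))
      ((N2 m).coeff (2 * m + 2) : ℝ)
    rw [abs_sub_comm, abs_mul, abs_of_pos (by linarith : (0 : ℝ) < a)] at t1
    have t2 := h1' (2 * m + 2)
    have t3 : (a : ℝ) * 1 ≤ a * |((D2 m).coeff (2 * m + 2) : ℝ)| :=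
      mul_le_mul_of_nonneg_left hδ' (by linarith)
    have t4 : 2 * (M1 : ℝ) + 1 ≤ a := by exact_mod_cast ha1
    linarith
  · have h3 : 2 / c0 ≤ a := by
      have := Int.le_ceil (2 / c0)
      have h4 : ((⌈2 / c0⌉ : ℤ) : ℝ) + 1 ≤ a := by exact_mod_cast ha2
      linarith
    rw [div_le_iff₀ hc0pos] at h3
    linarith

section

variable {p q : ℤ} {N D : ℤ[X]} {F : ℤ → ℤ[X]}

lemma aeval_intNorm (P : ℤ[X]) (h : 1 ≤ P.natDegree) (x : ℂ) :
    aeval ((P.leadingCoeff : ℂ) * x) (integralNormalization P) =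
      (P.leadingCoeff : ℂ) ^ (P.natDegree - 1) * aeval x P := by
  have := integralNormalization_eval₂_leadingCoeff_mul h (algebraMap ℤ ℂ) x
  rw [aeval_def, aeval_def]
  exact this

lemma G_map (h1 : ∀ (a : ℤ) (x s1 s2 s3 : ℂ), s1 + s2 + s3 = -p →
      s1 * s2 + s1 * s3 + s2 * s3 = q → s1 * s2 * s3 = x →
      aeval x (F a) = aeval s1 (N - C a * D) * aeval s2 (N - C a * D) *
        aeval s3 (N - C a * D)) (a : ℤ) (hQ : N - C a * D ≠ 0)
    (hdeg : 1 ≤ (N - C a * D).natDegree) :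
    (integralNormalization (F a)).map (algebraMap ℤ ℂ) =
      (((N - C a * D).aroots ℂ).map fun σ : ℂ =>
        X - C (((F a).leadingCoeff : ℂ) * (σ ^ 3 + p * σ ^ 2 + q * σ))).prod := by
  obtain ⟨e1, e2⟩ := fam_deg h1 a hQ
  have hmap := fam_map p q N D F h1 a
  set Q := N - C a * D with hQd
  have hlc0 : ((F a).leadingCoeff : ℂ) ≠ 0 := by
    rw [e2]
    exact_mod_cast pow_ne_zero 3 (leadingCoeff_ne_zero.2 hQ)
  have hcard : Multiset.card (Q.aroots ℂ) = Q.natDegree := by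
    rw [aroots_def]
    have hsp : (Q.map (algebraMap ℤ ℂ)).Splits := IsAlgClosed.splits _
    rw [← hsp.natDegree_eq_card_roots]
    exact natDegree_map_eq_of_injective (RingHom.injective_int (algebraMap ℤ ℂ)) _
  apply Polynomial.funext
  intro x
  obtain ⟨y, rfl⟩ : ∃ y, x = ((F a).leadingCoeff : ℂ) * y := ⟨x / (F a).leadingCoeff, by field_simp⟩
  rw [eval_map_algebraMap, aeval_intNorm _ (by rw [e1]; exact hdeg), ← eval_map_algebraMap, hmap,
    eval_mul, eval_C, eval_multiset_prod, eval_multiset_prod, Multiset.map_map, Multiset.map_map]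
  have e3 : (((F a).leadingCoeff : ℤ) : ℂ) = ((Q.leadingCoeff : ℤ) : ℂ) ^ 3 := by
    rw [e2]; push_cast; rfl
  rw [← e3, ← mul_assoc, ← pow_succ, e1, Nat.sub_add_cancel hdeg, ← hcard]
  have : ∀ s : Multiset ℂ, ((F a).leadingCoeff : ℂ) ^ (Multiset.card s) *
      (s.map ((eval y) ∘ fun σ : ℂ => X - C (σ ^ 3 + p * σ ^ 2 + q * σ))).prod =
      (s.map ((eval (((F a).leadingCoeff : ℂ) * y)) ∘ fun σ : ℂ =>
        X - C (((F a).leadingCoeff : ℂ) * (σ ^ 3 + p * σ ^ 2 + q * σ)))).prod := by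
    intro s
    induction s using Multiset.induction_on with
    | empty => simp
    | cons σ s ih =>
      rw [Multiset.card_cons, Multiset.map_cons, Multiset.map_cons, Multiset.prod_cons,
        Multiset.prod_cons, ← ih, pow_succ]
      simp only [Function.comp_apply, eval_sub, eval_X, eval_C]
      ring
  exact this _

end

theorem main2' (m : ℕ) : (((2 * ((2 * m + 3 : ℕ) : ℝ) - 2) / 3 : ℝ) : EReal) ≤
    eZeroStar (2 * m + 3) := by
  obtain ⟨F, h1, h2⟩ := exists_fam 0 (-1) (N2 m) (D2 m)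
  obtain ⟨C1, hC1, A0, hA0, hest⟩ := est2 (2 * m + 1)
  obtain ⟨Mc, hMc, hbound⟩ := fam_bound F h2
  have hν : (N2 m).leadingCoeff ≠ 0 := leadingCoeff_ne_zero.2 (N2_ne_zero m)
  set lam : ℤ := (N2 m).leadingCoeff ^ 3 with hlam
  have hlam0 : lam ≠ 0 := pow_ne_zero _ hν
  have hlamC : (lam : ℂ) ≠ 0 := by exact_mod_cast hlam0
  have hQ0 : ∀ a : ℤ, N2 m - C a * D2 m ≠ 0 := by
    intro a h
    have := (Q2_natDegree m a).1
    rw [h] at this
    simp at this
  have hdegF : ∀ a : ℤ, (F a).natDegree = 2 * m + 3 ∧ (F a).leadingCoeff = lam := by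
    intro a
    obtain ⟨e1, e2⟩ := Q2_natDegree m a
    obtain ⟨e3, e4⟩ := fam_deg h1 a (hQ0 a)
    exact ⟨e3.trans e1, by rw [e4, e2]⟩
  have hF0 : ∀ a : ℤ, F a ≠ 0 := by
    intro a h
    have := (hdegF a).1
    rw [h] at this
    simp at this
  set G : ℤ → ℤ[X] := fun a => integralNormalization (F a) with hG
  have hGdeg : ∀ a, (G a).natDegree = 2 * m + 3 := by
    intro a
    rw [hG]
    simp only
    rw [natDegree_integralNormalization, (hdegF a).1]
  have hGmonic : ∀ a, (G a).Monic := fun a => monic_integralNormalization (hF0 a)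
  have hGev : ∀ (a : ℤ) (x : ℂ), aeval ((lam : ℂ) * x) (G a) =
      (lam : ℂ) ^ (2 * m + 2) * aeval x (F a) := by
    intro a x
    have := aeval_intNorm (F a) (by rw [(hdegF a).1]; omega) x
    rw [(hdegF a).1, (hdegF a).2] at this
    exact this
  obtain ⟨B, hB0, a0, ha0, hlarge⟩ := Q2_large_root m
  set s : Set ℤ := {a | a0 ≤ a} with hs
  set R : ℝ := |(lam : ℝ)| * ((1 + B) ^ 3 + (1 + B)) with hR
  have hR0 : 0 ≤ R := by positivity
  obtain ⟨M, hMdef⟩ : ∃ M : ℕ, M = ⌈((1 : ℕ) : ℝ) * (1 + R) ^ (2 * m + 3)⌉₊ := ⟨_, rfl⟩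
  have H1 : ∀ a ∈ s, ∀ g h : ℤ[X], G a = g * h → 1 ≤ g.natDegree → 1 ≤ h.natDegree →
      (∀ i, |g.coeff i| ≤ M) ∨ (∀ i, |h.coeff i| ≤ M) := by
    intro a ha g h hgh hg1 hh1
    obtain ⟨σ, h', hQh, hroots⟩ := hlarge a ha
    have hQmap0 : (N2 m - C a * D2 m).map (algebraMap ℤ ℂ) ≠ 0 :=
      (Polynomial.map_ne_zero_iff (RingHom.injective_int (algebraMap ℤ ℂ))).2 (hQ0 a)
    have har : (N2 m - C a * D2 m).aroots ℂ = σ ::ₘ h'.roots := by
      rw [aroots_def, hQh, roots_mul (by rw [← hQh]; exact hQmap0), roots_X_sub_C]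
      rfl
    have hGm := G_map h1 a (hQ0 a) (by rw [(Q2_natDegree m a).1]; omega)
    rw [har, Multiset.map_cons, Multiset.prod_cons, (hdegF a).2] at hGm
    have hh'0 : h' ≠ 0 := by
      rintro rfl
      rw [mul_zero] at hQh
      exact hQmap0 hQh
    have hbd := one_factor_bounded (G a) g h _ _ hGm R (fun z hz => ?_) hgh
    · have key : ∀ g h : ℤ[X], G a = g * h → (∀ z : ℂ, aeval z g = 0 → ‖z‖ ≤ R) →
          ∀ i, |g.coeff i| ≤ M := by
        intro g h hgh hgr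
        have hlead : g.leadingCoeff * h.leadingCoeff = 1 := by
          rw [← leadingCoeff_mul, ← hgh, (hGmonic a).leadingCoeff]
        have hle : |g.leadingCoeff| ≤ ((1 : ℕ) : ℤ) := by
          have := Int.isUnit_iff.1 (IsUnit.of_mul_eq_one _ hlead)
          rcases this with h | h <;> rw [h] <;> norm_num
        have hgdeg : g.natDegree ≤ 2 * m + 3 := by
          rw [← hGdeg a]
          exact natDegree_le_of_dvd ⟨h, hgh⟩ (hGmonic a).ne_zero
        obtain ⟨M', hM', hfin⟩ := coeff_le g R hR0 hgr 1 (2 * m + 3) hle hgdeg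
        rw [hMdef, ← hM']
        exact hfin
      rcases hbd with h3 | h3
      · exact Or.inl (key g h hgh h3)
      · exact Or.inr (key h g (by rw [hgh, mul_comm]) h3)
    · have hz' : z ∈ (h'.roots.map fun σ : ℂ =>
          (lam : ℂ) * (σ ^ 3 + ((0 : ℤ) : ℂ) * σ ^ 2 + ((-1 : ℤ) : ℂ) * σ)) := by
        have hmm := roots_multiset_prod_X_sub_C (h'.roots.map fun σ : ℂ =>
          (lam : ℂ) * (σ ^ 3 + ((0 : ℤ) : ℂ) * σ ^ 2 + ((-1 : ℤ) : ℂ) * σ))
        rw [Multiset.map_map] at hmm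
        rw [← hmm]
        refine mem_roots'.2 ⟨?_, hz⟩
        exact (monic_multiset_prod_of_monic _ _ (fun σ _ => monic_X_sub_C _)).ne_zero
      obtain ⟨τ, hτ, rfl⟩ := Multiset.mem_map.1 hz'
      have hτB := hroots τ (mem_roots'.1 hτ).2
      rw [norm_mul, Complex.norm_intCast, hR]
      refine mul_le_mul_of_nonneg_left ?_ (abs_nonneg _)
      have t1 : ‖τ ^ 3 + ((0 : ℤ) : ℂ) * τ ^ 2 + ((-1 : ℤ) : ℂ) * τ‖ ≤ ‖τ ^ 3‖ + ‖τ‖ := by
        have : τ ^ 3 + ((0 : ℤ) : ℂ) * τ ^ 2 + ((-1 : ℤ) : ℂ) * τ = τ ^ 3 - τ := by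
          push_cast; ring
        rw [this]
        exact norm_sub_le _ _
      refine t1.trans ?_
      rw [norm_pow]
      gcongr
  have H2 : ∀ ξ : ℂ, {a : ℤ | a ∈ s ∧ aeval ξ (G a) = 0}.Finite := by
    intro ξ
    refine (fam_root_finite h1 (coprime2 m) (ξ / lam)).subset ?_
    rintro a ⟨-, ha⟩
    have h3 := hGev a (ξ / lam)
    rw [mul_div_cancel₀ _ hlamC, ha] at h3
    exact (mul_eq_zero.1 h3.symm).resolve_left (pow_ne_zero _ hlamC)
  have hbad := irr_cofinite G s (2 * m + 3) (by omega) (fun a _ => hGdeg a) M H1 H2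
  have hev : ∀ᶠ k : ℕ in atTop, 1 ≤ k ∧ Irreducible ((G (k : ℤ)).map (algebraMap ℤ ℚ)) := by
    have hfin : {k : ℕ | (k : ℤ) ∈ {a ∈ s | ¬ Irreducible ((G a).map (algebraMap ℤ ℚ))}}.Finite :=
      hbad.preimage Nat.cast_injective.injOn
    have h3 : ∀ᶠ k : ℕ in atTop, k ∉ {k : ℕ | (k : ℤ) ∈
        {a ∈ s | ¬ Irreducible ((G a).map (algebraMap ℤ ℚ))}} := by
      rw [← Nat.cofinite_eq_atTop]
      exact hfin.eventually_cofinite_notMem
    filter_upwards [h3, eventually_ge_atTop 1, eventually_ge_atTop a0.toNat] with k hk hk1 hk2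
    refine ⟨hk1, ?_⟩
    by_contra hcon
    exact hk ⟨Int.toNat_le.1 hk2, hcon⟩
  have hAev : ∀ᶠ k : ℕ in atTop, A0 ≤ (k : ℝ) := tendsto_natCast_atTop_atTop.eventually_ge_atTop A0
  obtain ⟨K, hKpos, hK⟩ : ∃ K : ℕ, 0 < K ∧ ∀ a : ℤ, a ≠ 0 → ∀ i, |(G a).coeff i| ≤ K * |a| ^ 3 := by
    refine ⟨Mc * (lam.natAbs) ^ (2 * m + 2), by positivity, fun a ha i => ?_⟩
    have hA : 1 ≤ |a| := Int.one_le_abs ha
    have hl1 : 1 ≤ |lam| := Int.one_le_abs hlam0
    have hpos1 : (1 : ℤ) ≤ (Mc : ℤ) * |lam| ^ (2 * m + 2) * |a| ^ 3 := by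
      have h1 : (1 : ℤ) ≤ Mc := by exact_mod_cast hMc
      have h2 : (1 : ℤ) ≤ |lam| ^ (2 * m + 2) := one_le_pow₀ hl1
      have h3 : (1 : ℤ) ≤ |a| ^ 3 := one_le_pow₀ hA
      nlinarith [mul_pos (by linarith : (0 : ℤ) < Mc) (by linarith : (0 : ℤ) < |lam| ^ (2 * m + 2)),
        mul_le_mul h1 h2 (by norm_num) (by linarith)]
    push_cast
    rw [hG]
    simp only
    rw [integralNormalization_coeff]
    split_ifs with hi
    · rw [abs_one]; exact hpos1
    · rw [(hdegF a).1, (hdegF a).2, abs_mul, abs_pow]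
      have h3 := hbound a ha i
      have h4 : |lam| ^ (2 * m + 3 - 1 - i) ≤ |lam| ^ (2 * m + 2) :=
        pow_le_pow_right₀ hl1 (by omega)
      calc |(F a).coeff i| * |lam| ^ (2 * m + 3 - 1 - i) ≤ (Mc * |a| ^ 3) * |lam| ^ (2 * m + 2) :=
            mul_le_mul h3 h4 (by positivity) (by positivity)
        _ = _ := by ring
  have hlamR : (0 : ℝ) < |(lam : ℝ)| := abs_pos.2 (by exact_mod_cast hlam0)
  refine le_sepExponent' _ (2 * m + 3) 3 K (by norm_num) hKpos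
    ((2 * ((2 * m + 3 : ℕ) : ℝ) - 2) / 3) (|(lam : ℝ)| * C1) (by positivity) ?_
  refine Eventually.frequently ?_
  filter_upwards [hev, hAev] with k ⟨hk1, hirr⟩ hkA
  obtain ⟨x, y, hx, hy, hne, hle⟩ := hest _ hkA
  have hroot : ∀ x : ℝ, x * aeval (x ^ 2) (θ (2 * m + 1 + 1)) = (k : ℝ) *
      ((x ^ 2 - 1) * aeval (x ^ 2) (θ (2 * m + 1))) →
      aeval (((lam : ℝ) * (x ^ 3 - x) : ℝ) : ℂ) (G k) = 0 := by
    intro x hx
    have h3 : (((lam : ℝ) * (x ^ 3 - x) : ℝ) : ℂ) = (lam : ℂ) * ((x ^ 3 - x : ℝ) : ℂ) := by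
      push_cast; ring
    rw [h3, hGev]
    have h4 : aeval (((x ^ 3 - x : ℝ)) : ℂ) (F k) = 0 := by
      rw [fam_root h1]
      refine ⟨(x : ℂ), ?_, ?_⟩
      · apply aeval_complex
        have hCa : aeval x (C (k : ℤ) : ℤ[X]) = (k : ℝ) := by
          rw [aeval_C]
          simp
        rw [map_sub, map_mul, hCa, aeval_N2, aeval_D2]
        exact sub_eq_zero.2 hx
      · push_cast
        ring
    rw [h4, mul_zero]
  refine ⟨‖(((lam : ℝ) * (x ^ 3 - x) : ℝ) : ℂ) - (((lam : ℝ) * (y ^ 3 - y) : ℝ) : ℂ)‖, ?_, ?_⟩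
  · refine ⟨G k, hGdeg k, fun i => ?_, separable_of_irreducible _ hirr, ⟨hGmonic k, hirr⟩, _, _,
      ?_, hroot x hx, hroot y hy, rfl⟩
    · have h3 := hK k (by exact_mod_cast (by omega : k ≠ 0)) i
      have h4 : |(k : ℤ)| = k := abs_of_nonneg (by positivity)
      rw [h4] at h3
      exact_mod_cast h3
    · intro h
      have h3 : (lam : ℝ) * (x ^ 3 - x) = (lam : ℝ) * (y ^ 3 - y) := by exact_mod_cast h
      exact hne (mul_left_cancel₀ (by exact_mod_cast hlam0) h3)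
  · rw [← Complex.ofReal_sub, Complex.norm_real, Real.norm_eq_abs, ← mul_sub, abs_mul, mul_assoc]
    refine mul_le_mul_of_nonneg_left (hle.trans (le_of_eq ?_)) (abs_nonneg _)
    congr 2
    push_cast
    ring

theorem main2 (n : ℕ) (hn : 3 ≤ n) (hodd : Odd n) :
    (((2 * (n : ℝ) - 2) / 3 : ℝ) : EReal) ≤ eZeroStar n := by
  obtain ⟨k, hk⟩ := hodd
  obtain ⟨m, rfl⟩ : ∃ m, n = 2 * m + 3 := ⟨k - 1, by omega⟩
  exact main2' m

end Run7.h565
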