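import Pool.Agent.Run7.h565.Scale

/-!
# Irreducible polynomials with close roots: the exponent `(2 n - 1) / 3`
-/

set_option autoImplicit false

namespace Run7.h565

open Polynomial Filter ComplexConjugate

lemma exists_data (m : ℕ) : ∃ N M : ℤ[X], N.natDegree = m + 2 ∧
    N.leadingCoeff = (nn (m + 1)).leadingCoeff ∧ M.natDegree = m + 1 ∧
    (∀ s x : ℂ, s ^ 2 = 2 → aeval (s * x) N = s ^ (m + 2) * nx (m + 1) x) ∧
    (∀ s x : ℂ, s ^ 2 = 2 → aeval (s * x) M = s ^ (m + 1) * mx (m + 1) x) := by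
  obtain ⟨N, h1, h2, h3⟩ := exists_scale (nn (m + 1)) (m + 2) (deg_nm (m + 1)).1 (par (m + 1)).1
  obtain ⟨M, h4, -, h6⟩ := exists_scale (mm (m + 1)) (m + 1) (deg_nm (m + 1)).2 (par (m + 1)).2
  exact ⟨N, M, h1, h2, h4, h3, h6⟩

/-- a factor with a pair of roots near `√2` has a large leading coefficient -/
lemma lead_large (g : ℤ[X]) (hg0 : g ≠ 0) (s : ℂ) (hs : s ^ 2 = 2) (h1 : aeval s g ≠ 0)
    (h2 : aeval (-s) g ≠ 0) (z1 z2 : ℂ) (hz : z1 ≠ z2) (hz1 : aeval z1 g = 0)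
    (hz2 : aeval z2 g = 0) (R t : ℝ) (hR : 1 ≤ R) (ht : 0 ≤ t) (hz1t : ‖s - z1‖ ≤ t)
    (hz2t : ‖s - z2‖ ≤ t) (n : ℕ) (hn : g.natDegree ≤ n)
    (hRs : ∀ z : ℂ, aeval z g = 0 → ‖s - z‖ ≤ R ∧ ‖-s - z‖ ≤ R) :
    1 ≤ (|(g.leadingCoeff : ℝ)| * (t * R ^ n)) ^ 2 := by
  have hinj := RingHom.injective_int (algebraMap ℤ ℂ)
  set G := g.map (algebraMap ℤ ℂ) with hG
  have hG0 : G ≠ 0 := (Polynomial.map_ne_zero_iff hinj).2 hg0
  have hGlc : ‖G.leadingCoeff‖ = |(g.leadingCoeff : ℝ)| := by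
    rw [hG, leadingCoeff_map_of_injective hinj, algebraMap_int_eq, eq_intCast,
      Complex.norm_intCast]
  have hGdeg : G.natDegree ≤ n := by
    rw [hG, natDegree_map_eq_of_injective hinj]; exact hn
  have hGev : ∀ z, G.eval z = aeval z g := fun z => by rw [hG, eval_map_algebraMap]
  obtain ⟨W1, hW1⟩ := dvd_iff_isRoot.2 (show G.IsRoot z1 by rw [IsRoot.def, hGev, hz1])
  have hW1r : W1.IsRoot z2 := by
    have h3 := hGev z2
    rw [hz2, hW1, eval_mul, eval_sub, eval_X, eval_C] at h3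
    exact (mul_eq_zero.1 h3).resolve_left (sub_ne_zero.2 hz.symm)
  obtain ⟨W, hW⟩ := dvd_iff_isRoot.2 hW1r
  have hGW : G = (X - C z1) * ((X - C z2) * W) := by rw [hW1, hW]
  have hW0 : W ≠ 0 := by
    rintro rfl
    rw [mul_zero, mul_zero] at hGW
    exact hG0 hGW
  have hWlc : W.leadingCoeff = G.leadingCoeff := by
    rw [hGW, leadingCoeff_mul, leadingCoeff_mul, leadingCoeff_X_sub_C, leadingCoeff_X_sub_C]
    ring
  have hWdeg : W.natDegree ≤ n := by
    refine (natDegree_le_of_dvd ?_ hG0).trans hGdeg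
    exact ⟨(X - C z1) * (X - C z2), by rw [hGW]; ring⟩
  have hWroot : ∀ z, W.IsRoot z → aeval z g = 0 := by
    intro z hz
    rw [← hGev, hGW, eval_mul, eval_mul, hz.eq_zero]
    ring
  have e1 : ‖W.eval s‖ ≤ |(g.leadingCoeff : ℝ)| * R ^ n := by
    refine (eval_le_of_roots W s R (by linarith) (fun z hz => (hRs z (hWroot z hz)).1)).trans ?_
    rw [hWlc, hGlc]
    exact mul_le_mul_of_nonneg_left (pow_le_pow_right₀ hR hWdeg) (abs_nonneg _)
  have e2 : ‖aeval (-s) g‖ ≤ |(g.leadingCoeff : ℝ)| * R ^ n := by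
    rw [← hGev]
    refine (eval_le_of_roots G (-s) R (by linarith) (fun z hz => ?_)).trans ?_
    · refine (hRs z ?_).2
      rw [← hGev]; exact hz
    · rw [hGlc]
      exact mul_le_mul_of_nonneg_left (pow_le_pow_right₀ hR hGdeg) (abs_nonneg _)
  have e3 : ‖aeval s g‖ ≤ t * (t * (|(g.leadingCoeff : ℝ)| * R ^ n)) := by
    rw [← hGev, hGW, eval_mul, eval_mul, eval_sub, eval_sub, eval_X, eval_C, eval_C, norm_mul,
      norm_mul]
    exact mul_le_mul hz1t (mul_le_mul hz2t e1 (norm_nonneg _) ht) (by positivity) ht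
  have e4 := norm_sqrt g s hs h1 h2
  calc 1 ≤ ‖aeval s g‖ * ‖aeval (-s) g‖ := e4
    _ ≤ (t * (t * (|(g.leadingCoeff : ℝ)| * R ^ n))) * (|(g.leadingCoeff : ℝ)| * R ^ n) :=
        mul_le_mul e3 e2 (norm_nonneg _) (by positivity)
    _ = _ := by ring

lemma simple_pair (m : ℕ) (A b : ℂ) (hb : b ≠ 0) (x y : ℂ) (him : x.im ≠ 0)
    (hx : A * nx (m + 1) x = b * mx (m + 1) x) (hy : A * nx (m + 1) y = b * mx (m + 1) y)
    (hf : y ^ 3 - 3 * y = x ^ 3 - 3 * x) : y = x := by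
  obtain ⟨G, -, -, hid⟩ := key3 (m + 1)
  have hreal : ∀ r : ℝ, x ≠ (r : ℂ) := by
    intro r h0
    apply him
    rw [h0, Complex.ofReal_im]
  have hx4 : x ^ 2 ≠ 4 := by
    intro h0
    have h1 : (x - 2) * (x + 2) = 0 := by linear_combination h0
    rcases mul_eq_zero.1 h1 with h | h
    · exact hreal 2 (by push_cast; linear_combination h)
    · exact hreal (-2) (by push_cast; linear_combination h)
  have hy4 : y ^ 2 ≠ 4 := by
    intro h0
    have h1 : (y - 2) * (y + 2) = 0 := by linear_combination h0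
    rcases mul_eq_zero.1 h1 with h | h
    · have hy2 : y = 2 := by linear_combination h
      rw [hy2] at hf
      have h3 : (x - 2) * (x + 1) ^ 2 = 0 := by linear_combination -hf
      rcases mul_eq_zero.1 h3 with h4 | h4
      · exact hreal 2 (by push_cast; linear_combination h4)
      · exact hreal (-1) (by push_cast; linear_combination (pow_eq_zero_iff two_ne_zero).1 h4)
    · have hy2 : y = -2 := by linear_combination h
      rw [hy2] at hf
      have h3 : (x + 2) * (x - 1) ^ 2 = 0 := by linear_combination -hf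
      rcases mul_eq_zero.1 h3 with h4 | h4
      · exact hreal (-2) (by push_cast; linear_combination h4)
      · exact hreal 1 (by push_cast; linear_combination (pow_eq_zero_iff two_ne_zero).1 h4)
  have hB : nx (m + 1) x * mx (m + 1) y - nx (m + 1) y * mx (m + 1) x = 0 := by
    have : b * (nx (m + 1) x * mx (m + 1) y - nx (m + 1) y * mx (m + 1) x) = 0 := by
      linear_combination nx (m + 1) y * hx - nx (m + 1) x * hy
    exact (mul_eq_zero.1 this).resolve_left hb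
  by_contra hne
  have hxy : x - y ≠ 0 := sub_ne_zero.2 (Ne.symm hne)
  rw [hid x y hx4 hy4] at hB
  have hB' := (mul_eq_zero.1 hB).resolve_left hxy
  have hk : x ^ 2 + x * y + y ^ 2 - 3 = 0 := by
    have : (x - y) * (x ^ 2 + x * y + y ^ 2 - 3) = 0 := by linear_combination -hf
    exact (mul_eq_zero.1 this).resolve_left hxy
  rw [hk, zero_mul, add_zero] at hB'
  have hdl0 : ((dl (m + 1) : ℤ) : ℂ) ≠ 0 := by exact_mod_cast (all_ab (m + 1)).2.2.1.ne'
  have h1 := (mul_eq_zero.1 hB').resolve_left hdl0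
  have h2 : (x + y) ^ 2 - 4 = 0 := pow_eq_zero_iff (Nat.succ_ne_zero m) |>.1 h1
  have h3 : (x - y) ^ 2 = 0 := by linear_combination (-3) * h2 + 4 * hk
  exact hxy (pow_eq_zero_iff two_ne_zero |>.1 h3)

theorem main3' (m : ℕ) (hm : 1 ≤ m) :
    (((2 * ((m + 2 : ℕ) : ℝ) - 1) / 3 : ℝ) : EReal) ≤ eStar (m + 2) := by
  obtain ⟨N, M, hNd, hNl, hMd, hNs, hMs⟩ := exists_data m
  obtain ⟨K, hK, A0, hA0, hest⟩ := est3 m hm
  obtain ⟨F, hF, hFA⟩ := exists_fam2 0 (-6) N M
  obtain ⟨Mc, hMc, hbound⟩ := fam2_bound F hFA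
  obtain ⟨MN, hMN⟩ := exists_coeff_bound N
  obtain ⟨MM, hMM⟩ := exists_coeff_bound M
  set s0 : ℂ := ((√2 : ℝ) : ℂ) with hs0
  have hs0sq : s0 ^ 2 = 2 := by
    rw [hs0, ← Complex.ofReal_pow, Real.sq_sqrt (by norm_num)]
    norm_num
  have hs0n : ‖s0‖ = √2 := by
    rw [hs0, Complex.norm_real, Real.norm_of_nonneg (by positivity)]
  set ℓ : ℤ := (nn (m + 1)).leadingCoeff with hℓ
  have hℓ0 : ℓ ≠ 0 := leadingCoeff_ne_zero.2 (nn_ne _)
  -- the polynomials `Q`
  set Q : ℤ → ℤ → ℤ[X] := fun A b => C A * N - C b * M with hQ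
  have hQs : ∀ (A b : ℤ) (s x : ℂ), s ^ 2 = 2 → aeval (s * x) (Q A b) =
      s ^ (m + 1) * (A * s * nx (m + 1) x - b * mx (m + 1) x) := by
    intro A b s x hs
    simp only [hQ, map_sub, map_mul, hNs s x hs, hMs s x hs, eq_intCast, map_intCast]
    ring
  have hQdeg : ∀ A b : ℤ, A ≠ 0 → (Q A b).natDegree = m + 2 ∧
      (Q A b).leadingCoeff = A * ℓ := by
    intro A b hA
    have h1 : (C A * N).natDegree = m + 2 := by rw [natDegree_C_mul hA, hNd]
    have h2 : (C b * M).natDegree < (C A * N).natDegree := by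
      rw [h1]
      refine (natDegree_C_mul_le _ _).trans_lt ?_
      rw [hMd]; omega
    constructor
    · simp only [hQ]
      rw [natDegree_sub_eq_left_of_natDegree_lt h2, h1]
    · simp only [hQ]
      rw [leadingCoeff_sub_of_degree_lt (degree_lt_degree h2), leadingCoeff_mul, leadingCoeff_C,
        hNl]
  have hQ0 : ∀ A b : ℤ, A ≠ 0 → Q A b ≠ 0 := by
    intro A b hA h0
    have := (hQdeg A b hA).1
    rw [h0] at this
    simp at this
  -- Pell pairs
  set PA : ℕ → ℤ := fun k => ((pell k).1 : ℤ) with hPA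
  set PB : ℕ → ℤ := fun k => ((pell k).2 : ℤ) with hPB
  have hpell : ∀ k, PB k ^ 2 + 1 = 2 * PA k ^ 2 := by
    intro k
    simp only [hPA, hPB]
    exact_mod_cast pell_eq k
  have hPApos : ∀ k, 0 < PA k := fun k => by
    simp only [hPA]; exact_mod_cast (pell_pos k).1
  have hPBpos : ∀ k, 0 < PB k := fun k => by
    simp only [hPB]; exact_mod_cast (pell_pos k).2
  have hPBle : ∀ k, |PB k| ≤ 2 * PA k := by
    intro k
    rw [abs_of_pos (hPBpos k)]
    have h1 := hpell k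
    have h2 := hPApos k
    have h3 := hPBpos k
    nlinarith
  -- no zero at the square roots of `2`
  have hQsqrt : ∀ k (s : ℂ), s ^ 2 = 2 → aeval s (Q (PA k) (PB k)) ≠ 0 := by
    intro k s hs h0
    have h1 := hQs (PA k) (PB k) s 1 hs
    rw [mul_one, h0, nx_one, mx_one] at h1
    have hs' : s ≠ 0 := by
      rintro rfl
      norm_num at hs
    have he : ((ee (m + 1) : ℤ) : ℂ) ≠ 0 := by exact_mod_cast (ee_mm (m + 1)).2.ne'
    have h2 := (mul_eq_zero.1 h1.symm).resolve_left (pow_ne_zero _ hs')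
    have h3 : ((PA k : ℂ) * s - (PB k : ℂ)) * ((ee (m + 1) : ℤ) : ℂ) = 0 := by
      linear_combination h2
    have h4 := (mul_eq_zero.1 h3).resolve_right he
    have h5 : (PA k : ℂ) ^ 2 * 2 = (PB k : ℂ) ^ 2 := by
      rw [← hs, ← mul_pow, sub_eq_zero.1 h4]
    have h6 : PA k ^ 2 * 2 = PB k ^ 2 := by exact_mod_cast h5
    have h7 := hpell k
    omega
  -- bounded roots
  set B : ℝ := MN + 2 * MM with hB
  have hB0 : 0 ≤ B := by positivity
  have hQroot : ∀ k (z : ℂ), aeval z (Q (PA k) (PB k)) = 0 → ‖z‖ ≤ 1 + B := by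
    intro k z hz
    have hA := hPApos k
    have hinj := RingHom.injective_int (algebraMap ℤ ℂ)
    refine root_bound ((Q (PA k) (PB k)).map (algebraMap ℤ ℂ))
      ((Polynomial.map_ne_zero_iff hinj).2 (hQ0 _ _ hA.ne')) z
      (by rw [IsRoot.def, eval_map_algebraMap, hz]) _ hB0 (fun i _ => ?_)
    rw [leadingCoeff_map_of_injective hinj, (hQdeg _ _ hA.ne').2, coeff_map]
    simp only [hQ, coeff_sub, coeff_C_mul]
    rw [algebraMap_int_eq, eq_intCast, eq_intCast, Complex.norm_intCast, Complex.norm_intCast]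
    have hℓ1 : 1 ≤ |ℓ| := Int.one_le_abs hℓ0
    have e1 : |PA k * N.coeff i - PB k * M.coeff i| ≤ (MN + 2 * MM) * |PA k * ℓ| := by
      rw [abs_mul, abs_of_pos hA]
      have t1 := abs_sub (PA k * N.coeff i) (PB k * M.coeff i)
      rw [abs_mul, abs_mul, abs_of_pos hA] at t1
      have t2 : PA k * |N.coeff i| ≤ PA k * MN := mul_le_mul_of_nonneg_left (hMN i) hA.le
      have t3 : |PB k| * |M.coeff i| ≤ 2 * PA k * MM :=
        mul_le_mul (hPBle k) (hMM i) (abs_nonneg _) (by positivity)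
      have t4 : (MN + 2 * MM : ℤ) * PA k ≤ (MN + 2 * MM) * PA k * |ℓ| :=
        le_mul_of_one_le_right (by positivity) hℓ1
      nlinarith
    rw [hB]
    exact_mod_cast e1
  set R : ℝ := 1 + B + √2 with hR
  have hR1 : 1 ≤ R := by
    have : 0 ≤ √2 := Real.sqrt_nonneg _
    linarith
  -- the close pair
  have hpair : ∀ k, A0 ≤ (PA k : ℝ) → ∃ x : ℂ, x.im ≠ 0 ∧
      aeval (s0 * x) (Q (PA k) (PB k)) = 0 ∧ aeval (s0 * conj x) (Q (PA k) (PB k)) = 0 ∧
      ‖x - 1‖ ≤ K / PA k ∧ x ^ 3 - 3 * x ≠ (conj x) ^ 3 - 3 * conj x ∧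
      ‖(x ^ 3 - 3 * x) - ((conj x) ^ 3 - 3 * conj x)‖ ≤ K / (PA k : ℝ) ^ (2 * m + 3) := by
    intro k hk
    obtain ⟨x, h1, h2, h3, h4, h5⟩ := hest (PA k) (PB k) hk (by exact_mod_cast hPBpos k)
      (by exact_mod_cast hpell k)
    have h6 : aeval (s0 * x) (Q (PA k) (PB k)) = 0 := by
      rw [hQs _ _ _ _ hs0sq]
      have : (PA k : ℂ) * s0 * nx (m + 1) x - (PB k : ℂ) * mx (m + 1) x = 0 := by
        have h7 : ((√2 * (PA k : ℝ) : ℝ) : ℂ) = (PA k : ℂ) * s0 := by
          rw [hs0]; push_cast; ring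
        rw [h7] at h2
        rw [h2]
        push_cast
        ring
      rw [this, mul_zero]
    refine ⟨x, h1, h6, ?_, h3, h4, h5⟩
    have h7 : s0 * conj x = conj (s0 * x) := by
      rw [map_mul, hs0, Complex.conj_ofReal]
    rw [h7, aeval_conj_int, h6, map_zero]
  have htend : Tendsto (fun k => (pell k).1) atTop atTop := pell_strictMono.tendsto_atTop
  have hAev : ∀ᶠ k : ℕ in atTop, A0 ≤ (PA k : ℝ) := by
    have := (tendsto_natCast_atTop_atTop (R := ℝ)).comp htend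
    filter_upwards [this.eventually_ge_atTop A0] with k hk
    simpa [hPA] using hk
  obtain ⟨k0, hk0⟩ := eventually_atTop.1 hAev
  have hPAinj : Function.Injective PA := by
    intro k k' h
    simp only [hPA] at h
    exact pell_strictMono.injective (by exact_mod_cast h)
  -- irreducibility of `Q`
  set L : ℝ := (|(ℓ : ℝ)| * (√2 * K * R ^ (m + 2))) ^ 2 with hL
  obtain ⟨M', hM'⟩ : ∃ M' : ℕ, M' = ⌈((⌈L⌉₊ : ℕ) : ℝ) * (1 + (1 + B)) ^ (m + 2)⌉₊ := ⟨_, rfl⟩
  have hfac : ∀ k, k0 ≤ k → ∀ x : ℂ, x.im ≠ 0 → ‖x - 1‖ ≤ K / PA k →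
      aeval (s0 * conj x) (Q (PA k) (PB k)) = 0 →
      ∀ g h : ℤ[X], Q (PA k) (PB k) = g * h → aeval (s0 * x) g = 0 → ∀ i, |h.coeff i| ≤ M' := by
    intro k hk x him hx hxc g h hgh hg
    have hA := hPApos k
    have hAR : (0 : ℝ) < PA k := by exact_mod_cast hA
    have hQk0 := hQ0 (PA k) (PB k) hA.ne'
    obtain ⟨hQd, hQl⟩ := hQdeg (PA k) (PB k) hA.ne'
    have hg0 : g ≠ 0 := by rintro rfl; rw [zero_mul] at hgh; exact hQk0 hgh
    have hh0 : h ≠ 0 := by rintro rfl; rw [mul_zero] at hgh; exact hQk0 hgh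
    have hgdeg : g.natDegree ≤ m + 2 := by
      rw [← hQd]; exact natDegree_le_of_dvd ⟨h, hgh⟩ hQk0
    have hhdeg : h.natDegree ≤ m + 2 := by
      rw [← hQd]; exact natDegree_le_of_dvd ⟨g, by rw [hgh, mul_comm]⟩ hQk0
    have hgr : ∀ z : ℂ, aeval z g = 0 → aeval z (Q (PA k) (PB k)) = 0 := by
      intro z hz
      rw [hgh, map_mul, hz, zero_mul]
    have hhr : ∀ z : ℂ, aeval z h = 0 → aeval z (Q (PA k) (PB k)) = 0 := by
      intro z hz
      rw [hgh, map_mul, hz, mul_zero]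
    have hgs : ∀ s : ℂ, s ^ 2 = 2 → aeval s g ≠ 0 := fun s hs h0 => hQsqrt k s hs (hgr s h0)
    have hconj : s0 * conj x = conj (s0 * x) := by rw [map_mul, hs0, Complex.conj_ofReal]
    have hg2 : aeval (s0 * conj x) g = 0 := by
      rw [hconj, aeval_conj_int, hg, map_zero]
    have hs00 : s0 ≠ 0 := by
      intro h0
      rw [h0] at hs0sq
      norm_num at hs0sq
    have hne : s0 * x ≠ s0 * conj x := by
      intro h0
      have := mul_left_cancel₀ hs00 h0
      apply him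
      have h1 := congrArg Complex.im this
      rw [Complex.conj_im] at h1
      linarith
    have ht1 : ‖s0 - s0 * x‖ ≤ √2 * (K / PA k) := by
      have : s0 - s0 * x = s0 * (1 - x) := by ring
      rw [this, norm_mul, hs0n, norm_sub_rev]
      exact mul_le_mul_of_nonneg_left hx (Real.sqrt_nonneg _)
    have ht2 : ‖s0 - s0 * conj x‖ ≤ √2 * (K / PA k) := by
      have : s0 - s0 * conj x = s0 * conj (1 - x) := by rw [map_sub, map_one]; ring
      rw [this, norm_mul, hs0n, Complex.norm_conj, norm_sub_rev]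
      exact mul_le_mul_of_nonneg_left hx (Real.sqrt_nonneg _)
    have hRs : ∀ z : ℂ, aeval z g = 0 → ‖s0 - z‖ ≤ R ∧ ‖-s0 - z‖ ≤ R := by
      intro z hz
      have h1 := hQroot k z (hgr z hz)
      constructor
      · refine (norm_sub_le _ _).trans ?_
        rw [hs0n, hR]; linarith
      · refine (norm_sub_le _ _).trans ?_
        rw [norm_neg, hs0n, hR]; linarith
    have hlarge := lead_large g hg0 s0 hs0sq (hgs s0 hs0sq) (hgs (-s0) (by rw [neg_sq, hs0sq]))
      (s0 * x) (s0 * conj x) hne hg hg2 R (√2 * (K / PA k)) hR1 (by positivity) ht1 ht2 (m + 2)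
      hgdeg hRs
    have hlc : (g.leadingCoeff : ℝ) * (h.leadingCoeff : ℝ) = PA k * ℓ := by
      have : g.leadingCoeff * h.leadingCoeff = PA k * ℓ := by
        rw [← leadingCoeff_mul, ← hgh, hQl]
      exact_mod_cast this
    have hle : (|h.leadingCoeff| : ℝ) ^ 2 ≤ L := by
      have h1 : |(g.leadingCoeff : ℝ)| * |(h.leadingCoeff : ℝ)| = PA k * |(ℓ : ℝ)| := by
        rw [← abs_mul, hlc, abs_mul, abs_of_pos hAR]
      calc |(h.leadingCoeff : ℝ)| ^ 2 = |(h.leadingCoeff : ℝ)| ^ 2 * 1 := (mul_one _).symm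
        _ ≤ |(h.leadingCoeff : ℝ)| ^ 2 *
            (|(g.leadingCoeff : ℝ)| * (√2 * (K / PA k) * R ^ (m + 2))) ^ 2 :=
            mul_le_mul_of_nonneg_left hlarge (by positivity)
        _ = ((|(g.leadingCoeff : ℝ)| * |(h.leadingCoeff : ℝ)|) *
            (√2 * (K / PA k) * R ^ (m + 2))) ^ 2 := by ring
        _ = ((PA k * |(ℓ : ℝ)|) * (√2 * (K / PA k) * R ^ (m + 2))) ^ 2 := by rw [h1]
        _ = L := by
          rw [hL]
          congr 1
          field_simp
    have hle2 : |h.leadingCoeff| ≤ (⌈L⌉₊ : ℕ) := by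
      have h1 : |h.leadingCoeff| ≤ |h.leadingCoeff| ^ 2 := by
        have := Int.one_le_abs (leadingCoeff_ne_zero.2 hh0)
        nlinarith
      have h2 : ((|h.leadingCoeff| : ℤ) : ℝ) ≤ (⌈L⌉₊ : ℝ) := by
        calc ((|h.leadingCoeff| : ℤ) : ℝ) ≤ ((|h.leadingCoeff| ^ 2 : ℤ) : ℝ) := by exact_mod_cast h1
          _ = (|h.leadingCoeff| : ℝ) ^ 2 := by push_cast; rfl
          _ ≤ L := hle
          _ ≤ _ := Nat.le_ceil L
      exact_mod_cast h2
    obtain ⟨M1, hM1, hfin⟩ := coeff_le h (1 + B) (by linarith) (fun z hz => hQroot k z (hhr z hz))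
      _ (m + 2) hle2 hhdeg
    rw [hM', ← hM1]
    exact hfin
  set FF : ℤ → ℤ[X] := fun a => Q (PA a.toNat) (PB a.toNat) with hFF
  set S : Set ℤ := {a | ∃ k : ℕ, k0 ≤ k ∧ a = k} with hS
  have hirrQ : ∀ᶠ k : ℕ in atTop,
      Irreducible ((Q (PA k) (PB k)).map (algebraMap ℤ ℚ)) := by
    have hbad := irr_cofinite FF S (m + 2) (by omega) ?_ M' ?_ ?_
    · have hfin : {k : ℕ | (k : ℤ) ∈ {a ∈ S | ¬ Irreducible ((FF a).map (algebraMap ℤ ℚ))}}.Finite :=
        hbad.preimage (Nat.cast_injective.injOn)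
      have h3 : ∀ᶠ k : ℕ in atTop, k ∉ {k : ℕ | (k : ℤ) ∈
          {a ∈ S | ¬ Irreducible ((FF a).map (algebraMap ℤ ℚ))}} := by
        rw [← Nat.cofinite_eq_atTop]
        exact hfin.eventually_cofinite_notMem
      filter_upwards [h3, eventually_ge_atTop k0] with k hk hk1
      by_contra hcon
      exact hk ⟨⟨k, hk1, rfl⟩, by simpa [hFF] using hcon⟩
    · rintro a ⟨k, hk, rfl⟩
      simp only [hFF, Int.toNat_natCast]
      exact (hQdeg _ _ (hPApos k).ne').1
    · rintro a ⟨k, hk, rfl⟩ g h hgh hg1 hh1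
      simp only [hFF, Int.toNat_natCast] at hgh
      obtain ⟨x, h1, h2, h3, h4, -, -⟩ := hpair k (hk0 k hk)
      have h2' := h2
      rw [hgh, map_mul] at h2'
      rcases mul_eq_zero.1 h2' with h5 | h5
      · exact Or.inr (hfac k hk x h1 h4 h3 g h hgh h5)
      · exact Or.inl (hfac k hk x h1 h4 h3 h g (by rw [hgh, mul_comm]) h5)
    · intro ξ
      apply Set.Subsingleton.finite
      rintro a ⟨⟨k, hk, rfl⟩, ha⟩ b ⟨⟨k', hk', rfl⟩, hb⟩
      simp only [hFF, Int.toNat_natCast] at ha hb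
      have hs00 : s0 ≠ 0 := by
        intro h0
        rw [h0] at hs0sq
        norm_num at hs0sq
      have hξ : ξ = s0 * (ξ / s0) := by field_simp
      rw [hξ, hQs _ _ _ _ hs0sq] at ha hb
      set w := ξ / s0 with hw
      have ha' := (mul_eq_zero.1 ha).resolve_left (pow_ne_zero _ hs00)
      have hb' := (mul_eq_zero.1 hb).resolve_left (pow_ne_zero _ hs00)
      have e1 : (((PA k : ℂ) * (PB k' : ℂ)) - (PA k' : ℂ) * (PB k : ℂ)) * nx (m + 1) w = 0 := by
        have : s0 * ((((PA k : ℂ) * (PB k' : ℂ)) - (PA k' : ℂ) * (PB k : ℂ)) * nx (m + 1) w) = 0 := by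
          linear_combination (PB k' : ℂ) * ha' - (PB k : ℂ) * hb'
        exact (mul_eq_zero.1 this).resolve_left hs00
      have e2 : (((PA k : ℂ) * (PB k' : ℂ)) - (PA k' : ℂ) * (PB k : ℂ)) * mx (m + 1) w = 0 := by
        linear_combination (PA k' : ℂ) * ha' - (PA k : ℂ) * hb'
      have e3 : ((PA k : ℂ) * (PB k' : ℂ)) - (PA k' : ℂ) * (PB k : ℂ) = 0 := by
        by_contra hne
        exact no_common (m + 1) w ((mul_eq_zero.1 e1).resolve_left hne)
          ((mul_eq_zero.1 e2).resolve_left hne)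
      have e4 : PA k * PB k' = PA k' * PB k := by exact_mod_cast sub_eq_zero.1 e3
      have e5 : PA k ^ 2 = PA k' ^ 2 := by
        have h1 := hpell k
        have h2 := hpell k'
        have h3 : (PA k * PB k') ^ 2 = (PA k' * PB k) ^ 2 := by rw [e4]
        have h4 : PB k ^ 2 = 2 * PA k ^ 2 - 1 := by linarith
        have h5 : PB k' ^ 2 = 2 * PA k' ^ 2 - 1 := by linarith
        rw [mul_pow, mul_pow, h4, h5] at h3
        linarith
      have e6 : PA k = PA k' :=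
        (pow_left_inj₀ (hPApos k).le (hPApos k').le two_ne_zero).1 e5
      rw [hPAinj e6]
  -- conclusion
  refine le_sepExponent' _ (m + 2) 3 Mc (by norm_num) hMc ((2 * ((m + 2 : ℕ) : ℝ) - 1) / 3)
    (2 * √2 * K) (by positivity) ?_
  refine htend.frequently (Eventually.frequently ?_)
  filter_upwards [hirrQ, hAev] with k hirr hkA
  obtain ⟨x, him, hx1, hx2, hx3, hx4, hx5⟩ := hpair k hkA
  have hnorm := hF (PA k) (PB k)
  have hA := hPApos k
  have hAR : (0 : ℝ) < PA k := by exact_mod_cast hA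
  obtain ⟨hd1, hd2⟩ := hQdeg (PA k) (PB k) hA.ne'
  have hdegF := (hnorm.deg (hQ0 _ _ hA.ne')).1
  have hirrF : Irreducible ((F (PA k) (PB k)).map (algebraMap ℤ ℚ)) := by
    refine hnorm.irreducible hirr ?_ (s0 * x) hx1 ?_
    · change 1 ≤ (Q (PA k) (PB k)).natDegree
      omega
    · intro σ hσ hfσ
      have hs00 : s0 ≠ 0 := by
        intro h0
        rw [h0] at hs0sq
        norm_num at hs0sq
      have hσs : σ = s0 * (σ / s0) := by field_simp
      set y := σ / s0 with hy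
      change aeval σ (Q (PA k) (PB k)) = 0 at hσ
      rw [hσs, hQs _ _ _ _ hs0sq] at hσ
      have hy1 := (mul_eq_zero.1 hσ).resolve_left (pow_ne_zero _ hs00)
      have hx1' := hx1
      rw [hQs _ _ _ _ hs0sq] at hx1'
      have hx1'' := (mul_eq_zero.1 hx1').resolve_left (pow_ne_zero _ hs00)
      have hb0 : (PB k : ℂ) ≠ 0 := by exact_mod_cast (hPBpos k).ne'
      have hfin : y = x := by
        refine simple_pair m ((PA k : ℂ) * s0) (PB k : ℂ) hb0 x y him (sub_eq_zero.1 hx1'')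
          (sub_eq_zero.1 hy1) ?_
        rw [hσs] at hfσ
        push_cast at hfσ
        have : (2 * s0) * ((y ^ 3 - 3 * y) - (x ^ 3 - 3 * x)) = 0 := by
          linear_combination hfσ - (s0 * (y ^ 3 - x ^ 3)) * hs0sq
        exact sub_eq_zero.1 ((mul_eq_zero.1 this).resolve_left (mul_ne_zero two_ne_zero hs00))
      rw [hσs, hfin]
  set f2 : ℂ → ℂ := fun z => z ^ 3 + ((0 : ℤ) : ℂ) * z ^ 2 + ((-6 : ℤ) : ℂ) * z with hf2
  have hf2s : ∀ z : ℂ, f2 (s0 * z) = 2 * s0 * (z ^ 3 - 3 * z) := by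
    intro z
    simp only [hf2]
    push_cast
    linear_combination (s0 * z ^ 3) * hs0sq
  have hdiff : f2 (s0 * x) - f2 (s0 * conj x) =
      2 * s0 * ((x ^ 3 - 3 * x) - ((conj x) ^ 3 - 3 * conj x)) := by
    rw [hf2s, hf2s]; ring
  have hs00 : s0 ≠ 0 := by
    intro h0
    rw [h0] at hs0sq
    norm_num at hs0sq
  refine ⟨‖f2 (s0 * x) - f2 (s0 * conj x)‖, ?_, ?_⟩
  · refine ⟨F (PA k) (PB k), hdegF.trans hd1, fun i => ?_, separable_of_irreducible _ hirrF, hirrF,
      f2 (s0 * x), f2 (s0 * conj x), ?_, ?_, ?_, rfl⟩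
    · have h3 := hbound (PA k) (PB k) hA.le (hPBle k) i
      have h4 : PA k = (((pell k).1 : ℕ) : ℤ) := rfl
      rw [h4] at h3
      exact_mod_cast h3
    · intro h0
      rw [← sub_eq_zero, hdiff] at h0
      have := (mul_eq_zero.1 h0).resolve_left (mul_ne_zero two_ne_zero hs00)
      exact hx4 (sub_eq_zero.1 this)
    · exact (hnorm.root _).2 ⟨s0 * x, hx1, rfl⟩
    · exact (hnorm.root _).2 ⟨s0 * conj x, hx2, rfl⟩
  · rw [hdiff, norm_mul, norm_mul, hs0n]
    have h2 : ‖(2 : ℂ)‖ = 2 := by norm_num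
    rw [h2]
    have h3 : ((((pell k).1 : ℕ) : ℝ)) = (PA k : ℝ) := by
      simp only [hPA]; push_cast; rfl
    have e1 : ((((pell k).1 : ℕ) : ℝ)) ^ (-(((3 : ℕ) : ℝ) * ((2 * ((m + 2 : ℕ) : ℝ) - 1) / 3))) =
        1 / (PA k : ℝ) ^ (2 * m + 3) := by
      rw [h3, one_div, ← Real.rpow_natCast, ← Real.rpow_neg hAR.le]
      congr 1
      push_cast
      ring
    rw [e1]
    calc 2 * √2 * ‖(x ^ 3 - 3 * x) - ((conj x) ^ 3 - 3 * conj x)‖ ≤
        2 * √2 * (K / (PA k : ℝ) ^ (2 * m + 3)) := by gcongr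
      _ = _ := by ring

/-- For every `n ≥ 3`, `e^*(n) ≥ (2 n - 1) / 3`. -/
theorem main3 (n : ℕ) (hn : 3 ≤ n) : (((2 * (n : ℝ) - 1) / 3 : ℝ) : EReal) ≤ eStar n := by
  obtain ⟨m, rfl⟩ : ∃ m, n = m + 2 := ⟨n - 2, by omega⟩
  exact main3' m (by omega)

end Run7.h565
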