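import Pool.Agent.Run7.h565.Theta

/-!
# `t m ≠ 0`
-/

set_option autoImplicit false

namespace Run7.h565

open Polynomial

/-- recursion `(u m, u (m+1))` with given initial values -/
noncomputable def rc (p q : ℤ[X]) : ℕ → ℤ[X] × ℤ[X]
  | 0 => (p, q)
  | m + 1 => ((rc p q m).2, C (t (m + 1)) * X * (rc p q m).1 - C (t m) * (rc p q m).2)

noncomputable def S (m : ℕ) : ℤ[X] := (rc 1 0 m).1
noncomputable def T (m : ℕ) : ℤ[X] := (rc 0 (-1) m).1

lemma S_zero : S 0 = 1 := rfl
lemma S_one : S 1 = 0 := rfl
lemma T_zero : T 0 = 0 := rfl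
lemma T_one : T 1 = -1 := rfl
lemma S_add_two (m : ℕ) : S (m + 2) = C (t (m + 1)) * X * S m - C (t m) * S (m + 1) := rfl
lemma T_add_two (m : ℕ) : T (m + 2) = C (t (m + 1)) * X * T m - C (t m) * T (m + 1) := rfl

/-- the cubic `X (X-1)^2` -/
noncomputable def ff : ℤ[X] := X * (X - 1) ^ 2

lemma rel (m : ℕ) : X ^ m * θ m = (S m).comp ff - X * (T m).comp ff ∧
    X ^ (m + 1) * θ (m + 1) = (S (m + 1)).comp ff - X * (T (m + 1)).comp ff := by
  induction m with
  | zero => simp [S_zero, T_zero, S_one, T_one, θ_zero, θ_one]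
  | succ m ih =>
    refine ⟨ih.2, ?_⟩
    have h := X_mul_θ m
    rw [S_add_two, T_add_two]
    simp only [sub_comp, mul_comp, C_comp, X_comp]
    have e : X ^ (m + 1 + 1) * θ (m + 1 + 1) = X ^ (m + 1) * (X * θ (m + 2)) := by ring
    rw [e, h]
    have e2 : X ^ (m + 1) * (C (t (m + 1)) * (X - 1) ^ 2 * θ m - C (t m) * θ (m + 1)) =
      C (t (m + 1)) * (X * (X - 1) ^ 2) * (X ^ m * θ m) - C (t m) * (X ^ (m + 1) * θ (m + 1)) := by
      ring
    rw [e2, ih.1, ih.2]
    unfold ff
    ring

lemma degS (m : ℕ) : (S m).natDegree ≤ m / 2 ∧ (S (m + 1)).natDegree ≤ (m + 1) / 2 := by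
  induction m with
  | zero => simp [S_zero, S_one]
  | succ m ih =>
    refine ⟨ih.2, ?_⟩
    rw [S_add_two]
    refine (natDegree_sub_le _ _).trans (max_le ?_ ?_)
    · refine natDegree_mul_le.trans ?_
      have : (C (t (m + 1)) * X : ℤ[X]).natDegree ≤ 1 := by
        refine (natDegree_C_mul_le _ _).trans ?_
        simp
      omega
    · refine (natDegree_C_mul_le _ _).trans ?_
      omega

lemma degT (m : ℕ) : (T m).natDegree ≤ (m - 1) / 2 ∧ (T (m + 1)).natDegree ≤ m / 2 := by
  induction m with
  | zero => simp [T_zero, T_one]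
  | succ m ih =>
    refine ⟨ih.2, ?_⟩
    rw [T_add_two]
    refine (natDegree_sub_le _ _).trans (max_le ?_ ?_)
    · rcases Nat.eq_zero_or_pos m with rfl | hm
      · simp [T_zero]
      refine natDegree_mul_le.trans ?_
      have : (C (t (m + 1)) * X : ℤ[X]).natDegree ≤ 1 := by
        refine (natDegree_C_mul_le _ _).trans ?_
        simp
      omega
    · refine (natDegree_C_mul_le _ _).trans ?_
      omega

/-- the Riccati expression -/
noncomputable def E (s u : ℤ[X]) : ℤ[X] :=
  (4 - 27 * X) * ((X * derivative s) * u - s * (X * derivative u)) -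
    (2 * s ^ 2 - (9 * X + 2) * s * u + 6 * X * u ^ 2)

lemma natDegree_X_mul_derivative_le (s : ℤ[X]) : (X * derivative s).natDegree ≤ s.natDegree := by
  rcases Nat.eq_zero_or_pos s.natDegree with h | h
  · rw [eq_C_of_natDegree_eq_zero h]; simp
  · refine natDegree_mul_le.trans ?_
    have := natDegree_derivative_le s
    simp only [natDegree_X]
    omega

lemma degE (m : ℕ) (hm : 1 ≤ m) : (E (S m) (T m)).natDegree ≤ m := by
  have hS := (degS m).1
  have hT := (degT m).1
  have h1 := natDegree_X_mul_derivative_le (S m)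
  have h2 := natDegree_X_mul_derivative_le (T m)
  have hl : (4 - 27 * X : ℤ[X]).natDegree ≤ 1 := by
    compute_degree
  have hl2 : (9 * X + 2 : ℤ[X]).natDegree ≤ 1 := by
    compute_degree
  have hl3 : (6 * X : ℤ[X]).natDegree ≤ 1 := by
    compute_degree
  have hl4 : (2 : ℤ[X]).natDegree ≤ 0 := by
    compute_degree
  unfold E
  refine (natDegree_sub_le _ _).trans (max_le ?_ ?_)
  · refine natDegree_mul_le.trans ?_
    have : ((X * derivative (S m)) * T m - S m * (X * derivative (T m))).natDegree ≤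
        m / 2 + (m - 1) / 2 := by
      refine (natDegree_sub_le _ _).trans (max_le ?_ ?_)
      · refine natDegree_mul_le.trans ?_
        omega
      · refine natDegree_mul_le.trans ?_
        omega
    omega
  · refine (natDegree_add_le _ _).trans (max_le ?_ ?_)
    · refine (natDegree_sub_le _ _).trans (max_le ?_ ?_)
      · refine natDegree_mul_le.trans ?_
        have := natDegree_pow_le (p := S m) (n := 2)
        omega
      · refine natDegree_mul_le.trans ?_
        have := natDegree_mul_le (p := (9 * X + 2 : ℤ[X])) (q := S m)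
        omega
    · refine natDegree_mul_le.trans ?_
      have := natDegree_pow_le (p := T m) (n := 2)
      omega

lemma E_comp (s u : ℤ[X]) : (E s u).comp ff =
    (X * derivative (s.comp ff - X * u.comp ff)) * (-((X - 1) * (3 * X - 4) * (3 * X - 1))) *
      u.comp ff -
    (s.comp ff - X * u.comp ff) * (ff * (4 - 27 * ff) * (derivative u).comp ff +
      2 * (s.comp ff - X * u.comp ff) + 4 * X * u.comp ff - (9 * ff + 2) * u.comp ff) := by
  have h4 : ((4 : ℤ[X])).comp ff = 4 := by
    simpa using (natCast_comp (R := ℤ) (n := 4) (p := ff))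
  have h27 : ((27 : ℤ[X])).comp ff = 27 := by
    simpa using (natCast_comp (R := ℤ) (n := 27) (p := ff))
  have h2 : ((2 : ℤ[X])).comp ff = 2 := by
    simpa using (natCast_comp (R := ℤ) (n := 2) (p := ff))
  have h9 : ((9 : ℤ[X])).comp ff = 9 := by
    simpa using (natCast_comp (R := ℤ) (n := 9) (p := ff))
  have h6 : ((6 : ℤ[X])).comp ff = 6 := by
    simpa using (natCast_comp (R := ℤ) (n := 6) (p := ff))
  have hd : derivative ff = (3 * X - 1) * (X - 1) := by
    unfold ff
    simp only [derivative_mul, derivative_X, derivative_pow, derivative_sub, derivative_one]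
    simp
    ring
  simp only [E, sub_comp, mul_comp, add_comp, pow_comp, X_comp, h4, h27, h2, h9, h6,
    derivative_sub, derivative_mul, derivative_X, derivative_comp, hd]
  generalize s.comp ff = a
  generalize u.comp ff = b
  generalize (derivative s).comp ff = a'
  generalize (derivative u).comp ff = b'
  unfold ff
  ring

lemma dvd_of_dvd_comp (k : ℕ) (e : ℤ[X]) (h : X ^ k ∣ e.comp ff) : X ^ k ∣ e := by
  induction k generalizing e with
  | zero => simp
  | succ k ih =>
    have h0 : X ∣ e := by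
      rw [X_dvd_iff]
      have h1 : X ∣ e.comp ff := (dvd_pow_self X (Nat.succ_ne_zero k)).trans h
      rw [X_dvd_iff, coeff_zero_eq_eval_zero, eval_comp] at h1
      rw [coeff_zero_eq_eval_zero]
      simpa [ff] using h1
    obtain ⟨e1, rfl⟩ := h0
    have h2 : (X * e1).comp ff = X * ((X - 1) ^ 2 * e1.comp ff) := by
      rw [mul_comp, X_comp]; unfold ff; ring
    rw [h2, pow_succ', mul_dvd_mul_iff_left X_ne_zero] at h
    have hc : IsCoprime (X ^ k : ℤ[X]) ((X - 1) ^ 2) := by
      apply IsCoprime.pow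
      exact ⟨1, -1, by ring⟩
    have h3 := hc.dvd_of_dvd_mul_left h
    rw [pow_succ']
    exact mul_dvd_mul_left X (ih e1 h3)

lemma exists_pow_mul (g : ℤ[X]) (hg : g ≠ 0) : ∃ (K : ℕ) (h : ℤ[X]), g = X ^ K * h ∧
    h.coeff 0 ≠ 0 := by
  obtain ⟨q, hq, hn⟩ := exists_eq_pow_rootMultiplicity_mul_and_not_dvd g hg 0
  refine ⟨_, q, by simpa using hq, ?_⟩
  intro h0
  apply hn
  rw [map_zero, sub_zero]
  exact X_dvd_iff.2 h0

theorem t_ne_zero (m : ℕ) : t m ≠ 0 := by
  induction m using Nat.strong_induction_on with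
  | _ m ih =>
    rcases Nat.lt_or_ge m 1 with hm | hm
    · interval_cases m; simp [t_zero]
    -- θ j (1) ≠ 0 for 1 ≤ j ≤ m
    have hθ1 : ∀ j, j + 1 ≤ m → aeval (1 : ℤ) (θ (j + 1)) ≠ 0 := by
      intro j
      induction j with
      | zero => intro _; simp [θ_one]
      | succ j ihj =>
        intro hj
        rw [ev_one]
        have := ihj (by omega)
        have h2 := ih j (by omega)
        simp only [Int.cast_eq]
        exact mul_ne_zero (neg_ne_zero.2 h2) this
    have hT0 : ∀ j, j + 1 ≤ m → (T (j + 1)).coeff 0 ≠ 0 := by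
      intro j
      induction j with
      | zero => intro _; simp [T_one]
      | succ j ihj =>
        intro hj
        rw [T_add_two]
        have := ihj (by omega)
        have h2 := ih j (by omega)
        have e : (C (t (j + 1)) * X * T j - C (t j) * T (j + 1)).coeff 0 =
            -(t j) * (T (j + 1)).coeff 0 := by
          rw [coeff_zero_eq_eval_zero, coeff_zero_eq_eval_zero]
          simp
        rw [e]
        exact mul_ne_zero (neg_ne_zero.2 h2) this
    obtain ⟨j, rfl⟩ : ∃ j, m = j + 1 := ⟨m - 1, by omega⟩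
    have hT := hT0 j le_rfl
    have hθ : θ (j + 1) ≠ 0 := by
      intro h
      apply hθ1 j le_rfl
      rw [h]; simp
    intro ht
    have hXθ : X ∣ θ (j + 1) := X_dvd_iff.2 ht
    set g : ℤ[X] := X ^ (j + 1) * θ (j + 1) with hg
    have hrel : g = (S (j + 1)).comp ff - X * (T (j + 1)).comp ff := (rel (j + 1)).1
    have hgd : X ^ (j + 2) ∣ g := by
      rw [hg, pow_succ (n := j + 1)]
      exact mul_dvd_mul_left _ hXθ
    have hg0 : g ≠ 0 := mul_ne_zero (pow_ne_zero _ X_ne_zero) hθ
    have hXg : X ^ (j + 2) ∣ X * derivative g := by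
      obtain ⟨w, hw⟩ := hgd
      rw [hw, derivative_mul, derivative_X_pow]
      refine ⟨((j + 2 : ℕ) : ℤ[X]) * w + X * derivative w, ?_⟩
      have : (C ((j + 2 : ℕ) : ℤ) : ℤ[X]) = ((j + 2 : ℕ) : ℤ[X]) := by simp
      rw [this]
      have e2 : j + 2 - 1 = j + 1 := rfl
      rw [e2]
      ring
    have hE := E_comp (S (j + 1)) (T (j + 1))
    rw [← hrel] at hE
    have hEd : X ^ (j + 2) ∣ (E (S (j + 1)) (T (j + 1))).comp ff := by
      rw [hE]
      refine dvd_sub ?_ ?_
      · rw [mul_assoc]; exact hXg.mul_right _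
      · exact hgd.mul_right _
    have hEd2 := dvd_of_dvd_comp _ _ hEd
    have hE0 : E (S (j + 1)) (T (j + 1)) = 0 := by
      by_contra hne
      have h1 := natDegree_le_of_dvd hEd2 hne
      have h2 := degE (j + 1) (by omega)
      rw [natDegree_X_pow] at h1
      omega
    rw [hE0, zero_comp] at hE
    obtain ⟨K, h, hK, hh⟩ := exists_pow_mul g hg0
    have hK1 : 1 ≤ K := by
      by_contra hK0
      have : K = 0 := by omega
      rw [this, pow_zero, one_mul] at hK
      apply hh
      rw [← hK]
      exact X_dvd_iff.1 ((dvd_pow_self X (by omega)).trans hgd)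
    have hXg' : X * derivative g = X ^ K * ((K : ℤ[X]) * h + X * derivative h) := by
      obtain ⟨K', rfl⟩ : ∃ K', K = K' + 1 := ⟨K - 1, by omega⟩
      rw [hK, derivative_mul, derivative_X_pow]
      have : (C ((K' + 1 : ℕ) : ℤ) : ℤ[X]) = ((K' + 1 : ℕ) : ℤ[X]) := by simp
      rw [this]
      have e2 : K' + 1 - 1 = K' := rfl
      rw [e2]
      ring
    rw [hXg'] at hE
    have hfac : X ^ K * (((K : ℤ[X]) * h + X * derivative h) *
        (-((X - 1) * (3 * X - 4) * (3 * X - 1))) * (T (j + 1)).comp ff -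
        h * (ff * (4 - 27 * ff) * (derivative (T (j + 1))).comp ff +
          2 * g + 4 * X * (T (j + 1)).comp ff - (9 * ff + 2) * (T (j + 1)).comp ff)) = 0 := by
      conv_rhs => rw [hE]
      conv_rhs => rw [show g * (ff * (4 - 27 * ff) * (derivative (T (j + 1))).comp ff +
          2 * g + 4 * X * (T (j + 1)).comp ff - (9 * ff + 2) * (T (j + 1)).comp ff) =
          X ^ K * h * (ff * (4 - 27 * ff) * (derivative (T (j + 1))).comp ff +
          2 * g + 4 * X * (T (j + 1)).comp ff - (9 * ff + 2) * (T (j + 1)).comp ff) by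
            rw [← hK]]
      ring
    have hbr := (mul_eq_zero.1 hfac).resolve_left (pow_ne_zero _ X_ne_zero)
    have hev := congrArg (eval 0) hbr
    have hg00 : eval 0 g = 0 := by
      rw [hK]; simp; left; omega
    simp only [eval_sub, eval_mul, eval_add, eval_neg, eval_X, eval_one, eval_comp, eval_zero,
      eval_natCast, eval_ofNat, ff, eval_pow, hg00] at hev
    have hT' : eval 0 (T (j + 1)) ≠ 0 := by rwa [← coeff_zero_eq_eval_zero]
    have hh' : eval 0 h ≠ 0 := by rwa [← coeff_zero_eq_eval_zero]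
    have hfin : (4 * (K : ℤ) + 2) * (eval 0 h * eval 0 (T (j + 1))) = 0 := by
      have e3 : (0 : ℤ) * (0 - 1) ^ 2 = 0 := by norm_num
      rw [e3] at hev
      linear_combination hev
    rcases mul_eq_zero.1 hfin with h1 | h1
    · omega
    · exact (mul_ne_zero hh' hT') h1

end Run7.h565
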