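import Mathlib

/-!
# Norm form of a cubic extension and the family `F a`, the norm of `N - a D`
-/

set_option autoImplicit false

namespace Run7.h565

open Polynomial

/-- norm form of `u + v s + w s ^ 2`, with `s ^ 3 - e1 s ^ 2 + e2 s - e3 = 0` -/
def nf {R : Type*} [CommRing R] (e1 e2 e3 u v w : R) : R :=
  u ^ 3 + u ^ 2 * v * e1 + u ^ 2 * w * (e1 ^ 2 - 2 * e2) + u * v ^ 2 * e2 +
    u * v * w * (e1 * e2 - 3 * e3) + u * w ^ 2 * (e2 ^ 2 - 2 * e1 * e3) + v ^ 3 * e3 +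
    v ^ 2 * w * e1 * e3 + v * w ^ 2 * e2 * e3 + w ^ 3 * e3 ^ 2

lemma nf_eq {R : Type*} [CommRing R] (s1 s2 s3 u v w : R) :
    nf (s1 + s2 + s3) (s1 * s2 + s1 * s3 + s2 * s3) (s1 * s2 * s3) u v w =
      (u + v * s1 + w * s1 ^ 2) * (u + v * s2 + w * s2 ^ 2) * (u + v * s3 + w * s3 ^ 2) := by
  unfold nf; ring

lemma nf_hom {R S : Type*} [CommRing R] [CommRing S] (φ : R →+* S) (e1 e2 e3 u v w : R) :
    φ (nf e1 e2 e3 u v w) = nf (φ e1) (φ e2) (φ e3) (φ u) (φ v) (φ w) := by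
  unfold nf; simp only [map_add, map_mul, map_pow, map_sub, map_ofNat]

/-- representation of `g (s)` in terms of `f (s)`, `s`, `s ^ 2` where `f(s) = s^3+p s^2+q s` -/
lemma rep (p q : ℤ) (g : ℤ[X]) : ∃ u v w : ℤ[X], ∀ s : ℂ,
    aeval s g = aeval (s ^ 3 + p * s ^ 2 + q * s) u + aeval (s ^ 3 + p * s ^ 2 + q * s) v * s +
      aeval (s ^ 3 + p * s ^ 2 + q * s) w * s ^ 2 := by
  induction g using Polynomial.induction_on with
  | C a => exact ⟨C a, 0, 0, fun s => by simp⟩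
  | add g h ihg ihh =>
    obtain ⟨u, v, w, hg⟩ := ihg
    obtain ⟨u', v', w', hh⟩ := ihh
    refine ⟨u + u', v + v', w + w', fun s => ?_⟩
    simp only [map_add, hg, hh]
    ring
  | monomial n a ih =>
    obtain ⟨u, v, w, h⟩ := ih
    refine ⟨w * X, u - C q * w, v - C p * w, fun s => ?_⟩
    have : (C a * X ^ (n + 1) : ℤ[X]) = (C a * X ^ n) * X := by ring
    rw [this, map_mul, h]
    simp only [map_sub, map_mul, aeval_X, eq_intCast, map_intCast]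
    ring

/-- The family of norms. -/
lemma exists_fam (p q : ℤ) (N D : ℤ[X]) : ∃ F : ℤ → ℤ[X],
    (∀ (a : ℤ) (x s1 s2 s3 : ℂ), s1 + s2 + s3 = -p → s1 * s2 + s1 * s3 + s2 * s3 = q →
      s1 * s2 * s3 = x → aeval x (F a) = aeval s1 (N - C a * D) * aeval s2 (N - C a * D) *
        aeval s3 (N - C a * D)) ∧
    (∃ A0 A1 A2 A3 : ℤ[X], ∀ a : ℤ, F a = A0 + C a * A1 + C a ^ 2 * A2 + C a ^ 3 * A3) := by
  obtain ⟨u, v, w, hN⟩ := rep p q N
  obtain ⟨u', v', w', hD⟩ := rep p q D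
  refine ⟨fun a => nf (C (-p)) (C q) X (u - C a * u') (v - C a * v') (w - C a * w'), ?_, ?_⟩
  · intro a x s1 s2 s3 h1 h2 h3
    have e1 : ∀ s : ℂ, s = s1 ∨ s = s2 ∨ s = s3 → s ^ 3 + p * s ^ 2 + q * s = x := by
      have hp : (p : ℂ) = -(s1 + s2 + s3) := by rw [h1]; ring
      rw [hp, ← h2, ← h3]
      rintro s (h | h | h) <;> rw [h] <;> ring
    have e2 : ∀ s : ℂ, s = s1 ∨ s = s2 ∨ s = s3 → aeval s (N - C a * D) =
        aeval x (u - C a * u') + aeval x (v - C a * v') * s + aeval x (w - C a * w') * s ^ 2 := by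
      intro s hs
      have h := e1 s hs
      have hN' := hN s
      have hD' := hD s
      rw [h] at hN' hD'
      simp only [map_sub, map_mul, aeval_C, hN', hD']
      ring
    rw [e2 s1 (Or.inl rfl), e2 s2 (Or.inr (Or.inl rfl)), e2 s3 (Or.inr (Or.inr rfl)), ← nf_eq,
      h1, h2, h3]
    have := nf_hom ((aeval x : ℤ[X] →ₐ[ℤ] ℂ) : ℤ[X] →+* ℂ) (C (-p)) (C q) X (u - C a * u')
      (v - C a * v') (w - C a * w')
    simp only [RingHom.coe_coe] at this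
    rw [this]
    simp
  · refine ⟨nf (C (-p)) (C q) X u v w,
      -((3 * u ^ 2 + 2 * u * v * C (-p) + 2 * u * w * (C (-p) ^ 2 - 2 * C q) + v ^ 2 * C q +
        v * w * (C (-p) * C q - 3 * X) + w ^ 2 * (C q ^ 2 - 2 * C (-p) * X)) * u' +
        (u ^ 2 * C (-p) + 2 * u * v * C q + u * w * (C (-p) * C q - 3 * X) + 3 * v ^ 2 * X +
          2 * v * w * C (-p) * X + w ^ 2 * C q * X) * v' +
        (u ^ 2 * (C (-p) ^ 2 - 2 * C q) + u * v * (C (-p) * C q - 3 * X) +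
          2 * u * w * (C q ^ 2 - 2 * C (-p) * X) + v ^ 2 * C (-p) * X + 2 * v * w * C q * X +
          3 * w ^ 2 * X ^ 2) * w'),
      ((3 * u' ^ 2 + 2 * u' * v' * C (-p) + 2 * u' * w' * (C (-p) ^ 2 - 2 * C q) + v' ^ 2 * C q +
        v' * w' * (C (-p) * C q - 3 * X) + w' ^ 2 * (C q ^ 2 - 2 * C (-p) * X)) * u +
        (u' ^ 2 * C (-p) + 2 * u' * v' * C q + u' * w' * (C (-p) * C q - 3 * X) + 3 * v' ^ 2 * X +
          2 * v' * w' * C (-p) * X + w' ^ 2 * C q * X) * v +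
        (u' ^ 2 * (C (-p) ^ 2 - 2 * C q) + u' * v' * (C (-p) * C q - 3 * X) +
          2 * u' * w' * (C q ^ 2 - 2 * C (-p) * X) + v' ^ 2 * C (-p) * X + 2 * v' * w' * C q * X +
          3 * w' ^ 2 * X ^ 2) * w),
      -nf (C (-p)) (C q) X u' v' w', fun a => ?_⟩
    unfold nf
    ring

/-- three solutions of a monic cubic equation -/
lemma exists_cubic (p q : ℤ) (x : ℂ) : ∃ s1 s2 s3 : ℂ, s1 + s2 + s3 = -p ∧
    s1 * s2 + s1 * s3 + s2 * s3 = q ∧ s1 * s2 * s3 = x := by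
  have hd : ((X ^ 3 + C (p : ℂ) * X ^ 2 + C (q : ℂ) * X - C x : ℂ[X])).degree = 3 := by
    compute_degree!
  obtain ⟨s1, hs1⟩ := IsAlgClosed.exists_root
    (X ^ 3 + C (p : ℂ) * X ^ 2 + C (q : ℂ) * X - C x) (by rw [hd]; norm_num)
  obtain ⟨r, hr⟩ := IsAlgClosed.exists_pow_nat_eq
    ((p + s1) ^ 2 - 4 * (q + p * s1 + s1 ^ 2) : ℂ) (n := 2) (by norm_num)
  simp only [IsRoot.def, eval_sub, eval_add, eval_pow, eval_X, eval_mul, eval_C] at hs1
  refine ⟨s1, (-(p + s1) + r) / 2, (-(p + s1) - r) / 2, by ring, ?_, ?_⟩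
  · linear_combination (-1 / 4 : ℂ) * hr
  · linear_combination (-s1 / 4) * hr + hs1

/-- bound of all coefficients of a polynomial -/
lemma exists_coeff_bound (A : ℤ[X]) : ∃ M : ℕ, ∀ i, |A.coeff i| ≤ M := by
  refine ⟨∑ i ∈ A.support, (A.coeff i).natAbs, fun i => ?_⟩
  by_cases hi : i ∈ A.support
  · have := Finset.single_le_sum (f := fun i => (A.coeff i).natAbs) (fun _ _ => Nat.zero_le _) hi
    calc |A.coeff i| = ((A.coeff i).natAbs : ℤ) := (Int.natCast_natAbs _).symm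
      _ ≤ _ := by exact_mod_cast this
  · rw [notMem_support_iff.1 hi, abs_zero]
    positivity

lemma fam_bound (F : ℤ → ℤ[X]) (h : ∃ A0 A1 A2 A3 : ℤ[X], ∀ a : ℤ,
    F a = A0 + C a * A1 + C a ^ 2 * A2 + C a ^ 3 * A3) :
    ∃ M : ℕ, 0 < M ∧ ∀ a : ℤ, a ≠ 0 → ∀ i, |(F a).coeff i| ≤ M * |a| ^ 3 := by
  obtain ⟨A0, A1, A2, A3, h⟩ := h
  obtain ⟨M0, h0⟩ := exists_coeff_bound A0
  obtain ⟨M1, h1⟩ := exists_coeff_bound A1
  obtain ⟨M2, h2⟩ := exists_coeff_bound A2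
  obtain ⟨M3, h3⟩ := exists_coeff_bound A3
  refine ⟨M0 + M1 + M2 + M3 + 1, by omega, fun a ha i => ?_⟩
  have ha1 : 1 ≤ |a| := Int.one_le_abs ha
  have e : (F a).coeff i = A0.coeff i + a * A1.coeff i + a ^ 2 * A2.coeff i +
      a ^ 3 * A3.coeff i := by
    rw [h a]
    simp only [coeff_add, ← C_pow, coeff_C_mul]
  rw [e]
  have p1 : (1 : ℤ) ≤ |a| ^ 3 := one_le_pow₀ ha1
  have p2 : |a| ≤ |a| ^ 3 := le_self_pow₀ ha1 (by norm_num)
  have p3 : |a| ^ 2 ≤ |a| ^ 3 := pow_le_pow_right₀ ha1 (by norm_num)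
  have b0 := h0 i
  have b1 := h1 i
  have b2 := h2 i
  have b3 := h3 i
  have c0 : |A0.coeff i| ≤ M0 * |a| ^ 3 := b0.trans (le_mul_of_one_le_right (by positivity) p1)
  have c1 : |a * A1.coeff i| ≤ M1 * |a| ^ 3 := by
    rw [abs_mul, mul_comm]
    exact mul_le_mul b1 p2 (abs_nonneg _) (by positivity)
  have c2 : |a ^ 2 * A2.coeff i| ≤ M2 * |a| ^ 3 := by
    rw [abs_mul, mul_comm, abs_pow]
    exact mul_le_mul b2 p3 (by positivity) (by positivity)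
  have c3 : |a ^ 3 * A3.coeff i| ≤ M3 * |a| ^ 3 := by
    rw [abs_mul, mul_comm, abs_pow]
    exact mul_le_mul b3 le_rfl (by positivity) (by positivity)
  have t1 := abs_add_le (A0.coeff i + a * A1.coeff i + a ^ 2 * A2.coeff i) (a ^ 3 * A3.coeff i)
  have t2 := abs_add_le (A0.coeff i + a * A1.coeff i) (a ^ 2 * A2.coeff i)
  have t3 := abs_add_le (A0.coeff i) (a * A1.coeff i)
  push_cast
  nlinarith

lemma fam_congr (F : ℤ → ℤ[X]) (h : ∃ A0 A1 A2 A3 : ℤ[X], ∀ a : ℤ,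
    F a = A0 + C a * A1 + C a ^ 2 * A2 + C a ^ 3 * A3) (a : ℤ) (i : ℕ) :
    a ∣ (F a).coeff i - (F 0).coeff i := by
  obtain ⟨A0, A1, A2, A3, h⟩ := h
  rw [h a, h 0]
  simp only [coeff_add, ← C_pow, coeff_C_mul]
  exact ⟨A1.coeff i + a * A2.coeff i + a ^ 2 * A3.coeff i, by ring⟩

/-- Data: the family of norms together with its roots. -/
lemma fam_map (p q : ℤ) (N D : ℤ[X]) (F : ℤ → ℤ[X])
    (h1 : ∀ (a : ℤ) (x s1 s2 s3 : ℂ), s1 + s2 + s3 = -p → s1 * s2 + s1 * s3 + s2 * s3 = q →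
      s1 * s2 * s3 = x → aeval x (F a) = aeval s1 (N - C a * D) * aeval s2 (N - C a * D) *
        aeval s3 (N - C a * D)) (a : ℤ) :
    (F a).map (algebraMap ℤ ℂ) = C ((((N - C a * D).leadingCoeff : ℤ) : ℂ) ^ 3) *
      (((N - C a * D).aroots ℂ).map fun σ : ℂ => X - C (σ ^ 3 + p * σ ^ 2 + q * σ)).prod := by
  apply Polynomial.funext
  intro x
  obtain ⟨s1, s2, s3, e1, e2, e3⟩ := exists_cubic p q x
  have h := h1 a x s1 s2 s3 e1 e2 e3
  rw [eval_map_algebraMap, h]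
  set Q := N - C a * D with hQ
  have hsp : (Q.map (algebraMap ℤ ℂ)).Splits := IsAlgClosed.splits _
  have hroots := hsp.eq_prod_roots
  have hlc : (Q.map (algebraMap ℤ ℂ)).leadingCoeff = ((Q.leadingCoeff : ℤ) : ℂ) := by
    rw [leadingCoeff_map_of_injective (RingHom.injective_int (algebraMap ℤ ℂ))]
    rfl
  have hev : ∀ s : ℂ, aeval s Q = ((Q.leadingCoeff : ℤ) : ℂ) *
      ((Q.aroots ℂ).map fun σ => s - σ).prod := by
    intro s
    rw [← eval_map_algebraMap, hroots, hlc, eval_mul, eval_C, eval_multiset_prod,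
      Multiset.map_map]
    congr 1
    simp [aroots_def]
  rw [hev s1, hev s2, hev s3, eval_mul, eval_C, eval_multiset_prod, Multiset.map_map]
  have hf : ∀ σ : ℂ, (s1 - σ) * (s2 - σ) * (s3 - σ) =
      eval x (X - C (σ ^ 3 + p * σ ^ 2 + q * σ)) := by
    intro σ
    simp only [eval_sub, eval_X, eval_C]
    have hp : (p : ℂ) = -(s1 + s2 + s3) := by rw [e1]; ring
    rw [hp, ← e2, ← e3]
    ring
  have hprod : ((Q.aroots ℂ).map fun σ => s1 - σ).prod * ((Q.aroots ℂ).map fun σ => s2 - σ).prod *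
      ((Q.aroots ℂ).map fun σ => s3 - σ).prod =
      (Multiset.map ((eval x) ∘ fun σ : ℂ => X - C (σ ^ 3 + p * σ ^ 2 + q * σ)) (Q.aroots ℂ)).prod := by
    rw [← Multiset.prod_map_mul, ← Multiset.prod_map_mul]
    congr 1
    apply Multiset.map_congr rfl
    intro σ _
    exact hf σ
  rw [← hprod]
  ring

end Run7.h565
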