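import Pool.Agent.Run7.h565.Main1

/-!
# Norms from the cubic extension: general lemmas, and the homogeneous family
-/

set_option autoImplicit false

namespace Run7.h565

open Polynomial

/-- `P` is the norm of `Q`, for `z ↦ z ^ 3 + p z ^ 2 + q z` -/
def IsNorm (p q : ℤ) (Q P : ℤ[X]) : Prop :=
  ∀ x s1 s2 s3 : ℂ, s1 + s2 + s3 = -p → s1 * s2 + s1 * s3 + s2 * s3 = q →
      s1 * s2 * s3 = x → aeval x P = aeval s1 Q * aeval s2 Q * aeval s3 Q

section

variable {p q : ℤ} {Q P : ℤ[X]}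

lemma IsNorm.toFam (h : IsNorm p q Q P) : ∀ (a : ℤ) (x s1 s2 s3 : ℂ), s1 + s2 + s3 = -p →
      s1 * s2 + s1 * s3 + s2 * s3 = q → s1 * s2 * s3 = x →
      aeval x ((fun _ : ℤ => P) a) = aeval s1 (Q - C a * 0) * aeval s2 (Q - C a * 0) *
        aeval s3 (Q - C a * 0) := by
  intro a x s1 s2 s3 h1 h2 h3
  simpa using h x s1 s2 s3 h1 h2 h3

lemma IsNorm.map (h : IsNorm p q Q P) :
    P.map (algebraMap ℤ ℂ) = C (((Q.leadingCoeff : ℤ) : ℂ) ^ 3) *
      ((Q.aroots ℂ).map fun σ : ℂ => X - C (σ ^ 3 + p * σ ^ 2 + q * σ)).prod := by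
  have := fam_map p q Q 0 (fun _ => P) h.toFam 0
  simpa using this

lemma IsNorm.root (h : IsNorm p q Q P) (ξ : ℂ) :
    aeval ξ P = 0 ↔ ∃ σ : ℂ, aeval σ Q = 0 ∧ ξ = σ ^ 3 + p * σ ^ 2 + q * σ := by
  have := fam_root h.toFam 0 ξ
  simpa using this

lemma IsNorm.deg (h : IsNorm p q Q P) (hQ : Q ≠ 0) : P.natDegree = Q.natDegree ∧
    P.leadingCoeff = Q.leadingCoeff ^ 3 := by
  have := fam_deg h.toFam 0 (by simpa using hQ)
  simpa using this

/-- an irreducible polynomial with a common root divides -/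
lemma dvd_of_common {A B : ℚ[X]} (hA : Irreducible A) (σ : ℂ) (h1 : aeval σ A = 0)
    (h2 : aeval σ B = 0) : A ∣ B := by
  rcases EuclideanDomain.dvd_or_coprime A B hA with h | h
  · exact h
  · exfalso
    obtain ⟨u, v, huv⟩ := h
    have := congrArg (aeval σ) huv
    simp [h1, h2] at this

lemma aeval_rat (P : ℤ[X]) (σ : ℂ) : aeval σ (P.map (algebraMap ℤ ℚ)) = aeval σ P := by
  rw [aeval_map_algebraMap]

/-- the norm of an irreducible polynomial is irreducible, if one root is simple -/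
lemma IsNorm.irreducible (h : IsNorm p q Q P) (hQ : Irreducible (Q.map (algebraMap ℤ ℚ)))
    (hQ1 : 1 ≤ Q.natDegree) (z1 : ℂ) (hz1 : aeval z1 Q = 0)
    (hs : ∀ σ : ℂ, aeval σ Q = 0 → σ ^ 3 + p * σ ^ 2 + q * σ = z1 ^ 3 + p * z1 ^ 2 + q * z1 →
      σ = z1) : Irreducible (P.map (algebraMap ℤ ℚ)) := by
  classical
  have hQ0 : Q ≠ 0 := by rintro rfl; simp at hQ1
  obtain ⟨hdeg, -⟩ := h.deg hQ0
  by_contra hcon
  obtain ⟨G, H, hGH, hG1, hH1⟩ := exists_factor P (by rw [hdeg]; exact hQ1) hcon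
  have hsep := separable_of_irreducible Q hQ
  have hnod : (Q.aroots ℂ).Nodup := nodup_roots hsep
  have hmem : z1 ∈ Q.aroots ℂ := by
    rw [mem_aroots]
    exact ⟨hQ0, hz1⟩
  obtain ⟨s, hs'⟩ := Multiset.exists_cons_of_mem hmem
  have hz1s : z1 ∉ s := by
    rw [hs'] at hnod
    exact (Multiset.nodup_cons.1 hnod).1
  have hmap := h.map
  rw [hs', Multiset.map_cons, Multiset.prod_cons] at hmap
  set X1 : ℂ := z1 ^ 3 + p * z1 ^ 2 + q * z1 with hX1
  set W : ℂ[X] := C (((Q.leadingCoeff : ℤ) : ℂ) ^ 3) *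
    (s.map fun σ : ℂ => X - C (σ ^ 3 + p * σ ^ 2 + q * σ)).prod with hW
  have hmap' : P.map (algebraMap ℤ ℂ) = (X - C X1) * W := by
    rw [hmap, hW]; ring
  have hW1 : W.eval X1 ≠ 0 := by
    rw [hW, eval_mul, eval_C, eval_multiset_prod, Multiset.map_map]
    refine mul_ne_zero (pow_ne_zero 3 ?_) ?_
    · exact_mod_cast leadingCoeff_ne_zero.2 hQ0
    · rw [Ne, Multiset.prod_eq_zero_iff]
      intro h0
      obtain ⟨σ, hσ, hσ0⟩ := Multiset.mem_map.1 h0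
      simp only [Function.comp_apply, eval_sub, eval_X, eval_C] at hσ0
      have hσQ : aeval σ Q = 0 := by
        have : σ ∈ Q.aroots ℂ := by rw [hs']; exact Multiset.mem_cons_of_mem hσ
        exact (mem_aroots.1 this).2
      have := hs σ hσQ (sub_eq_zero.1 hσ0).symm
      rw [this] at hσ
      exact hz1s hσ
  have key : ∀ G H : ℤ[X], P = G * H → 1 ≤ H.natDegree → aeval X1 G = 0 → False := by
    intro G H hGH hH1 hG
    have hH0 : H ≠ 0 := by rintro rfl; simp at hH1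
    have hdH : (H.map (algebraMap ℤ ℂ)).degree ≠ 0 := by
      rw [degree_map_eq_of_injective (RingHom.injective_int (algebraMap ℤ ℂ)),
        degree_eq_natDegree hH0]
      exact_mod_cast (by omega : H.natDegree ≠ 0)
    obtain ⟨ξ, hξ⟩ := IsAlgClosed.exists_root _ hdH
    rw [IsRoot.def, eval_map_algebraMap] at hξ
    have hPξ : aeval ξ P = 0 := by rw [hGH, map_mul, hξ, mul_zero]
    obtain ⟨σ, hσ, hξσ⟩ := (h.root ξ).1 hPξ
    set f : ℤ[X] := X ^ 3 + C p * X ^ 2 + C q * X with hf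
    have hfev : ∀ z : ℂ, aeval z f = z ^ 3 + p * z ^ 2 + q * z := by
      intro z
      simp [hf]
    have hcomp : ∀ z : ℂ, aeval z (H.comp f) = aeval (z ^ 3 + p * z ^ 2 + q * z) H := by
      intro z
      rw [aeval_comp, hfev]
    have hdvd : Q.map (algebraMap ℤ ℚ) ∣ (H.comp f).map (algebraMap ℤ ℚ) := by
      refine dvd_of_common hQ σ ?_ ?_
      · rw [aeval_rat, hσ]
      · rw [aeval_rat, hcomp, ← hξσ, hξ]
    obtain ⟨T, hT⟩ := hdvd
    have hH : aeval X1 H = 0 := by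
      have := congrArg (aeval z1) hT
      rw [aeval_rat, hcomp, map_mul, aeval_rat, hz1, zero_mul] at this
      exact this
    have d1 : (X - C X1) ∣ G.map (algebraMap ℤ ℂ) := by
      rw [dvd_iff_isRoot, IsRoot.def, eval_map_algebraMap, hG]
    have d2 : (X - C X1) ∣ H.map (algebraMap ℤ ℂ) := by
      rw [dvd_iff_isRoot, IsRoot.def, eval_map_algebraMap, hH]
    have d3 : (X - C X1) * (X - C X1) ∣ (X - C X1) * W := by
      rw [← hmap', hGH, Polynomial.map_mul]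
      exact mul_dvd_mul d1 d2
    have d4 : (X - C X1) ∣ W := by
      rwa [mul_dvd_mul_iff_left (X_sub_C_ne_zero X1)] at d3
    rw [dvd_iff_isRoot] at d4
    exact hW1 d4
  have hP1 : aeval X1 P = 0 := (h.root X1).2 ⟨z1, hz1, rfl⟩
  rw [hGH, map_mul] at hP1
  rcases mul_eq_zero.1 hP1 with h0 | h0
  · exact key G H hGH hH1 h0
  · exact key H G (by rw [hGH, mul_comm]) hG1 h0

end

/-- the homogeneous family of norms -/
lemma exists_fam2 (p q : ℤ) (N D : ℤ[X]) : ∃ F : ℤ → ℤ → ℤ[X],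
    (∀ A b : ℤ, IsNorm p q (C A * N - C b * D) (F A b)) ∧
    (∃ A0 A1 A2 A3 : ℤ[X], ∀ A b : ℤ, F A b = C A ^ 3 * A0 + C A ^ 2 * C b * A1 +
      C A * C b ^ 2 * A2 + C b ^ 3 * A3) := by
  obtain ⟨u, v, w, hN⟩ := rep p q N
  obtain ⟨u', v', w', hD⟩ := rep p q D
  refine ⟨fun A b => nf (C (-p)) (C q) X (C A * u - C b * u') (C A * v - C b * v')
    (C A * w - C b * w'), ?_, ?_⟩
  · intro A b x s1 s2 s3 h1 h2 h3
    have e1 : ∀ s : ℂ, s = s1 ∨ s = s2 ∨ s = s3 → s ^ 3 + p * s ^ 2 + q * s = x := by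
      have hp : (p : ℂ) = -(s1 + s2 + s3) := by rw [h1]; ring
      rw [hp, ← h2, ← h3]
      rintro s (h | h | h) <;> rw [h] <;> ring
    have e2 : ∀ s : ℂ, s = s1 ∨ s = s2 ∨ s = s3 → aeval s (C A * N - C b * D) =
        aeval x (C A * u - C b * u') + aeval x (C A * v - C b * v') * s +
          aeval x (C A * w - C b * w') * s ^ 2 := by
      intro s hs
      have h := e1 s hs
      have hN' := hN s
      have hD' := hD s
      rw [h] at hN' hD'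
      simp only [map_sub, map_mul, aeval_C, hN', hD']
      ring
    rw [e2 s1 (Or.inl rfl), e2 s2 (Or.inr (Or.inl rfl)), e2 s3 (Or.inr (Or.inr rfl)), ← nf_eq,
      h1, h2, h3]
    have := nf_hom ((aeval x : ℤ[X] →ₐ[ℤ] ℂ) : ℤ[X] →+* ℂ) (C (-p)) (C q) X (C A * u - C b * u')
      (C A * v - C b * v') (C A * w - C b * w')
    simp only [RingHom.coe_coe] at this
    rw [this]
    simp
  · refine ⟨nf (C (-p)) (C q) X u v w,
      -((3 * u ^ 2 + 2 * u * v * C (-p) + 2 * u * w * (C (-p) ^ 2 - 2 * C q) + v ^ 2 * C q +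
        v * w * (C (-p) * C q - 3 * X) + w ^ 2 * (C q ^ 2 - 2 * C (-p) * X)) * u' +
        (u ^ 2 * C (-p) + 2 * u * v * C q + u * w * (C (-p) * C q - 3 * X) + 3 * v ^ 2 * X +
          2 * v * w * C (-p) * X + w ^ 2 * C q * X) * v' +
        (u ^ 2 * (C (-p) ^ 2 - 2 * C q) + u * v * (C (-p) * C q - 3 * X) +
          2 * u * w * (C q ^ 2 - 2 * C (-p) * X) + v ^ 2 * C (-p) * X + 2 * v * w * C q * X +
          3 * w ^ 2 * X ^ 2) * w'),
      ((3 * u' ^ 2 + 2 * u' * v' * C (-p) + 2 * u' * w' * (C (-p) ^ 2 - 2 * C q) + v' ^ 2 * C q +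
        v' * w' * (C (-p) * C q - 3 * X) + w' ^ 2 * (C q ^ 2 - 2 * C (-p) * X)) * u +
        (u' ^ 2 * C (-p) + 2 * u' * v' * C q + u' * w' * (C (-p) * C q - 3 * X) + 3 * v' ^ 2 * X +
          2 * v' * w' * C (-p) * X + w' ^ 2 * C q * X) * v +
        (u' ^ 2 * (C (-p) ^ 2 - 2 * C q) + u' * v' * (C (-p) * C q - 3 * X) +
          2 * u' * w' * (C q ^ 2 - 2 * C (-p) * X) + v' ^ 2 * C (-p) * X + 2 * v' * w' * C q * X +
          3 * w' ^ 2 * X ^ 2) * w),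
      -nf (C (-p)) (C q) X u' v' w', fun A b => ?_⟩
    unfold nf
    ring

lemma fam2_bound (F : ℤ → ℤ → ℤ[X]) (h : ∃ A0 A1 A2 A3 : ℤ[X], ∀ A b : ℤ,
    F A b = C A ^ 3 * A0 + C A ^ 2 * C b * A1 + C A * C b ^ 2 * A2 + C b ^ 3 * A3) :
    ∃ M : ℕ, 0 < M ∧ ∀ A b : ℤ, 0 ≤ A → |b| ≤ 2 * A → ∀ i, |(F A b).coeff i| ≤ M * A ^ 3 := by
  obtain ⟨A0, A1, A2, A3, h⟩ := h
  obtain ⟨M0, h0⟩ := exists_coeff_bound A0
  obtain ⟨M1, h1⟩ := exists_coeff_bound A1
  obtain ⟨M2, h2⟩ := exists_coeff_bound A2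
  obtain ⟨M3, h3⟩ := exists_coeff_bound A3
  refine ⟨M0 + 2 * M1 + 4 * M2 + 8 * M3 + 1, by omega, fun A b hA hb i => ?_⟩
  have e : (F A b).coeff i = A ^ 3 * A0.coeff i + A ^ 2 * b * A1.coeff i +
      A * b ^ 2 * A2.coeff i + b ^ 3 * A3.coeff i := by
    rw [h A b]
    simp only [coeff_add, ← C_pow, ← C_mul, coeff_C_mul]
  rw [e]
  have b0 := h0 i
  have b1 := h1 i
  have b2 := h2 i
  have b3 := h3 i
  have hb2 : |b| ^ 2 ≤ 4 * A ^ 2 := by
    calc |b| ^ 2 ≤ (2 * A) ^ 2 := pow_le_pow_left₀ (abs_nonneg _) hb 2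
      _ = _ := by ring
  have hb3 : |b| ^ 3 ≤ 8 * A ^ 3 := by
    calc |b| ^ 3 ≤ (2 * A) ^ 3 := pow_le_pow_left₀ (abs_nonneg _) hb 3
      _ = _ := by ring
  have c0 : |A ^ 3 * A0.coeff i| ≤ A ^ 3 * M0 := by
    rw [abs_mul, abs_of_nonneg (pow_nonneg hA 3)]
    exact mul_le_mul_of_nonneg_left b0 (by positivity)
  have c1 : |A ^ 2 * b * A1.coeff i| ≤ (2 * A ^ 3) * M1 := by
    rw [abs_mul, abs_mul, abs_of_nonneg (pow_nonneg hA 2)]
    refine mul_le_mul ?_ b1 (abs_nonneg _) (by positivity)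
    calc A ^ 2 * |b| ≤ A ^ 2 * (2 * A) := mul_le_mul_of_nonneg_left hb (by positivity)
      _ = _ := by ring
  have c2 : |A * b ^ 2 * A2.coeff i| ≤ (4 * A ^ 3) * M2 := by
    rw [abs_mul, abs_mul, abs_of_nonneg hA, abs_pow]
    refine mul_le_mul ?_ b2 (abs_nonneg _) (by positivity)
    calc A * |b| ^ 2 ≤ A * (4 * A ^ 2) := mul_le_mul_of_nonneg_left hb2 hA
      _ = _ := by ring
  have c3 : |b ^ 3 * A3.coeff i| ≤ (8 * A ^ 3) * M3 := by
    rw [abs_mul, abs_pow]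
    exact mul_le_mul hb3 b3 (abs_nonneg _) (by positivity)
  have t1 := abs_add_le (A ^ 3 * A0.coeff i + A ^ 2 * b * A1.coeff i + A * b ^ 2 * A2.coeff i)
    (b ^ 3 * A3.coeff i)
  have t2 := abs_add_le (A ^ 3 * A0.coeff i + A ^ 2 * b * A1.coeff i) (A * b ^ 2 * A2.coeff i)
  have t3 := abs_add_le (A ^ 3 * A0.coeff i) (A ^ 2 * b * A1.coeff i)
  have t4 : 0 ≤ A ^ 3 := pow_nonneg hA 3
  push_cast
  nlinarith

end Run7.h565
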