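import Pool.Agent.Run7.h565.Expo

/-!
# Quartic polynomials with close roots: the exponent `5 / 2`

For the even powers `φ ^ i = p + q φ` of the golden ratio, the binary cubic form with coefficients
`3 p - q, 12 p + q, 11 p - 7 q, 6 p - 7 q` takes the value `8` at a point of size about `q ^ 3`.
-/

set_option autoImplicit false

namespace Run7.h565

open Polynomial Filter

lemma separable_of_card (P : ℂ[X]) (hP : P ≠ 0) (S : Finset ℂ) (hS : ∀ z ∈ S, P.IsRoot z)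
    (hcard : P.natDegree ≤ S.card) : P.Separable := by
  classical
  have h1 : S ⊆ P.roots.toFinset := by
    intro z hz
    rw [Multiset.mem_toFinset, mem_roots']
    exact ⟨hP, hS z hz⟩
  have h2 := Finset.card_le_card h1
  have h3 := Multiset.toFinset_card_le P.roots
  have h4 := card_roots' P
  have h5 : P.roots.toFinset.card = Multiset.card P.roots := by omega
  have h6 := Multiset.toFinset_card_eq_card_iff_nodup.1 h5
  exact (nodup_roots_iff_of_splits hP (IsAlgClosed.splits P)).1 h6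

lemma coeff_quartic (a b c d e K : ℤ) (ha : |a| ≤ K) (hb : |b| ≤ K) (hc : |c| ≤ K) (hd : |d| ≤ K)
    (he : |e| ≤ K) (i : ℕ) :
    |(C a * X ^ 4 + C b * X ^ 3 + C c * X ^ 2 + C d * X + C e).coeff i| ≤ K := by
  simp only [coeff_add, coeff_C_mul, coeff_X_pow, coeff_X, coeff_C]
  match i with
  | 0 => simpa using he
  | 1 => simpa using hd
  | 2 => simpa using hc
  | 3 => simpa using hb
  | 4 => simpa using ha
  | (i + 5) =>
    have : 0 ≤ K := (abs_nonneg a).trans ha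
    simpa using this

lemma natDegree_quartic (a b c d e : ℤ) (ha : a ≠ 0) :
    (C a * X ^ 4 + C b * X ^ 3 + C c * X ^ 2 + C d * X + C e).natDegree = 4 := by
  compute_degree!

/-- `φ ^ (2 k + 2) = p + q φ` -/
def gold : ℕ → ℕ × ℕ
  | 0 => (1, 1)
  | k + 1 => ((gold k).1 + (gold k).2, (gold k).1 + 2 * (gold k).2)

lemma gold_eq (k : ℕ) : (gold k).2 ^ 2 + 1 = (gold k).1 ^ 2 + (gold k).1 * (gold k).2 := by
  induction k with
  | zero => rfl
  | succ k ih =>
    simp only [gold]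
    nlinarith

lemma gold_pos (k : ℕ) : 0 < (gold k).1 ∧ 0 < (gold k).2 := by
  induction k with
  | zero => simp [gold]
  | succ k ih => simp only [gold]; omega

lemma gold_strictMono : StrictMono fun k => (gold k).2 := by
  apply strictMono_nat_of_lt_succ
  intro k
  have := gold_pos k
  simp only [gold]
  omega

section

variable (p q : ℤ)

/-- denominator -/
def gY : ℤ := p ^ 3 + 3 * p * q ^ 2 + q ^ 3 + q
/-- numerator -/
def gZ : ℤ := 3 * p ^ 2 * q + q ^ 3 - p ^ 3 - p - q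

/-- the quartic -/
noncomputable def quart : ℤ[X] := (C (gY p q) * X - C (gZ p q)) *
  (C (3 * p - q) * X ^ 3 + C (12 * p + q) * X ^ 2 + C (11 * p - 7 * q) * X + C (6 * p - 7 * q))

lemma form_eq (h : q ^ 2 + 1 = p ^ 2 + p * q) :
    (3 * p - q) * gZ p q ^ 3 + (12 * p + q) * (gZ p q ^ 2 * gY p q) +
      (11 * p - 7 * q) * (gZ p q * gY p q ^ 2) + (6 * p - 7 * q) * gY p q ^ 3 = 8 := by
  unfold gZ gY
  linear_combination (((-4)*p^8*q^0 + (14)*p^7*q^1 + (-33)*p^6*q^2 + (-8)*p^6*q^0 +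
    (-38)*p^5*q^3 + (16)*p^5*q^1 + (-205)*p^4*q^4 + (60)*p^4*q^2 + (-11)*p^4*q^0 +
    (-232)*p^3*q^5 + (60)*p^3*q^3 + (-12)*p^3*q^1 + (-218)*p^2*q^6 + (40)*p^2*q^4 +
    (16)*p^2*q^2 + (-8)*p^2*q^0 + (-84)*p^1*q^7 + (-44)*p^1*q^5 + (32)*p^1*q^3 + (-8)*p^1*q^1 +
    (-14)*p^0*q^8 + (-12)*p^0*q^6 + (-6)*p^0*q^4 + (8)*p^0*q^2 + (-8)*p^0*q^0)) * h

lemma quart_expand : quart p q = C (gY p q * (3 * p - q)) * X ^ 4 +
    C (gY p q * (12 * p + q) - gZ p q * (3 * p - q)) * X ^ 3 +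
    C (gY p q * (11 * p - 7 * q) - gZ p q * (12 * p + q)) * X ^ 2 +
    C (gY p q * (6 * p - 7 * q) - gZ p q * (11 * p - 7 * q)) * X +
    C (-(gZ p q * (6 * p - 7 * q))) := by
  unfold quart
  simp only [C_mul, C_sub, C_neg]
  ring

end

section

variable (p q : ℤ) (hp : 0 < p) (hq : 10 ≤ q) (h : q ^ 2 + 1 = p ^ 2 + p * q)

include hp hq

lemma gY_ge : q ^ 3 ≤ gY p q := by
  unfold gY
  have : 0 ≤ p ^ 3 + 3 * p * q ^ 2 + q := by positivity
  linarith

include h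

lemma gold_le : p ≤ q ∧ q ≤ 2 * p := by
  constructor
  · by_contra hcon
    push Not at hcon
    nlinarith
  · by_contra hcon
    push Not at hcon
    nlinarith

lemma gY_le : gY p q ≤ 6 * q ^ 3 := by
  obtain ⟨h1, h2⟩ := gold_le p q hp hq h
  unfold gY
  have e1 : p ^ 3 ≤ q ^ 3 := pow_le_pow_left₀ hp.le h1 3
  have e2 : p * q ^ 2 ≤ q * q ^ 2 := mul_le_mul_of_nonneg_right h1 (by positivity)
  have e3 : q ≤ q ^ 3 := le_self_pow₀ (by linarith) (by norm_num)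
  nlinarith

lemma gZ_le : gZ p q ≤ gY p q := by
  obtain ⟨h1, h2⟩ := gold_le p q hp hq h
  unfold gY gZ
  have e1 : p ^ 2 * q ≤ p * q ^ 2 := by
    have : p * q * p ≤ p * q * q := mul_le_mul_of_nonneg_left h1 (by positivity)
    nlinarith
  have e2 : 0 ≤ p ^ 3 := by positivity
  linarith

/-- `11 Y ≤ 20 Z` -/
lemma gZ_ge : 11 * gY p q ≤ 20 * gZ p q := by
  obtain ⟨h1, h2⟩ := gold_le p q hp hq h
  unfold gY gZ
  -- `r = q / p`: `20 (3 r + r ^ 3 - 1) - 12 (1 + 3 r ^ 2 + r ^ 3) ≥ 0` for `r ≥ 1`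
  have e1 : 12 * (p ^ 3 + 3 * p * q ^ 2 + q ^ 3) ≤ 20 * (3 * p ^ 2 * q + q ^ 3 - p ^ 3) := by
    have : 20 * (3 * p ^ 2 * q + q ^ 3 - p ^ 3) - 12 * (p ^ 3 + 3 * p * q ^ 2 + q ^ 3) =
        (q - p) * (8 * q ^ 2 - 28 * q * p + 32 * p ^ 2) := by ring
    have h3 : 0 ≤ (q - p) * (8 * q ^ 2 - 28 * q * p + 32 * p ^ 2) := by
      refine mul_nonneg (by linarith) ?_
      nlinarith [sq_nonneg (4 * q - 7 * p)]
    linarith
  have e2 : 100 * q ≤ q ^ 3 := by
    have : 100 ≤ q ^ 2 := by nlinarith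
    nlinarith
  have e3 : 0 ≤ p ^ 3 + 3 * p * q ^ 2 := by positivity
  linarith

lemma quart_coeff (i : ℕ) : |(quart p q).coeff i| ≤ 200 * q ^ 4 := by
  obtain ⟨h1, h2⟩ := gold_le p q hp hq h
  have hY1 := gY_ge p q hp hq
  have hY2 := gY_le p q hp hq h
  have hZ1 := gZ_le p q hp hq h
  have hZ2 := gZ_ge p q hp hq h
  have hq3 : 0 < q ^ 3 := by positivity
  have hY0 : 0 < gY p q := by linarith
  have hZ0 : 0 < gZ p q := by linarith
  have key : ∀ a b : ℤ, |a| ≤ 13 * q → |b| ≤ 13 * q → |gY p q * a - gZ p q * b| ≤ 200 * q ^ 4 := by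
    intro a b ha hb
    have e1 := abs_sub (gY p q * a) (gZ p q * b)
    rw [abs_mul, abs_mul, abs_of_pos hY0, abs_of_pos hZ0] at e1
    have e2 : gY p q * |a| ≤ 6 * q ^ 3 * (13 * q) := mul_le_mul hY2 ha (abs_nonneg _) (by positivity)
    have e3 : gZ p q * |b| ≤ 6 * q ^ 3 * (13 * q) :=
      mul_le_mul (hZ1.trans hY2) hb (abs_nonneg _) (by positivity)
    have e4 : 0 ≤ q ^ 4 := by positivity
    nlinarith
  have a3 : |3 * p - q| ≤ 13 * q := by rw [abs_le]; constructor <;> linarith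
  have a2 : |12 * p + q| ≤ 13 * q := by rw [abs_le]; constructor <;> linarith
  have a1 : |11 * p - 7 * q| ≤ 13 * q := by rw [abs_le]; constructor <;> linarith
  have a0 : |6 * p - 7 * q| ≤ 13 * q := by rw [abs_le]; constructor <;> linarith
  have az : |(0 : ℤ)| ≤ 13 * q := by rw [abs_zero]; linarith
  have hpos : (0 : ℤ) ≤ 200 * q ^ 4 := by positivity
  rw [quart_expand]
  apply coeff_quartic
  · have := key (3 * p - q) 0 a3 az
    rwa [mul_zero, sub_zero] at this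
  · exact key _ _ a2 a3
  · exact key _ _ a1 a2
  · exact key _ _ a0 a1
  · have := key 0 (6 * p - 7 * q) az a0
    rwa [mul_zero, zero_sub] at this

lemma quart_natDegree : (quart p q).natDegree = 4 := by
  obtain ⟨h1, h2⟩ := gold_le p q hp hq h
  have hY1 := gY_ge p q hp hq
  have hq3 : 0 < q ^ 3 := by positivity
  have hY0 : 0 < gY p q := by linarith
  rw [quart_expand]
  exact natDegree_quartic _ _ _ _ _ (mul_pos hY0 (by linarith)).ne'

omit hp hq h in
lemma quart_aeval (x : ℝ) : aeval x (quart p q) = ((gY p q : ℤ) * x - (gZ p q : ℤ)) *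
    ((3 * p - q) * x ^ 3 + (12 * p + q) * x ^ 2 + (11 * p - 7 * q) * x + (6 * p - 7 * q)) := by
  unfold quart
  simp only [map_mul, map_add, map_sub, map_pow, aeval_X, eq_intCast, map_intCast, map_ofNat]

lemma quart_roots : ∃ ξ θ θ2 θ3 : ℝ, θ < ξ ∧ ξ - θ ≤ 2 / (q : ℝ) ^ 10 ∧ θ2 < θ ∧ θ3 < θ2 ∧
    aeval ξ (quart p q) = 0 ∧ aeval θ (quart p q) = 0 ∧ aeval θ2 (quart p q) = 0 ∧
    aeval θ3 (quart p q) = 0 := by
  obtain ⟨h1, h2⟩ := gold_le p q hp hq h
  have hY1 := gY_ge p q hp hq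
  have hZ1 := gZ_le p q hp hq h
  have hZ2 := gZ_ge p q hp hq h
  have hform := form_eq p q h
  have hq3 : 0 < q ^ 3 := by positivity
  have hY0 : 0 < gY p q := by linarith
  have hpR : (0 : ℝ) < p := by exact_mod_cast hp
  have hqR : (10 : ℝ) ≤ q := by exact_mod_cast hq
  have h1R : (p : ℝ) ≤ q := by exact_mod_cast h1
  have h2R : (q : ℝ) ≤ 2 * p := by exact_mod_cast h2
  have hY1R : (q : ℝ) ^ 3 ≤ (gY p q : ℝ) := by exact_mod_cast hY1
  have hY0R : (0 : ℝ) < (gY p q : ℝ) := by exact_mod_cast hY0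
  have hZ1R : (gZ p q : ℝ) ≤ (gY p q : ℝ) := by exact_mod_cast hZ1
  have hZ2R : 11 * (gY p q : ℝ) ≤ 20 * (gZ p q : ℝ) := by exact_mod_cast hZ2
  have hformR : (3 * (p : ℝ) - q) * (gZ p q : ℝ) ^ 3 + (12 * p + q) * ((gZ p q : ℝ) ^ 2 * gY p q) +
      (11 * p - 7 * q) * ((gZ p q : ℝ) * (gY p q : ℝ) ^ 2) + (6 * p - 7 * q) * (gY p q : ℝ) ^ 3 = 8 := by
    exact_mod_cast hform
  have haev := quart_aeval p q
  set Y : ℝ := (gY p q : ℝ) with hY
  set Z : ℝ := (gZ p q : ℝ) with hZ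
  set f : ℝ → ℝ := fun x => (3 * p - q) * x ^ 3 + (12 * p + q) * x ^ 2 + (11 * p - 7 * q) * x +
    (6 * p - 7 * q) with hf
  have hfc : Continuous f := by fun_prop
  set ξ : ℝ := Z / Y with hξ
  have hξ1 : 11 / 20 ≤ ξ := by
    rw [hξ, le_div_iff₀ hY0R]; linarith
  have hfξ : f ξ = 8 / Y ^ 3 := by
    have hYZ : Y * ξ = Z := by rw [hξ]; field_simp
    rw [eq_div_iff (by positivity), ← hformR, ← hYZ]
    simp only [hf]
    ring
  have hfξpos : 0 < f ξ := by rw [hfξ]; positivity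
  have hq0 : (0 : ℝ) < q := by linarith
  set δ : ℝ := f ξ / (5 * q) with hδ
  have hδpos : 0 < δ := by positivity
  have hδ1 : δ ≤ 2 / (q : ℝ) ^ 10 := by
    rw [hδ, hfξ, div_div, div_le_div_iff₀ (by positivity) (by positivity)]
    have e1 : ((q : ℝ) ^ 3) ^ 3 ≤ Y ^ 3 := pow_le_pow_left₀ (by positivity) hY1R 3
    have e2 : 8 * (q : ℝ) ^ 10 = 8 * (((q : ℝ) ^ 3) ^ 3 * q) := by ring
    rw [e2]
    have e3 : ((q : ℝ) ^ 3) ^ 3 * q ≤ Y ^ 3 * q := mul_le_mul_of_nonneg_right e1 hq0.le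
    have e4 : 0 ≤ Y ^ 3 * q := by positivity
    linarith
  have hδ2 : δ ≤ 1 / 20 := by
    refine hδ1.trans ?_
    rw [div_le_div_iff₀ (by positivity) (by norm_num)]
    have : (10 : ℝ) ^ 10 ≤ (q : ℝ) ^ 10 := pow_le_pow_left₀ (by norm_num) hqR 10
    norm_num at this ⊢
    linarith
  have hη1 : 1 / 2 ≤ ξ - δ := by linarith
  have hfη : f (ξ - δ) ≤ 0 := by
    have e1 : f ξ - f (ξ - δ) = δ * ((3 * p - q) * (ξ ^ 2 + ξ * (ξ - δ) + (ξ - δ) ^ 2) +
        (12 * p + q) * (ξ + (ξ - δ)) + (11 * p - 7 * q)) := by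
      simp only [hf]; ring
    have e2 : 5 * (q : ℝ) ≤ (3 * p - q) * (ξ ^ 2 + ξ * (ξ - δ) + (ξ - δ) ^ 2) +
        (12 * p + q) * (ξ + (ξ - δ)) + (11 * p - 7 * q) := by
      have t1 : 0 ≤ (3 * (p : ℝ) - q) * (ξ ^ 2 + ξ * (ξ - δ) + (ξ - δ) ^ 2) := by
        refine mul_nonneg (by linarith) ?_
        have : 0 ≤ ξ - δ := by linarith
        positivity
      have t2 : (12 * (p : ℝ) + q) * 1 ≤ (12 * p + q) * (ξ + (ξ - δ)) :=
        mul_le_mul_of_nonneg_left (by linarith) (by positivity)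
      linarith
    have e3 : δ * (5 * q) = f ξ := by rw [hδ]; field_simp
    have e4 := mul_le_mul_of_nonneg_left e2 hδpos.le
    linarith
  have hf1 : 0 < f (-1) := by
    have : f (-1) = 4 * p + 2 * q := by simp only [hf]; ring
    rw [this]; positivity
  have hf0 : f 0 < 0 := by
    have : f 0 = 6 * p - 7 * q := by simp only [hf]; ring
    rw [this]; linarith
  have hf30 : f (-30) < 0 := by
    have : f (-30) = -70524 * p + 28103 * q := by simp only [hf]; ring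
    rw [this]; linarith
  obtain ⟨θ, ⟨hθ1, hθ2⟩, hθ3⟩ := intermediate_value_Icc (show ξ - δ ≤ ξ by linarith)
    hfc.continuousOn ⟨hfη, hfξpos.le⟩
  obtain ⟨θ2, ⟨hθ21, hθ22⟩, hθ23⟩ := intermediate_value_Icc' (show (-1 : ℝ) ≤ 0 by norm_num)
    hfc.continuousOn ⟨hf0.le, hf1.le⟩
  obtain ⟨θ3, ⟨hθ31, hθ32⟩, hθ33⟩ := intermediate_value_Icc (show (-30 : ℝ) ≤ -1 by norm_num)
    hfc.continuousOn ⟨hf30.le, hf1.le⟩
  have hne1 : θ ≠ ξ := by
    rintro h0; rw [h0] at hθ3; linarith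
  have hne2 : θ2 ≠ -1 := by
    rintro h0; rw [h0] at hθ23; linarith
  have hr : ∀ x, f x = 0 → aeval x (quart p q) = 0 := by
    intro x hx
    rw [haev x]
    simp only [hf] at hx
    rw [hx, mul_zero]
  refine ⟨ξ, θ, θ2, θ3, lt_of_le_of_ne hθ2 hne1, by linarith, by linarith, ?_, ?_, hr θ hθ3,
    hr θ2 hθ23, hr θ3 hθ33⟩
  · have : -1 < θ2 := lt_of_le_of_ne hθ21 (Ne.symm hne2)
    linarith
  · rw [haev ξ]
    have hYZ : Y * ξ = Z := by rw [hξ]; field_simp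
    rw [hYZ, sub_self, zero_mul]

end

theorem main_quart : (((5 / 2 : ℝ)) : EReal) ≤ e 4 := by
  have htend : Tendsto (fun k => (gold k).2) atTop atTop := gold_strictMono.tendsto_atTop
  refine le_sepExponent' _ 4 4 200 (by norm_num) (by norm_num) (5 / 2) 2 (by norm_num) ?_
  refine htend.frequently (Eventually.frequently ?_)
  filter_upwards [htend.eventually_ge_atTop 10] with k hk
  set p : ℤ := ((gold k).1 : ℤ) with hp
  set q : ℤ := ((gold k).2 : ℤ) with hq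
  have hp0 : 0 < p := by rw [hp]; exact_mod_cast (gold_pos k).1
  have hq10 : 10 ≤ q := by rw [hq]; exact_mod_cast hk
  have h : q ^ 2 + 1 = p ^ 2 + p * q := by rw [hp, hq]; exact_mod_cast gold_eq k
  obtain ⟨ξ, θ, θ2, θ3, e1, e2, e3, e4, r1, r2, r3, r4⟩ := quart_roots p q hp0 hq10 h
  have hdeg := quart_natDegree p q hp0 hq10 h
  have hP0 : quart p q ≠ 0 := by
    intro h0
    rw [h0] at hdeg
    simp at hdeg
  have hinj := RingHom.injective_int (algebraMap ℤ ℂ)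
  refine ⟨‖((ξ : ℝ) : ℂ) - ((θ : ℝ) : ℂ)‖, ⟨quart p q, hdeg, fun i => ?_, ?_, trivial, ξ, θ, ?_,
    aeval_complex _ _ r1, aeval_complex _ _ r2, rfl⟩, ?_⟩
  · have := quart_coeff p q hp0 hq10 h i
    rw [hq] at this
    exact_mod_cast this
  · classical
    refine separable_of_card _ ((Polynomial.map_ne_zero_iff hinj).2 hP0)
      {((ξ : ℝ) : ℂ), ((θ : ℝ) : ℂ), ((θ2 : ℝ) : ℂ), ((θ3 : ℝ) : ℂ)} ?_ ?_
    · intro z hz
      simp only [Finset.mem_insert, Finset.mem_singleton] at hz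
      rw [IsRoot.def, eval_map_algebraMap]
      rcases hz with hz | hz | hz | hz <;> rw [hz]
      · exact aeval_complex _ _ r1
      · exact aeval_complex _ _ r2
      · exact aeval_complex _ _ r3
      · exact aeval_complex _ _ r4
    · rw [natDegree_map_eq_of_injective hinj, hdeg]
      have n1 : ((ξ : ℝ) : ℂ) ≠ θ := by exact_mod_cast e1.ne'
      have n2 : ((ξ : ℝ) : ℂ) ≠ θ2 := by exact_mod_cast (e3.trans e1).ne'
      have n3 : ((ξ : ℝ) : ℂ) ≠ θ3 := by exact_mod_cast (e4.trans (e3.trans e1)).ne'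
      have n4 : ((θ : ℝ) : ℂ) ≠ θ2 := by exact_mod_cast e3.ne'
      have n5 : ((θ : ℝ) : ℂ) ≠ θ3 := by exact_mod_cast (e4.trans e3).ne'
      have n6 : ((θ2 : ℝ) : ℂ) ≠ θ3 := by exact_mod_cast e4.ne'
      rw [Finset.card_insert_of_notMem (by simp [n1, n2, n3]),
        Finset.card_insert_of_notMem (by simp [n4, n5]),
        Finset.card_insert_of_notMem (by simp [n6]), Finset.card_singleton]
  · exact_mod_cast e1.ne'
  · rw [← Complex.ofReal_sub, Complex.norm_real, Real.norm_of_nonneg (by linarith)]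
    refine e2.trans (le_of_eq ?_)
    have h3 : ((((gold k).2 : ℕ) : ℝ)) = (q : ℝ) := by rw [hq]; push_cast; rfl
    have hq0 : (0 : ℝ) < q := by
      have : 0 < q := by linarith
      exact_mod_cast this
    rw [h3, div_eq_mul_inv, ← Real.rpow_natCast, ← Real.rpow_neg hq0.le]
    congr 2
    push_cast
    norm_num

end Run7.h565
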