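import Pool.Agent.Run7.h565.Est3
import Pool.Agent.Run7.h565.Norm2

/-!
# Scaling by a square root of `2`, norms from `ℤ[√2]`, and a Pell sequence
-/

set_option autoImplicit false

namespace Run7.h565

open Polynomial ComplexConjugate

lemma coeff_of_par (P : ℤ[X]) (k : ℕ) (hpar : P.comp (-X) = (-1) ^ k * P) (i : ℕ) (hik : i ≤ k)
    (hodd : ¬ Even (k - i)) : P.coeff i = 0 := by
  have h1 : (P.comp (-X)).coeff i = P.coeff i * (-1) ^ i := by
    have : (-X : ℤ[X]) = C (-1) * X := by simp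
    rw [this, comp_C_mul_X_coeff]
  have h2 : ((-1) ^ k * P).coeff i = (-1) ^ k * P.coeff i := by
    have : ((-1 : ℤ[X]) ^ k) = C ((-1) ^ k) := by simp
    rw [this, coeff_C_mul]
  rw [hpar, h2] at h1
  have hki : k = i + (k - i) := by omega
  have h3 : ((-1 : ℤ)) ^ k = -(-1) ^ i := by
    rw [hki, pow_add, Odd.neg_one_pow (Nat.not_even_iff_odd.1 hodd)]
    ring
  rw [h3] at h1
  have h4 : ((-1 : ℤ)) ^ i ≠ 0 := pow_ne_zero _ (by norm_num)
  have h5 : (2 * (-1 : ℤ) ^ i) * P.coeff i = 0 := by linarith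
  exact (mul_eq_zero.1 h5).resolve_left (mul_ne_zero two_ne_zero h4)

lemma exists_scale (P : ℤ[X]) (k : ℕ) (hdeg : P.natDegree = k)
    (hpar : P.comp (-X) = (-1) ^ k * P) : ∃ P2 : ℤ[X], P2.natDegree = k ∧
      P2.leadingCoeff = P.leadingCoeff ∧
      ∀ s x : ℂ, s ^ 2 = 2 → aeval (s * x) P2 = s ^ k * aeval x P := by
  by_cases hP0 : P = 0
  · subst hP0
    refine ⟨0, hdeg, rfl, fun s x _ => by simp⟩
  set P2 : ℤ[X] := ∑ i ∈ Finset.range (k + 1), C (P.coeff i * 2 ^ ((k - i) / 2)) * X ^ i with hP2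
  have hcoeff : ∀ j, P2.coeff j = if j ∈ Finset.range (k + 1) then P.coeff j * 2 ^ ((k - j) / 2)
      else 0 := by
    intro j
    rw [hP2, finsetSum_coeff]
    simp only [coeff_C_mul, coeff_X_pow]
    simp
  have hck : P2.coeff k = P.leadingCoeff := by
    rw [hcoeff]
    simp [leadingCoeff, hdeg]
  have hle : P2.natDegree ≤ k := by
    rw [natDegree_le_iff_coeff_eq_zero]
    intro j hj
    rw [hcoeff, if_neg (by simp; omega)]
  have hnd : P2.natDegree = k := by
    refine le_antisymm hle (le_natDegree_of_ne_zero ?_)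
    rw [hck]
    exact leadingCoeff_ne_zero.2 hP0
  refine ⟨P2, hnd, ?_, ?_⟩
  · rw [leadingCoeff, hnd, hck]
  · intro s x hs
    rw [hP2, map_sum, aeval_eq_sum_range' (n := k + 1) (by omega), Finset.mul_sum]
    apply Finset.sum_congr rfl
    intro i hi
    have hi' : i ≤ k := by simpa [Nat.lt_succ_iff] using hi
    simp only [map_mul, map_pow, aeval_X, eq_intCast, map_intCast, map_ofNat, Int.cast_ofNat,
      zsmul_eq_mul]
    by_cases hev : Even (k - i)
    · have h1 : (2 : ℂ) ^ ((k - i) / 2) * s ^ i = s ^ k := by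
        rw [← hs, ← pow_mul, Nat.mul_div_cancel' hev.two_dvd, ← pow_add]
        congr 1
        omega
      rw [← h1, mul_pow]
      ring
    · rw [coeff_of_par P k hpar i hi' hev]
      simp

/-- values at square roots of `2` -/
lemma val_sqrt (P : ℤ[X]) : ∃ u v : ℤ, ∀ s : ℂ, s ^ 2 = 2 → aeval s P = u + v * s := by
  induction P using Polynomial.induction_on with
  | C a => exact ⟨a, 0, fun s _ => by simp⟩
  | add g h ihg ihh =>
    obtain ⟨u, v, hg⟩ := ihg
    obtain ⟨u', v', hh⟩ := ihh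
    refine ⟨u + u', v + v', fun s hs => ?_⟩
    rw [map_add, hg s hs, hh s hs]
    push_cast
    ring
  | monomial n a ih =>
    obtain ⟨u, v, h⟩ := ih
    refine ⟨2 * v, u, fun s hs => ?_⟩
    have : (C a * X ^ (n + 1) : ℤ[X]) = (C a * X ^ n) * X := by ring
    rw [this, map_mul, h s hs, aeval_X]
    push_cast
    linear_combination (v : ℂ) * hs

/-- the product of the values at the square roots of `2` is an integer -/
lemma norm_sqrt (P : ℤ[X]) (s : ℂ) (hs : s ^ 2 = 2) (h1 : aeval s P ≠ 0) (h2 : aeval (-s) P ≠ 0) :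
    1 ≤ ‖aeval s P‖ * ‖aeval (-s) P‖ := by
  obtain ⟨u, v, h⟩ := val_sqrt P
  have e : aeval s P * aeval (-s) P = ((u ^ 2 - 2 * v ^ 2 : ℤ) : ℂ) := by
    rw [h s hs, h (-s) (by rw [neg_sq, hs])]
    push_cast
    linear_combination (-(v : ℂ) ^ 2) * hs
  have hne : (u ^ 2 - 2 * v ^ 2 : ℤ) ≠ 0 := by
    intro h0
    rw [h0, Int.cast_zero] at e
    exact mul_ne_zero h1 h2 e
  rw [← norm_mul, e, Complex.norm_intCast]
  have := Int.one_le_abs hne
  exact_mod_cast this

/-- Pell -/
def pell : ℕ → ℕ × ℕ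
  | 0 => (1, 1)
  | k + 1 => (3 * (pell k).1 + 2 * (pell k).2, 4 * (pell k).1 + 3 * (pell k).2)

lemma pell_eq (k : ℕ) : (pell k).2 ^ 2 + 1 = 2 * (pell k).1 ^ 2 := by
  induction k with
  | zero => rfl
  | succ k ih =>
    simp only [pell]
    nlinarith

lemma pell_pos (k : ℕ) : 0 < (pell k).1 ∧ 0 < (pell k).2 := by
  induction k with
  | zero => simp [pell]
  | succ k ih => simp only [pell]; omega

lemma pell_strictMono : StrictMono fun k => (pell k).1 := by
  apply strictMono_nat_of_lt_succ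
  intro k
  have := pell_pos k
  simp only [pell]
  omega

end Run7.h565
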