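import Mathlib

/-!
# The polynomials `θ m`

`θ 0 = θ 1 = 1` and `X θ (m+2) = t (m+1) (X-1)^2 θ m - t m θ (m+1)` where `t m = θ m (0)`.
The main point is `t m ≠ 0` for every `m`, which is proved with the Riccati equation of
the branch at `0` of the inverse of `X (X-1)^2`.
-/

set_option autoImplicit false

namespace Run7.h565

open Polynomial

/-- numerator of the recursion -/
noncomputable def num (p q : ℤ[X]) : ℤ[X] :=
  C (q.coeff 0) * (X - 1) ^ 2 * p - C (p.coeff 0) * q

/-- `(θ m, θ (m+1))` -/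
noncomputable def pr : ℕ → ℤ[X] × ℤ[X]
  | 0 => (1, 1)
  | m + 1 => ((pr m).2, (num (pr m).1 (pr m).2).divX)

/-- the polynomials `θ m` -/
noncomputable def θ (m : ℕ) : ℤ[X] := (pr m).1

/-- `t m = θ m (0)` -/
noncomputable def t (m : ℕ) : ℤ := (θ m).coeff 0

lemma pr_snd (m : ℕ) : (pr m).2 = θ (m + 1) := rfl

lemma θ_zero : θ 0 = 1 := rfl
lemma θ_one : θ 1 = 1 := rfl

lemma t_zero : t 0 = 1 := by simp [t, θ_zero]
lemma t_one : t 1 = 1 := by simp [t, θ_one]

lemma θ_add_two (m : ℕ) : θ (m + 2) = (num (θ m) (θ (m + 1))).divX := rfl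

lemma X_mul_θ (m : ℕ) :
    X * θ (m + 2) = C (t (m + 1)) * (X - 1) ^ 2 * θ m - C (t m) * θ (m + 1) := by
  have h := divX_mul_X_add (num (θ m) (θ (m + 1)))
  have h0 : (num (θ m) (θ (m + 1))).coeff 0 = 0 := by
    unfold num
    rw [coeff_zero_eq_eval_zero]
    simp only [eval_sub, eval_mul, eval_C, eval_pow, eval_X, eval_one]
    rw [← coeff_zero_eq_eval_zero, ← coeff_zero_eq_eval_zero]
    ring
  rw [h0, map_zero, add_zero, ← θ_add_two] at h
  rw [mul_comm, h]
  rfl

/-- evaluation form of the recursion -/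
lemma ev {R : Type*} [CommRing R] (m : ℕ) (z : R) :
    z * aeval z (θ (m + 2)) =
      (t (m + 1) : R) * (z - 1) ^ 2 * aeval z (θ m) - (t m : R) * aeval z (θ (m + 1)) := by
  have h := congrArg (aeval z) (X_mul_θ m)
  simpa using h

lemma ev_one {R : Type*} [CommRing R] (m : ℕ) :
    aeval (1 : R) (θ (m + 2)) = - (t m : R) * aeval (1 : R) (θ (m + 1)) := by
  have h := ev (R := R) m 1
  simpa using h

lemma t_eq {R : Type*} [CommRing R] (m : ℕ) : aeval (0 : R) (θ m) = (t m : R) := by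
  rw [← coeff_zero_eq_aeval_zero']
  simp [t]

end Run7.h565
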